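import Mathlib
set_option autoImplicit false

/-!
Arithmetical lemmas.
-/

namespace Pool.Agent.V7H64.CG

open Finset

/-- `K ^ ω(m) ≤ C m ^ δ` -/
theorem pow_omega (K : ℕ) (hK : 1 ≤ K) (δ : ℝ) (hδ : 0 < δ) : ∃ C : ℝ, 1 ≤ C ∧ ∀ m : ℕ, m ≠ 0 →
    ((K : ℝ) ^ m.primeFactors.card) ≤ C * (m : ℝ) ^ δ := by
  classical
  set T := ⌈(K : ℝ) ^ (1 / δ)⌉₊ with hT
  have hK1 : (1 : ℝ) ≤ K := by exact_mod_cast hK
  refine ⟨(K : ℝ) ^ T, one_le_pow₀ hK1, fun m hm => ?_⟩
  have h1 : (K : ℝ) ^ m.primeFactors.card = ∏ p ∈ m.primeFactors, (K : ℝ) := by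
    rw [Finset.prod_const]
  rw [h1]
  have h2 : ∏ p ∈ m.primeFactors, (K : ℝ) ≤
      ∏ p ∈ m.primeFactors, ((if p < T then (K : ℝ) else 1) * (p : ℝ) ^ δ) := by
    refine Finset.prod_le_prod (fun _ _ => by positivity) fun p hp => ?_
    rw [Nat.mem_primeFactors] at hp
    have hp1 : (1 : ℝ) ≤ p := by exact_mod_cast hp.1.one_le
    have hp2 : (1 : ℝ) ≤ (p : ℝ) ^ δ := Real.one_le_rpow hp1 hδ.le
    split_ifs with h
    · nlinarith
    · rw [one_mul]
      push Not at h
      have h3 : (K : ℝ) ^ (1 / δ) ≤ p := (Nat.le_ceil _).trans (by exact_mod_cast h)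
      calc (K : ℝ) = ((K : ℝ) ^ (1 / δ)) ^ δ := by
            rw [← Real.rpow_mul (by positivity), one_div_mul_cancel hδ.ne', Real.rpow_one]
        _ ≤ (p : ℝ) ^ δ := Real.rpow_le_rpow (by positivity) h3 hδ.le
  refine h2.trans ?_
  rw [Finset.prod_mul_distrib]
  refine mul_le_mul ?_ ?_ (Finset.prod_nonneg fun _ _ => by positivity) (by positivity)
  · rw [Finset.prod_ite, Finset.prod_const, Finset.prod_const_one, mul_one]
    refine pow_le_pow_right₀ hK1 ?_
    have h3 : (m.primeFactors.filter fun p => p < T) ⊆ range T := fun p hp => by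
      rw [Finset.mem_filter] at hp
      exact Finset.mem_range.2 hp.2
    calc _ ≤ (range T).card := Finset.card_le_card h3
      _ = T := Finset.card_range T
  · rw [Real.finsetProd_rpow _ _ fun _ _ => Nat.cast_nonneg _]
    refine Real.rpow_le_rpow (Finset.prod_nonneg fun _ _ => Nat.cast_nonneg _) ?_ hδ.le
    have h3 := Nat.le_of_dvd (Nat.pos_of_ne_zero hm) (Nat.prod_primeFactors_dvd m)
    rw [← Nat.cast_prod]
    exact Nat.cast_le.2 h3

theorem omega_large {N L : ℕ} (hN : N ≠ 0) (hL : 2 ≤ L) :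
    ((N.primeFactors.filter fun p => L < p).card : ℝ) * Real.log L ≤ Real.log N := by
  have h1 : L ^ (N.primeFactors.filter fun p => L < p).card ≤ N := by
    rw [← Finset.prod_const]
    calc ∏ p ∈ N.primeFactors.filter fun p => L < p, L ≤
        ∏ p ∈ N.primeFactors.filter fun p => L < p, p :=
          Finset.prod_le_prod' fun p hp => (Finset.mem_filter.1 hp).2.le
      _ ≤ ∏ p ∈ N.primeFactors, p := by
          refine Finset.prod_le_prod_of_subset_of_one_le' (Finset.filter_subset _ _) fun p hp _ => ?_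
          exact (Nat.prime_of_mem_primeFactors hp).one_le
      _ ≤ N := Nat.le_of_dvd (Nat.pos_of_ne_zero hN) (Nat.prod_primeFactors_dvd N)
  rw [← Real.log_pow]
  refine Real.log_le_log ?_ (by exact_mod_cast h1)
  have : (0 : ℝ) < L := by exact_mod_cast (by omega : 0 < L)
  positivity

theorem divisors_card {n : ℕ} (hn : Squarefree n) : n.divisors.card ≤ 2 ^ n.primeFactors.card := by
  classical
  rw [← Finset.card_powerset]
  refine Finset.card_le_card_of_injOn (fun d => d.primeFactors) (fun d hd => ?_)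
    fun d hd d' hd' h => ?_
  · rw [Finset.mem_coe, Nat.mem_divisors] at hd
    rw [Finset.mem_coe, Finset.mem_powerset]
    exact Nat.primeFactors_mono hd.1 hd.2
  · rw [Finset.mem_coe, Nat.mem_divisors] at hd hd'
    have h1 := Nat.prod_primeFactors_of_squarefree (hn.squarefree_of_dvd hd.1)
    have h2 := Nat.prod_primeFactors_of_squarefree (hn.squarefree_of_dvd hd'.1)
    rw [← h1, ← h2]
    exact congrArg (fun s : Finset ℕ => ∏ p ∈ s, p) h

/-- A modulus which is divisible by the squares of all small primes. -/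
theorem modulus (q L : ℕ) (hq : 1 ≤ q) : ∃ N : ℕ, 0 < N ∧ q ∣ N ∧ N ≤ q * 16 ^ L ∧
    ∀ p, p.Prime → p ≤ L → p ^ 2 ∣ N := by
  refine ⟨q * primorial L ^ 2, ?_, dvd_mul_right _ _, ?_, fun p hp hpL => ?_⟩
  · exact Nat.mul_pos hq (pow_pos (primorial_pos L) 2)
  · refine Nat.mul_le_mul_left _ ?_
    calc primorial L ^ 2 ≤ (4 ^ L) ^ 2 := Nat.pow_le_pow_left (primorial_le_four_pow L) 2
      _ = 16 ^ L := by rw [← pow_mul, mul_comm L 2, pow_mul]; norm_num
  · refine Dvd.dvd.mul_left (pow_dvd_pow_of_dvd ?_ 2) _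
    unfold primorial
    refine Finset.dvd_prod_of_mem _ ?_
    rw [Finset.mem_filter, Finset.mem_range]
    exact ⟨by omega, hp⟩

theorem exists_s : ∃ s : ℕ, 0 < s ∧ ∀ p, p.Prime → (p < 300 ↔ p ∣ s ^ 2) := by
  refine ⟨primorial 299, primorial_pos _, fun p hp => ⟨fun h => ?_, fun h => ?_⟩⟩
  · refine dvd_pow ?_ two_ne_zero
    unfold primorial
    refine Finset.dvd_prod_of_mem _ ?_
    rw [Finset.mem_filter, Finset.mem_range]
    exact ⟨by omega, hp⟩
  · have h1 := hp.dvd_of_dvd_pow h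
    unfold primorial at h1
    rw [Prime.dvd_finsetProd_iff hp.prime] at h1
    obtain ⟨r, hr, hpr⟩ := h1
    rw [Finset.mem_filter, Finset.mem_range] at hr
    have := (Nat.prime_dvd_prime_iff_eq hp hr.2).1 hpr
    omega

theorem exists_sqf {a q : ℕ} (hq : 1 ≤ q) (h : Squarefree (Nat.gcd a q)) :
    ∃ b, Squarefree b ∧ b ≡ a [MOD q] := by
  set g := Nat.gcd a q with hg
  have hg0 : 0 < g := Nat.gcd_pos_of_pos_right _ hq
  have hc : Nat.Coprime (a / g) (q / g) := Nat.coprime_div_gcd_div_gcd hg0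
  have hgq : g ∣ q := Nat.gcd_dvd_right a q
  have hq0 : q / g ≠ 0 := (Nat.div_pos (Nat.le_of_dvd hq hgq) hg0).ne'
  obtain ⟨p, hp1, hp2, hp3⟩ := Nat.forall_exists_prime_gt_and_modEq g hq0 hc
  refine ⟨g * p, ?_, ?_⟩
  · rw [Nat.squarefree_mul_iff]
    refine ⟨?_, h, hp2.squarefree⟩
    refine ((Nat.Prime.coprime_iff_not_dvd hp2).2 fun hd => ?_).symm
    have := Nat.le_of_dvd hg0 hd
    omega
  · have h1 := Nat.ModEq.mul_left' g hp3
    rwa [Nat.mul_div_cancel' (Nat.gcd_dvd_right a q), Nat.mul_div_cancel' (Nat.gcd_dvd_left a q)]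
      at h1

end Pool.Agent.V7H64.CG
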