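import Mathlib
set_option autoImplicit false

/-!
Character sums over `t (t ^ 2 - k)`, and points of the curves `x y (x ^ 2 - D ^ 2 y ^ 2) = a`.
-/

namespace Pool.Agent.V7H64.CG

open Finset

set_option linter.unusedSectionVars false

section char

variable {F : Type*} [Field F] [Fintype F] [DecidableEq F]

theorem corr {χ : MulChar F ℂ} (hχ : χ ≠ 1) {c : F} (hc : c ≠ 0) :
    ∑ v : F, χ v * star (χ (v + c)) = -1 := by
  have h0 : χ (0 : F) * star (χ ((0 : F) + c)) = 0 := by
    rw [MulChar.map_zero, zero_mul]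
  have h1 : ∀ v : F, v ≠ 0 → χ v * star (χ (v + c)) = χ⁻¹ (1 + c * v⁻¹) := by
    intro v hv
    have h2 : χ v = χ⁻¹ (v⁻¹) := by rw [MulChar.inv_apply', inv_inv]
    rw [MulChar.star_apply', h2, ← map_mul]
    congr 1
    field_simp
  have h2 : ∑ v : F, χ v * star (χ (v + c)) = ∑ v ∈ univ.erase (0 : F), χ⁻¹ (1 + c * v⁻¹) := by
    rw [← Finset.add_sum_erase univ _ (Finset.mem_univ (0 : F)), h0, zero_add]
    exact Finset.sum_congr rfl fun v hv => h1 v (Finset.ne_of_mem_erase hv)
  have h3 : ∑ v ∈ univ.erase (0 : F), χ⁻¹ (1 + c * v⁻¹) = ∑ w ∈ univ.erase (1 : F), χ⁻¹ w := by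
    refine Finset.sum_nbij' (fun v => 1 + c * v⁻¹) (fun w => c * (w - 1)⁻¹) ?_ ?_ ?_ ?_ ?_
    · intro v hv
      have hv0 := Finset.ne_of_mem_erase hv
      rw [Finset.mem_erase]
      refine ⟨fun h => ?_, Finset.mem_univ _⟩
      have : c * v⁻¹ = 0 := by linear_combination h
      exact mul_ne_zero hc (inv_ne_zero hv0) this
    · intro w hw
      have hw0 := Finset.ne_of_mem_erase hw
      rw [Finset.mem_erase]
      exact ⟨mul_ne_zero hc (inv_ne_zero (sub_ne_zero.2 hw0)), Finset.mem_univ _⟩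
    · intro v hv
      have hv0 := Finset.ne_of_mem_erase hv
      field_simp
      ring_nf
      field_simp
    · intro w hw
      have hw0 := sub_ne_zero.2 (Finset.ne_of_mem_erase hw)
      field_simp
      ring
    · intro v _
      rfl
  have h4 : ∑ w ∈ univ.erase (1 : F), χ⁻¹ w = -1 := by
    have h5 := MulChar.sum_eq_zero_of_ne_one (inv_ne_one.2 hχ)
    rw [← Finset.add_sum_erase univ _ (Finset.mem_univ (1 : F)), MulChar.map_one] at h5
    linear_combination h5
  rw [h2, h3, h4]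

theorem norm_char {χ : MulChar F ℂ} {x : F} (hx : x ≠ 0) : ‖χ x‖ = 1 := by
  have h1 : χ x * star (χ x) = 1 := by
    rw [MulChar.star_apply', MulChar.inv_apply', ← map_mul, mul_inv_cancel₀ hx, map_one]
  have h2 := congrArg (fun z => ‖z‖) h1
  simp only [norm_mul, norm_star, norm_one] at h2
  have h3 := norm_nonneg (χ x)
  nlinarith

theorem norm_char_le (χ : MulChar F ℂ) (x : F) : ‖χ x‖ ≤ 1 := by
  by_cases hx : x = 0
  · rw [hx, MulChar.map_zero, norm_zero]
    exact zero_le_one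
  · exact (norm_char hx).le

theorem corr_self (χ : MulChar F ℂ) :
    ∑ v : F, χ v * star (χ v) = (Fintype.card F : ℂ) - 1 := by
  have h1 : ∀ v ∈ univ.erase (0 : F), χ v * star (χ v) = 1 := by
    intro v hv
    have hv0 := Finset.ne_of_mem_erase hv
    rw [MulChar.star_apply', MulChar.inv_apply', ← map_mul, mul_inv_cancel₀ hv0, map_one]
  rw [← Finset.add_sum_erase univ _ (Finset.mem_univ (0 : F)), MulChar.map_zero, zero_mul, zero_add,
    Finset.sum_congr rfl h1, Finset.sum_const, Finset.card_erase_of_mem (Finset.mem_univ _),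
    Finset.card_univ, nsmul_eq_mul, mul_one, Nat.cast_sub Fintype.card_pos]
  simp

/-- The sum of `χ (t (t ^ 2 - k))`. -/
noncomputable def Sm (χ : MulChar F ℂ) (k : F) : ℂ := ∑ t : F, χ (t * (t ^ 2 - k))

theorem inner_sum {χ : MulChar F ℂ} (hχ : χ ≠ 1) (t u : F) :
    ∑ k : F, χ (t ^ 2 - k) * star (χ (u ^ 2 - k)) =
      (if t ^ 2 = u ^ 2 then (Fintype.card F : ℂ) else 0) - 1 := by
  have h1 : ∑ k : F, χ (t ^ 2 - k) * star (χ (u ^ 2 - k)) =
      ∑ v : F, χ v * star (χ (v + (u ^ 2 - t ^ 2))) := by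
    rw [← Equiv.sum_comp (Equiv.subLeft (t ^ 2))]
    refine Finset.sum_congr rfl fun k _ => ?_
    rw [Equiv.subLeft_apply]
    congr 3 <;> ring
  rw [h1]
  by_cases h : t ^ 2 = u ^ 2
  · rw [if_pos h, h, sub_self]
    simp only [add_zero]
    exact corr_self χ
  · rw [if_neg h, corr hχ (sub_ne_zero.2 (Ne.symm h)), zero_sub]

theorem second {χ : MulChar F ℂ} (hχ : χ ≠ 1) :
    ∑ k : F, ‖Sm χ k‖ ^ 2 ≤ 2 * Fintype.card F * (Fintype.card F - 1) := by
  have h1 : ((∑ k : F, ‖Sm χ k‖ ^ 2 : ℝ) : ℂ) = ∑ k : F, Sm χ k * star (Sm χ k) := by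
    push_cast
    refine Finset.sum_congr rfl fun k _ => ?_
    have := Complex.mul_conj' (Sm χ k)
    rw [← this]
    rfl
  have h2 : ∑ k : F, Sm χ k * star (Sm χ k) =
      ∑ t : F, ∑ u : F, χ t * star (χ u) * ((if t ^ 2 = u ^ 2 then (Fintype.card F : ℂ) else 0) - 1) := by
    have h3 : ∀ k : F, Sm χ k * star (Sm χ k) = ∑ t : F, ∑ u : F,
        χ t * star (χ u) * (χ (t ^ 2 - k) * star (χ (u ^ 2 - k))) := by
      intro k
      unfold Sm
      rw [star_sum, Finset.sum_mul_sum]
      refine Finset.sum_congr rfl fun t _ => Finset.sum_congr rfl fun u _ => ?_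
      rw [map_mul, map_mul, star_mul']
      ring
    simp only [h3]
    rw [Finset.sum_comm]
    refine Finset.sum_congr rfl fun t _ => ?_
    rw [Finset.sum_comm]
    refine Finset.sum_congr rfl fun u _ => ?_
    rw [← Finset.mul_sum, inner_sum hχ]
  have h4 : ∑ t : F, ∑ u : F, χ t * star (χ u) * ((if t ^ 2 = u ^ 2 then (Fintype.card F : ℂ) else 0) - 1) =
      ∑ t : F, ∑ u : F, χ t * star (χ u) * (if t ^ 2 = u ^ 2 then (Fintype.card F : ℂ) else 0) := by
    have h5 : ∑ t : F, ∑ u : F, χ t * star (χ u) = 0 := by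
      rw [← Finset.sum_mul_sum, MulChar.sum_eq_zero_of_ne_one hχ, zero_mul]
    simp only [mul_sub, mul_one, Finset.sum_sub_distrib]
    rw [h5, sub_zero]
  have h6 : ‖∑ t : F, ∑ u : F, χ t * star (χ u) *
      (if t ^ 2 = u ^ 2 then (Fintype.card F : ℂ) else 0)‖ ≤
      2 * Fintype.card F * (Fintype.card F - 1) := by
    have h7 : ∀ t : F, ‖∑ u : F, χ t * star (χ u) *
        (if t ^ 2 = u ^ 2 then (Fintype.card F : ℂ) else 0)‖ ≤
        if t = 0 then 0 else 2 * (Fintype.card F : ℝ) := by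
      intro t
      by_cases ht : t = 0
      · rw [if_pos ht, ht]
        simp [MulChar.map_zero]
      · rw [if_neg ht]
        refine (norm_sum_le _ _).trans ?_
        have h8 : ∀ u : F, ‖χ t * star (χ u) * (if t ^ 2 = u ^ 2 then (Fintype.card F : ℂ) else 0)‖ ≤
            if u ∈ ({t, -t} : Finset F) then (Fintype.card F : ℝ) else 0 := by
          intro u
          by_cases hu : t ^ 2 = u ^ 2
          · have hu' : u ∈ ({t, -t} : Finset F) := by
              rw [Finset.mem_insert, Finset.mem_singleton]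
              rcases sq_eq_sq_iff_eq_or_eq_neg.1 hu with h | h
              · left; exact h.symm
              · right; rw [h, neg_neg]
            rw [if_pos hu, if_pos hu', norm_mul, norm_mul, norm_star]
            have e1 := norm_char_le χ t
            have e2 := norm_char_le χ u
            have e3 : ‖(Fintype.card F : ℂ)‖ = Fintype.card F := by simp
            rw [e3]
            have e4 : ‖χ t‖ * ‖χ u‖ ≤ 1 := mul_le_one₀ e1 (norm_nonneg _) e2
            exact mul_le_of_le_one_left (Nat.cast_nonneg _) e4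
          · rw [if_neg hu, mul_zero, norm_zero]
            split_ifs
            · exact Nat.cast_nonneg _
            · exact le_rfl
        refine (Finset.sum_le_sum fun u _ => h8 u).trans ?_
        rw [Finset.sum_ite_mem, Finset.univ_inter, Finset.sum_const, nsmul_eq_mul]
        have h9 : (({t, -t} : Finset F).card : ℝ) ≤ 2 := by exact_mod_cast Finset.card_le_two
        exact mul_le_mul_of_nonneg_right h9 (Nat.cast_nonneg _)
    refine (norm_sum_le _ _).trans ((Finset.sum_le_sum fun t _ => h7 t).trans ?_)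
    rw [← Finset.add_sum_erase univ _ (Finset.mem_univ (0 : F)), if_pos rfl, zero_add]
    have h10 : ∀ t ∈ univ.erase (0 : F), (if t = 0 then 0 else 2 * (Fintype.card F : ℝ)) =
        2 * (Fintype.card F : ℝ) := fun t ht => if_neg (Finset.ne_of_mem_erase ht)
    rw [Finset.sum_congr rfl h10, Finset.sum_const, Finset.card_erase_of_mem (Finset.mem_univ _),
      Finset.card_univ, nsmul_eq_mul, Nat.cast_sub Fintype.card_pos]
    push_cast
    linarith
  have h11 : (∑ k : F, ‖Sm χ k‖ ^ 2 : ℝ) = ‖((∑ k : F, ‖Sm χ k‖ ^ 2 : ℝ) : ℂ)‖ := by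
    rw [Complex.norm_real, Real.norm_eq_abs, abs_of_nonneg]
    exact Finset.sum_nonneg fun k _ => by positivity
  rw [h11, h1, h2, h4]
  exact h6

theorem Sm_scale (χ : MulChar F ℂ) (k : F) {m : F} (hm : m ≠ 0) :
    ‖Sm χ (k * m ^ 2)‖ = ‖Sm χ k‖ := by
  have h1 : Sm χ (k * m ^ 2) = χ (m ^ 3) * Sm χ k := by
    unfold Sm
    rw [← Equiv.sum_comp (Equiv.mulLeft₀ m hm), Finset.mul_sum]
    refine Finset.sum_congr rfl fun t _ => ?_
    rw [← map_mul, Equiv.mulLeft₀_apply]
    congr 1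
    ring
  rw [h1, norm_mul, norm_char (pow_ne_zero 3 hm), one_mul]

theorem Sm_bound {χ : MulChar F ℂ} (hχ : χ ≠ 1) {k : F} (hk : k ≠ 0) :
    ‖Sm χ k‖ ^ 2 ≤ 4 * Fintype.card F := by
  have hcard : (1 : ℝ) < Fintype.card F := by exact_mod_cast Fintype.one_lt_card
  have h1 : ∑ m ∈ univ.erase (0 : F), ‖Sm χ (k * m ^ 2)‖ ^ 2 =
      (Fintype.card F - 1) * ‖Sm χ k‖ ^ 2 := by
    have h2 : ∀ m ∈ univ.erase (0 : F), ‖Sm χ (k * m ^ 2)‖ ^ 2 = ‖Sm χ k‖ ^ 2 := fun m hm => by
      rw [Sm_scale χ k (Finset.ne_of_mem_erase hm)]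
    rw [Finset.sum_congr rfl h2, Finset.sum_const, Finset.card_erase_of_mem (Finset.mem_univ _),
      Finset.card_univ, nsmul_eq_mul, Nat.cast_sub Fintype.card_pos]
    simp
  have h2 : ∑ m ∈ univ.erase (0 : F), ‖Sm χ (k * m ^ 2)‖ ^ 2 ≤ 2 * ∑ k : F, ‖Sm χ k‖ ^ 2 := by
    rw [Finset.sum_comp (fun k' => ‖Sm χ k'‖ ^ 2) (fun m => k * m ^ 2), Finset.mul_sum]
    refine (Finset.sum_le_sum (g := fun b => 2 * ‖Sm χ b‖ ^ 2) fun b _ => ?_).trans
      (Finset.sum_le_univ_sum_of_nonneg fun b => by positivity)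
    rw [nsmul_eq_mul]
    refine mul_le_mul_of_nonneg_right ?_ (by positivity)
    have h3 : ((univ.erase (0 : F)).filter fun a => k * a ^ 2 = b).card ≤ 2 := by
      rcases Finset.eq_empty_or_nonempty ((univ.erase (0 : F)).filter fun a => k * a ^ 2 = b) with h | ⟨m0, h⟩
      · rw [h]
        simp
      · refine (Finset.card_le_card (t := {m0, -m0}) fun m hm => ?_).trans Finset.card_le_two
        rw [Finset.mem_filter] at h hm
        have h4 : m ^ 2 = m0 ^ 2 := by
          have := hm.2.trans h.2.symm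
          exact mul_left_cancel₀ hk this
        rw [Finset.mem_insert, Finset.mem_singleton]
        exact sq_eq_sq_iff_eq_or_eq_neg.1 h4
    exact_mod_cast h3
  have h3 := second hχ
  have h4 : ((Fintype.card F : ℝ) - 1) * ‖Sm χ k‖ ^ 2 ≤ (Fintype.card F - 1) * (4 * Fintype.card F) := by
    rw [← h1]
    refine h2.trans ?_
    nlinarith
  exact le_of_mul_le_mul_left h4 (by linarith)

end char

end Pool.Agent.V7H64.CG
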