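import Pool.Agent.V7H64.CG.Sys
set_option autoImplicit false

/-!
Counting of pairs of integers in residue classes.
-/

namespace Pool.Agent.V7H64.CG

open Finset

set_option linter.unusedSectionVars false

/-- Elements of an interval in one residue class. -/
theorem ap_card (S : Finset ℕ) {u l r : ℕ} (hr : 0 < r) (hS : ∀ x ∈ S, u < x ∧ x ≤ u + l)
    (hc : ∀ x ∈ S, ∀ x' ∈ S, x ≡ x' [MOD r]) : S.card ≤ l / r + 1 := by
  refine card_le_of_inj _ (range (l / r + 1)) (fun x => (x - u - 1) / r) (fun x hx => ?_)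
    (fun x hx x' hx' h => ?_) (by rw [card_range])
  · rw [mem_range]
    have h1 := hS x hx
    exact Nat.lt_succ_of_le (Nat.div_le_div_right (by omega))
  · have h1 := hS x hx
    have h2 := hS x' hx'
    have h3 : (x - u - 1) ≡ (x' - u - 1) [MOD r] := by
      have h4 : x - u - 1 + (u + 1) ≡ x' - u - 1 + (u + 1) [MOD r] := by
        have e1 : x - u - 1 + (u + 1) = x := by omega
        have e2 : x' - u - 1 + (u + 1) = x' := by omega
        rw [e1, e2]
        exact hc x hx x' hx'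
      exact Nat.ModEq.add_right_cancel' _ h4
    have h5 := Nat.div_add_mod (x - u - 1) r
    have h6 := Nat.div_add_mod (x' - u - 1) r
    have h7 : (x - u - 1) / r = (x' - u - 1) / r := h
    unfold Nat.ModEq at h3
    rw [h7, h3] at h5
    omega

/-- Multiples of `r`. -/
theorem mult_card (S : Finset ℕ) {l r : ℕ} (hr : 0 < r) (hS : ∀ x ∈ S, 0 < x ∧ x ≤ l ∧ r ∣ x) :
    S.card ≤ l / r := by
  refine card_le_of_inj _ (range (l / r)) (fun x => x / r - 1) (fun x hx => ?_)
    (fun x hx x' hx' h => ?_) (by rw [card_range])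
  · rw [mem_range]
    obtain ⟨h1, h2, t, rfl⟩ := hS x hx
    rw [Nat.mul_div_cancel_left t hr]
    have h3 : 0 < t := Nat.pos_of_ne_zero fun h => by
      rw [h, mul_zero] at h1
      exact lt_irrefl _ h1
    have h4 : t ≤ l / r := (Nat.le_div_iff_mul_le hr).2 (by rwa [mul_comm])
    omega
  · obtain ⟨h1, h2, t, rfl⟩ := hS x hx
    obtain ⟨h1', h2', t', rfl⟩ := hS x' hx'
    have h3 : 0 < t := Nat.pos_of_ne_zero fun h => by
      rw [h, mul_zero] at h1
      exact lt_irrefl _ h1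
    have h3' : 0 < t' := Nat.pos_of_ne_zero fun h => by
      rw [h, mul_zero] at h1'
      exact lt_irrefl _ h1'
    rw [Nat.mul_div_cancel_left t hr, Nat.mul_div_cancel_left t' hr] at h
    have : t = t' := by omega
    rw [this]

theorem card_fib {α β : Type*} [DecidableEq β] (S : Finset α) (T : Finset β) (φ : α → β) {m n : ℕ}
    (h1 : ∀ w ∈ S, φ w ∈ T) (h2 : ∀ t ∈ T, (S.filter fun w => φ w = t).card ≤ m) (h3 : T.card ≤ n) :
    S.card ≤ m * n := by
  rw [Finset.card_eq_sum_card_fiberwise (f := φ) (t := T) (fun w hw => Finset.mem_coe.2 (h1 w hw))]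
  refine (Finset.sum_le_card_nsmul _ _ m h2).trans ?_
  rw [smul_eq_mul, mul_comm]
  exact Nat.mul_le_mul_left _ h3

section box

variable (D N h : ℕ) [NeZero N] (A : Finset (ZMod N × ZMod N))

/-- reduction -/
def red (w : ℕ × ℕ) : ZMod N × ZMod N := ((w.1 : ZMod N), (w.2 : ZMod N))

/-- The pairs of integers. -/
def PP : Finset (ℕ × ℕ) :=
  (Icc (D * (N * h) + 1) (D * (N * h) + N * h) ×ˢ Icc 1 (N * h)).filter fun w => red N w ∈ A

variable {D N h A}

theorem mem_PP {w : ℕ × ℕ} : w ∈ PP D N h A ↔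
    (D * (N * h) < w.1 ∧ w.1 ≤ D * (N * h) + N * h) ∧ (0 < w.2 ∧ w.2 ≤ N * h) ∧ red N w ∈ A := by
  unfold PP
  rw [mem_filter, mem_product, mem_Icc, mem_Icc, and_assoc]
  exact ⟨fun h => ⟨⟨by omega, by omega⟩, ⟨by omega, by omega⟩, h.2.2⟩,
    fun h => ⟨⟨by omega, by omega⟩, ⟨by omega, by omega⟩, h.2.2⟩⟩

theorem modEq_of {x x' : ℕ} (h : (x : ZMod N) = x') : x ≡ x' [MOD N] :=
  (ZMod.natCast_eq_natCast_iff _ _ _).1 h

theorem PP_lower : A.card * h ^ 2 ≤ (PP D N h A).card := by
  have hN : 0 < N := Nat.pos_of_ne_zero (NeZero.ne N)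
  -- representatives
  have hrep : ∀ (u : ℕ) (α : ZMod N), ∃ v : ℕ, u < v ∧ v ≤ u + N ∧ (v : ZMod N) = α := by
    intro u α
    set r := (α - (u : ZMod N) - 1).val with hr
    have h1 : r < N := ZMod.val_lt _
    refine ⟨u + 1 + r, by omega, by omega, ?_⟩
    push_cast
    rw [hr, ZMod.natCast_zmod_val]
    ring
  choose V hV1 hV2 hV3 using hrep
  have h1 : (A ×ˢ (range h ×ˢ range h)).card ≤ (PP D N h A).card := by
    refine Finset.card_le_card_of_injOn (fun s => (V (D * (N * h)) s.1.1 + N * s.2.1,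
      V 0 s.1.2 + N * s.2.2)) (fun s hs => ?_) fun s hs s' hs' heq => ?_
    · rw [mem_coe, mem_product, mem_product, mem_range, mem_range] at hs
      obtain ⟨hA, hi, hj⟩ := hs
      rw [mem_coe, mem_PP]
      have e1 := hV1 (D * (N * h)) s.1.1
      have e2 := hV2 (D * (N * h)) s.1.1
      have e3 := hV1 0 s.1.2
      have e4 := hV2 0 s.1.2
      have e5 : N * s.2.1 + N ≤ N * h := by
        calc N * s.2.1 + N = N * (s.2.1 + 1) := by ring
          _ ≤ N * h := Nat.mul_le_mul_left _ hi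
      have e6 : N * s.2.2 + N ≤ N * h := by
        calc N * s.2.2 + N = N * (s.2.2 + 1) := by ring
          _ ≤ N * h := Nat.mul_le_mul_left _ hj
      refine ⟨⟨by simp only; omega, by simp only; omega⟩, ⟨by simp only; omega, by simp only; omega⟩, ?_⟩
      unfold red
      simp only
      push_cast
      rw [hV3, hV3, ZMod.natCast_self, zero_mul, zero_mul, add_zero, add_zero]
      exact hA
    · rw [Prod.mk.injEq] at heq
      obtain ⟨k1, k2⟩ := heq
      have c1 : s.1.1 = s'.1.1 := by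
        have := congrArg (fun n : ℕ => (n : ZMod N)) k1
        push_cast at this
        rwa [hV3, hV3, ZMod.natCast_self, zero_mul, zero_mul, add_zero, add_zero] at this
      have c2 : s.1.2 = s'.1.2 := by
        have := congrArg (fun n : ℕ => (n : ZMod N)) k2
        push_cast at this
        rwa [hV3, hV3, ZMod.natCast_self, zero_mul, zero_mul, add_zero, add_zero] at this
      rw [c1] at k1
      rw [c2] at k2
      have c3 : s.2.1 = s'.2.1 := Nat.eq_of_mul_eq_mul_left hN (by omega)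
      have c4 : s.2.2 = s'.2.2 := Nat.eq_of_mul_eq_mul_left hN (by omega)
      exact Prod.ext (Prod.ext c1 c2) (Prod.ext c3 c4)
  rw [card_product, card_product, card_range] at h1
  rw [sq]
  exact h1

/-- `x` in a class modulo `N`. -/
theorem card_class {u : ℕ} (S : Finset ℕ) {α : ZMod N}
    (hS : ∀ x ∈ S, u < x ∧ x ≤ u + N * h ∧ (x : ZMod N) = α) : S.card ≤ h + 1 := by
  have hN : 0 < N := Nat.pos_of_ne_zero (NeZero.ne N)
  have h1 := ap_card S (u := u) (l := N * h) hN (fun x hx => ⟨(hS x hx).1, (hS x hx).2.1⟩)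
    fun x hx x' hx' => modEq_of ((hS x hx).2.2.trans (hS x' hx').2.2.symm)
  rwa [Nat.mul_div_cancel_left h hN] at h1

/-- `x` in a class modulo `N` and in a class modulo `r`. -/
theorem card_class2 {u r : ℕ} (hr : 0 < r) (hc : Nat.Coprime N r) (S : Finset ℕ) {α : ZMod N}
    (hS : ∀ x ∈ S, u < x ∧ x ≤ u + N * h ∧ (x : ZMod N) = α)
    (hS2 : ∀ x ∈ S, ∀ x' ∈ S, x ≡ x' [MOD r]) : S.card ≤ h / r + 1 := by
  have hN : 0 < N := Nat.pos_of_ne_zero (NeZero.ne N)
  have h1 := ap_card S (u := u) (l := N * h) (Nat.mul_pos hN hr)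
    (fun x hx => ⟨(hS x hx).1, (hS x hx).2.1⟩)
    fun x hx x' hx' => (Nat.modEq_and_modEq_iff_modEq_mul hc).1
      ⟨modEq_of ((hS x hx).2.2.trans (hS x' hx').2.2.symm), hS2 x hx x' hx'⟩
  rwa [Nat.mul_div_mul_left _ _ hN] at h1

variable {b : ZMod N} {g K c : ℕ}

theorem mem_one {P : ℕ × ℕ → Prop} [DecidablePred P] {z : ZMod N × ZMod N} {w : ℕ × ℕ}
    (hw : w ∈ ((PP D N h A).filter P).filter fun w => red N w = z) :
    (D * (N * h) < w.1 ∧ w.1 ≤ D * (N * h) + N * h ∧ (w.1 : ZMod N) = z.1) ∧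
    (0 < w.2 ∧ w.2 ≤ 0 + N * h ∧ (w.2 : ZMod N) = z.2) ∧ P w := by
  rw [mem_filter, mem_filter, mem_PP] at hw
  obtain ⟨⟨⟨h1, h2, -⟩, h3⟩, h4⟩ := hw
  rw [← h4]
  exact ⟨⟨h1.1, h1.2, rfl⟩, ⟨h2.1, by omega, rfl⟩, h3⟩

/-- The middle range: a general estimate. -/
theorem mid_gen (P : ℕ × ℕ → Prop) [DecidablePred P] {m1 m2 : ℕ}
    (hx : ∀ z y, (((((PP D N h A).filter P).filter fun w => red N w = z).filter
      fun w => w.2 = y).image Prod.fst).card ≤ m1)
    (hy : ∀ z, ((((PP D N h A).filter P).filter fun w => red N w = z).image Prod.snd).card ≤ m2) :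
    ((PP D N h A).filter P).card ≤ m1 * m2 * A.card := by
  refine card_fib _ A (fun w => red N w) (fun w hw => ?_) (fun z _ => ?_) le_rfl
  · rw [mem_filter, mem_PP] at hw
    exact hw.1.2.2
  · refine card_fib _ ((((PP D N h A).filter P).filter fun w => red N w = z).image Prod.snd)
      Prod.snd (fun w hw => mem_image_of_mem _ hw) (fun y _ => ?_) (hy z)
    refine (card_le_of_inj _ (((((PP D N h A).filter P).filter fun w => red N w = z).filter
      fun w => w.2 = y).image Prod.fst) Prod.fst (fun w hw => mem_image_of_mem _ hw)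
      (fun w hw w' hw' he => ?_) (hx z y))
    rw [mem_filter] at hw hw'
    exact Prod.ext he (hw.2.trans hw'.2.symm)

/-- The middle range: condition on `x` for given `y`. -/
theorem mid_x (P : ℕ × ℕ → Prop) [DecidablePred P] {r : ℕ} (hr : 0 < r) (hc : Nat.Coprime N r)
    (hP : ∀ x x' y, P (x, y) → P (x', y) → D * y < x → D * y < x' → x ≡ x' [MOD r]) :
    ((PP D N h A).filter P).card ≤ (h / r + 1) * (h + 1) * A.card := by
  refine mid_gen P (fun z y => ?_) fun z => ?_
  · refine card_class2 (u := D * (N * h)) hr hc _ (α := z.1) (fun x hx => ?_) fun x hx x' hx' => ?_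
    · rw [mem_image] at hx
      obtain ⟨w, hw, rfl⟩ := hx
      rw [mem_filter] at hw
      exact (mem_one hw.1).1
    · rw [mem_image] at hx hx'
      obtain ⟨w, hw, rfl⟩ := hx
      obtain ⟨w', hw', rfl⟩ := hx'
      rw [mem_filter] at hw hw'
      obtain ⟨h1, h2, h3⟩ := mem_one hw.1
      obtain ⟨h1', h2', h3'⟩ := mem_one hw'.1
      have e1 : w = (w.1, y) := Prod.ext rfl hw.2
      have e2 : w' = (w'.1, y) := Prod.ext rfl hw'.2
      rw [e1] at h3
      rw [e2] at h3'
      have e3 : D * y ≤ D * (N * h) := by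
        refine Nat.mul_le_mul_left _ ?_
        rw [← hw.2]
        omega
      exact hP _ _ _ h3 h3' (by omega) (by omega)
  · refine card_class (u := 0) _ (α := z.2) fun y hy => ?_
    rw [mem_image] at hy
    obtain ⟨w, hw, rfl⟩ := hy
    exact (mem_one hw).2.1

/-- The middle range: condition on `y`. -/
theorem mid_y (P : ℕ × ℕ → Prop) [DecidablePred P] {r : ℕ} (hr : 0 < r) (hc : Nat.Coprime N r)
    (hP : ∀ x y, P (x, y) → r ∣ y) :
    ((PP D N h A).filter P).card ≤ (h + 1) * (h / r + 1) * A.card := by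
  refine mid_gen P (fun z y => ?_) fun z => ?_
  · refine card_class (u := D * (N * h)) _ (α := z.1) fun x hx => ?_
    rw [mem_image] at hx
    obtain ⟨w, hw, rfl⟩ := hx
    rw [mem_filter] at hw
    exact (mem_one hw.1).1
  · refine card_class2 (u := 0) hr hc _ (α := z.2) (fun y hy => ?_) fun y hy y' hy' => ?_
    · rw [mem_image] at hy
      obtain ⟨w, hw, rfl⟩ := hy
      exact (mem_one hw).2.1
    · rw [mem_image] at hy hy'
      obtain ⟨w, hw, rfl⟩ := hy
      obtain ⟨w', hw', rfl⟩ := hy'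
      have h1 := hP w.1 w.2 (mem_one hw).2.2
      have h2 := hP w'.1 w'.2 (mem_one hw').2.2
      exact ((Nat.modEq_zero_iff_dvd.2 h1).trans (Nat.modEq_zero_iff_dvd.2 h2).symm)

/-- The middle range: condition on both. -/
theorem mid_xy (P : ℕ × ℕ → Prop) [DecidablePred P] {r : ℕ} (hr : 0 < r) (hc : Nat.Coprime N r)
    (hP : ∀ x y, P (x, y) → r ∣ x ∧ r ∣ y) :
    ((PP D N h A).filter P).card ≤ (h / r + 1) * (h / r + 1) * A.card := by
  refine mid_gen P (fun z y => ?_) fun z => ?_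
  · refine card_class2 (u := D * (N * h)) hr hc _ (α := z.1) (fun x hx => ?_) fun x hx x' hx' => ?_
    · rw [mem_image] at hx
      obtain ⟨w, hw, rfl⟩ := hx
      rw [mem_filter] at hw
      exact (mem_one hw.1).1
    · rw [mem_image] at hx hx'
      obtain ⟨w, hw, rfl⟩ := hx
      obtain ⟨w', hw', rfl⟩ := hx'
      rw [mem_filter] at hw hw'
      have h1 := (hP w.1 w.2 (mem_one hw.1).2.2).1
      have h2 := (hP w'.1 w'.2 (mem_one hw'.1).2.2).1
      exact ((Nat.modEq_zero_iff_dvd.2 h1).trans (Nat.modEq_zero_iff_dvd.2 h2).symm)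
  · refine card_class2 (u := 0) hr hc _ (α := z.2) (fun y hy => ?_) fun y hy y' hy' => ?_
    · rw [mem_image] at hy
      obtain ⟨w, hw, rfl⟩ := hy
      exact (mem_one hw).2.1
    · rw [mem_image] at hy hy'
      obtain ⟨w, hw, rfl⟩ := hy
      obtain ⟨w', hw', rfl⟩ := hy'
      have h1 := (hP w.1 w.2 (mem_one hw).2.2).2
      have h2 := (hP w'.1 w'.2 (mem_one hw').2.2).2
      exact ((Nat.modEq_zero_iff_dvd.2 h1).trans (Nat.modEq_zero_iff_dvd.2 h2).symm)

/-- The middle range: a prime exactly dividing `N`. -/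
theorem mid_g (P : ℕ × ℕ → Prop) [DecidablePred P] {p : ℕ} (hp : p.Prime) (hpN : p ∣ N)
    (hpN2 : ¬ p ^ 2 ∣ N) (hP : ∀ x y, P (x, y) → p ^ 2 ∣ y) :
    ((PP D N h A).filter P).card ≤ (h + 1) * (h / p + 1) * A.card := by
  have hN : 0 < N := Nat.pos_of_ne_zero (NeZero.ne N)
  refine mid_gen P (fun z y => ?_) fun z => ?_
  · refine card_class (u := D * (N * h)) _ (α := z.1) fun x hx => ?_
    rw [mem_image] at hx
    obtain ⟨w, hw, rfl⟩ := hx
    rw [mem_filter] at hw
    exact (mem_one hw.1).1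
  · have h1 := ap_card ((((PP D N h A).filter P).filter fun w => red N w = z).image Prod.snd)
      (u := 0) (l := N * h) (r := N * p) (Nat.mul_pos hN hp.pos) (fun y hy => ?_)
      fun y hy y' hy' => ?_
    · rwa [Nat.mul_div_mul_left _ _ hN] at h1
    · rw [mem_image] at hy
      obtain ⟨w, hw, rfl⟩ := hy
      have := (mem_one hw).2.1
      exact ⟨this.1, this.2.1⟩
    · rw [mem_image] at hy hy'
      obtain ⟨w, hw, rfl⟩ := hy
      obtain ⟨w', hw', rfl⟩ := hy'
      have h1 := hP w.1 w.2 (mem_one hw).2.2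
      have h2 := hP w'.1 w'.2 (mem_one hw').2.2
      have h3 : w.2 ≡ w'.2 [MOD N] := modEq_of ((mem_one hw).2.1.2.2.trans (mem_one hw').2.1.2.2.symm)
      have h4 : w.2 ≡ w'.2 [MOD p ^ 2] :=
        ((Nat.modEq_zero_iff_dvd.2 h1).trans (Nat.modEq_zero_iff_dvd.2 h2).symm)
      -- `N = p N'`
      obtain ⟨N', hN'⟩ := hpN
      have h5 : Nat.Coprime N' (p ^ 2) := by
        refine Nat.Coprime.pow_right 2 ((Nat.Prime.coprime_iff_not_dvd hp).2 fun h => ?_).symm
        apply hpN2
        rw [hN', sq]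
        exact Nat.mul_dvd_mul_left p h
      have h6 : w.2 ≡ w'.2 [MOD N'] := h3.of_dvd (by rw [hN']; exact dvd_mul_left _ _)
      have h7 := (Nat.modEq_and_modEq_iff_modEq_mul h5).1 ⟨h6, h4⟩
      refine h7.of_dvd (dvd_of_eq ?_)
      rw [hN']
      ring

/-- The range of large primes: a general estimate. -/
theorem large_gen (P : ℕ × ℕ → Prop) [DecidablePred P] (φ : ℕ × ℕ → ℕ)
    (ψ : ZMod N × ZMod N → ZMod N) (hφ : ∀ w, D * w.2 < w.1 → ((φ w : ℕ) : ZMod N) = ψ (red N w))
    {C m r l : ℕ} (hr : 0 < r)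
    (hC : ∀ t, (A.filter fun z => ψ z = t).card ≤ C)
    (hl : ∀ w ∈ (PP D N h A).filter P, 0 < φ w ∧ φ w ≤ l ∧ r ∣ φ w)
    (hm : ∀ z t, ((((PP D N h A).filter P).filter fun w => φ w = t).filter
      fun w => red N w = z).card ≤ m) :
    ((PP D N h A).filter P).card ≤ m * C * (l / r) := by
  have hlt : ∀ w ∈ (PP D N h A).filter P, D * w.2 < w.1 := by
    intro w hw
    rw [mem_filter, mem_PP] at hw
    have e3 : D * w.2 ≤ D * (N * h) := Nat.mul_le_mul_left _ hw.1.2.1.2
    omega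
  refine card_fib _ (((PP D N h A).filter P).image φ) φ (fun w hw => mem_image_of_mem _ hw)
    (fun t _ => ?_) (mult_card _ hr fun t ht => ?_)
  · refine card_fib _ (A.filter fun z => ψ z = (t : ZMod N)) (fun w => red N w) (fun w hw => ?_)
      (fun z _ => hm z t) (hC _)
    rw [mem_filter] at hw
    have h1 := hφ w (hlt w hw.1)
    rw [mem_filter, mem_PP] at hw
    rw [mem_filter, ← h1, hw.2]
    exact ⟨hw.1.1.2.2, rfl⟩
  · rw [mem_image] at ht
    obtain ⟨w, hw, rfl⟩ := ht
    exact hl w hw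

end box

end Pool.Agent.V7H64.CG
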