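import Pool.Agent.V7H64.CG.Char
set_option autoImplicit false

/-!
Points of the curves `x y (x ^ 2 - D ^ 2 y ^ 2) = a` over finite fields.
-/

namespace Pool.Agent.V7H64.CG

open Finset Polynomial

set_option linter.unusedSectionVars false

section count

variable {F : Type*} [Field F] [Fintype F] [DecidableEq F]

/-- An element on which a character of order `m` is trivial is an `m`-th power. -/
theorem pow_of_char (χ : MulChar F ℂ) (m : ℕ) (hχ : orderOf χ = m) (z : Fˣ) (hz : χ z = 1) :
    ∃ u : Fˣ, z = u ^ m := by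
  obtain ⟨g, hg⟩ := IsCyclic.exists_generator (α := Fˣ)
  have h1 := hg z
  rw [← mem_powers_iff_mem_zpowers] at h1
  obtain ⟨s, hs⟩ := h1
  simp only at hs
  have h2 : χ ^ s = 1 := by
    rw [MulChar.eq_iff hg, MulChar.pow_apply_coe, MulChar.one_apply_coe, ← map_pow]
    rw [← hz, ← hs]
    push_cast
    rfl
  have h3 : m ∣ s := by
    rw [← hχ]
    exact orderOf_dvd_of_pow_eq_one h2
  obtain ⟨r, rfl⟩ := h3
  refine ⟨g ^ r, ?_⟩
  rw [← hs, ← pow_mul, mul_comm]

theorem pow_app (χ : MulChar F ℂ) (j : ℕ) {x : F} (hx : x ≠ 0) : (χ ^ j) x = χ x ^ j := by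
  have := MulChar.pow_apply_coe χ j (Units.mk0 x hx)
  simpa using this

theorem star_mul_self' {χ : MulChar F ℂ} {x : F} (hx : x ≠ 0) : χ x * star (χ x) = 1 := by
  rw [MulChar.star_apply', MulChar.inv_apply', ← map_mul, mul_inv_cancel₀ hx, map_one]

theorem zeros_le (k d : F) (hk : k = d ^ 2) :
    (univ.filter fun t : F => t * (t ^ 2 - k) = 0).card ≤ 3 := by
  refine (Finset.card_le_card (t := {0, d, -d}) fun t ht => ?_).trans Finset.card_le_three
  rw [Finset.mem_filter] at ht
  rw [Finset.mem_insert, Finset.mem_insert, Finset.mem_singleton]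
  rcases mul_eq_zero.1 ht.2 with h | h
  · exact Or.inl h
  · right
    rw [hk, sub_eq_zero] at h
    exact sq_eq_sq_iff_eq_or_eq_neg.1 h

theorem char_count {χ : MulChar F ℂ} {n : ℕ} (hn : 2 ≤ n) (hχ : orderOf χ = n) {a k d : F}
    (ha : a ≠ 0) (hd : d ≠ 0) (hk : k = d ^ 2) :
    (Fintype.card F : ℝ) - 3 - (n - 1) * (2 * Real.sqrt (Fintype.card F)) ≤
      n * (univ.filter fun t : F => t * (t ^ 2 - k) ≠ 0 ∧ χ (t * (t ^ 2 - k)) = χ a).card := by
  set g : F → F := fun t => t * (t ^ 2 - k) with hg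
  have hk0 : k ≠ 0 := by
    rw [hk]
    exact pow_ne_zero 2 hd
  have hpow : χ ^ n = 1 := by
    rw [← hχ]
    exact pow_orderOf_eq_one χ
  have hone : ∀ x : F, x ≠ 0 → χ x ^ n = 1 := fun x hx => by
    rw [← pow_app χ n hx, hpow]
    exact MulChar.one_apply (isUnit_iff_ne_zero.2 hx)
  -- the sum over the powers
  have h1 : ∀ t : F, ∑ j ∈ range n, (χ ^ j) (g t) * star ((χ ^ j) a) =
      if g t ≠ 0 ∧ χ (g t) = χ a then (n : ℂ) else 0 := by
    intro t
    by_cases h0 : g t = 0
    · rw [if_neg fun h => h.1 h0]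
      refine Finset.sum_eq_zero fun j _ => ?_
      rw [h0, MulChar.map_zero, zero_mul]
    · set z : ℂ := χ (g t) * star (χ a) with hz
      have h2 : ∀ j ∈ range n, (χ ^ j) (g t) * star ((χ ^ j) a) = z ^ j := by
        intro j _
        rw [pow_app χ j h0, pow_app χ j ha, star_pow, ← mul_pow]
      rw [Finset.sum_congr rfl h2]
      have h3 : z ^ n = 1 := by
        rw [hz, mul_pow, ← star_pow, hone _ h0, hone _ ha, star_one, one_mul]
      by_cases h4 : χ (g t) = χ a
      · rw [if_pos ⟨h0, h4⟩]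
        have h5 : z = 1 := by
          rw [hz, h4]
          exact star_mul_self' ha
        simp [h5]
      · rw [if_neg fun h => h4 h.2]
        have h5 : z ≠ 1 := by
          intro h6
          apply h4
          have h7 : χ (g t) * (star (χ a) * χ a) = χ a := by
            rw [← mul_assoc, ← hz, h6, one_mul]
          rw [mul_comm (star (χ a)), star_mul_self' ha, mul_one] at h7
          exact h7
        have h6 := mul_geom_sum z n
        rw [h3, sub_self] at h6
        exact (mul_eq_zero.1 h6).resolve_left (sub_ne_zero.2 h5)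
  have h2 : ((n : ℂ) * (univ.filter fun t : F => g t ≠ 0 ∧ χ (g t) = χ a).card) =
      ∑ j ∈ range n, star ((χ ^ j) a) * ∑ t : F, (χ ^ j) (g t) := by
    have h3 : ∑ t : F, ∑ j ∈ range n, (χ ^ j) (g t) * star ((χ ^ j) a) =
        (n : ℂ) * (univ.filter fun t : F => g t ≠ 0 ∧ χ (g t) = χ a).card := by
      simp only [h1]
      rw [← Finset.sum_filter, Finset.sum_const, nsmul_eq_mul, mul_comm]
    rw [← h3, Finset.sum_comm]
    refine Finset.sum_congr rfl fun j _ => ?_
    rw [Finset.mul_sum]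
    exact Finset.sum_congr rfl fun t _ => mul_comm _ _
  obtain ⟨n', rfl⟩ : ∃ n', n = n' + 1 := ⟨n - 1, by omega⟩
  rw [Finset.sum_range_succ'] at h2
  have h3 : star ((χ ^ 0) a) * ∑ t : F, (χ ^ 0) (g t) =
      ((univ.filter fun t : F => g t ≠ 0).card : ℂ) := by
    rw [pow_zero, MulChar.one_apply (isUnit_iff_ne_zero.2 ha), star_one, one_mul]
    have h4 : ∀ t : F, (1 : MulChar F ℂ) (g t) = if g t ≠ 0 then 1 else 0 := by
      intro t
      by_cases h0 : g t = 0
      · rw [if_neg (not_not.2 h0), h0, MulChar.map_zero]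
      · rw [if_pos h0]
        exact MulChar.one_apply (isUnit_iff_ne_zero.2 h0)
    simp only [h4]
    rw [Finset.sum_boole]
  rw [h3] at h2
  have h5 : ‖∑ j ∈ range n', star ((χ ^ (j + 1)) a) * ∑ t : F, (χ ^ (j + 1)) (g t)‖ ≤
      n' * (2 * Real.sqrt (Fintype.card F)) := by
    refine (norm_sum_le _ _).trans ?_
    have h6 : ∀ j ∈ range n', ‖star ((χ ^ (j + 1)) a) * ∑ t : F, (χ ^ (j + 1)) (g t)‖ ≤
        2 * Real.sqrt (Fintype.card F) := by
      intro j hj
      rw [norm_mul, norm_star, norm_char ha, one_mul]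
      have h7 : χ ^ (j + 1) ≠ 1 := by
        intro h8
        have h9 := Nat.le_of_dvd (by omega) (orderOf_dvd_of_pow_eq_one h8)
        rw [hχ] at h9
        rw [Finset.mem_range] at hj
        omega
      have h8 := Sm_bound h7 hk0
      have h9 : ‖∑ t : F, (χ ^ (j + 1)) (g t)‖ = ‖Sm (χ ^ (j + 1)) k‖ := rfl
      rw [h9, ← Real.sqrt_sq (norm_nonneg _)]
      refine (Real.sqrt_le_sqrt h8).trans ?_
      rw [Real.sqrt_mul (by norm_num), show (4 : ℝ) = 2 ^ 2 by norm_num,
        Real.sqrt_sq (by norm_num)]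
    refine (Finset.sum_le_sum h6).trans ?_
    rw [Finset.sum_const, Finset.card_range, nsmul_eq_mul]
  have h6 : (Fintype.card F : ℝ) - 3 ≤ (univ.filter fun t : F => g t ≠ 0).card := by
    have h7 := zeros_le k d hk
    have h8 := Finset.card_filter_add_card_filter_not (s := (univ : Finset F)) (fun t => g t = 0)
    rw [Finset.card_univ] at h8
    have h9 : (univ.filter fun t : F => ¬ g t = 0) = univ.filter fun t : F => g t ≠ 0 := rfl
    rw [h9] at h8
    have h10 : Fintype.card F ≤ (univ.filter fun t : F => g t ≠ 0).card + 3 := by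
      have : (univ.filter fun t : F => g t = 0).card ≤ 3 := h7
      omega
    have h11 : (Fintype.card F : ℝ) ≤ (univ.filter fun t : F => g t ≠ 0).card + 3 := by
      exact_mod_cast h10
    linarith
  set T := (univ.filter fun t : F => g t ≠ 0 ∧ χ (g t) = χ a).card with hT
  set N0 := (univ.filter fun t : F => g t ≠ 0).card with hN0
  set E := ∑ j ∈ range n', star ((χ ^ (j + 1)) a) * ∑ t : F, (χ ^ (j + 1)) (g t) with hE
  have h7 : ((((n' + 1 : ℕ) : ℝ) * T - N0 : ℝ) : ℂ) = E := by
    push_cast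
    push_cast at h2
    rw [h2]
    ring
  have h8 : |((n' + 1 : ℕ) : ℝ) * T - N0| ≤ n' * (2 * Real.sqrt (Fintype.card F)) := by
    rw [← Real.norm_eq_abs, ← Complex.norm_real, h7]
    exact h5
  have h9 := (abs_le.1 h8).1
  push_cast at h9 ⊢
  linarith

/-- The parameters of the points. -/
theorem count_t (h2 : ringChar F ≠ 2) {a D : F} (ha : a ≠ 0) (hD : D ≠ 0) :
    (Fintype.card F : ℝ) - 3 - 6 * Real.sqrt (Fintype.card F) ≤
      4 * (univ.filter fun t : F => ∃ y, t * (t ^ 2 - D ^ 2) * y ^ 4 = a).card := by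
  have hodd : Fintype.card F % 2 = 1 := FiniteField.odd_card_of_char_ne_two h2
  have hs := Real.sqrt_nonneg (Fintype.card F : ℝ)
  have hpos := Fintype.card_pos (α := F)
  by_cases h4 : Fintype.card F % 4 = 1
  · have hdvd : 4 ∣ Fintype.card F - 1 := by omega
    obtain ⟨χ, hχ⟩ := MulChar.exists_mulChar_orderOf F hdvd
      (Complex.isPrimitiveRoot_exp 4 (by norm_num))
    have h5 := char_count (by norm_num) hχ ha hD rfl
    have h6 : (univ.filter fun t : F => t * (t ^ 2 - D ^ 2) ≠ 0 ∧
        χ (t * (t ^ 2 - D ^ 2)) = χ a).card ≤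
        (univ.filter fun t : F => ∃ y, t * (t ^ 2 - D ^ 2) * y ^ 4 = a).card := by
      refine Finset.card_le_card fun t ht => ?_
      rw [Finset.mem_filter] at ht ⊢
      refine ⟨Finset.mem_univ _, ?_⟩
      obtain ⟨-, h7, h8⟩ := ht
      have h9 : χ (a / (t * (t ^ 2 - D ^ 2))) = 1 := by
        rw [div_eq_mul_inv, map_mul, ← MulChar.inv_apply', ← MulChar.star_apply', h8]
        exact star_mul_self' ha
      obtain ⟨u, hu⟩ := pow_of_char χ 4 hχ (Units.mk0 _ (div_ne_zero ha h7)) h9
      refine ⟨u, ?_⟩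
      have h10 := congrArg (fun u : Fˣ => (u : F)) hu
      simp only [Units.val_mk0, Units.val_pow_eq_pow_val] at h10
      rw [← h10, mul_div_cancel₀ _ h7]
    have h7 : ((univ.filter fun t : F => t * (t ^ 2 - D ^ 2) ≠ 0 ∧
        χ (t * (t ^ 2 - D ^ 2)) = χ a).card : ℝ) ≤
        (univ.filter fun t : F => ∃ y, t * (t ^ 2 - D ^ 2) * y ^ 4 = a).card := by
      exact_mod_cast h6
    push_cast at h5
    linarith
  · have h4' : Fintype.card F % 4 = 3 := by omega
    have hdvd : 2 ∣ Fintype.card F - 1 := by omega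
    obtain ⟨χ, hχ⟩ := MulChar.exists_mulChar_orderOf F hdvd
      (Complex.isPrimitiveRoot_exp 2 (by norm_num))
    have h5 := char_count (by norm_num) hχ ha hD rfl
    have hneg : ¬ IsSquare (-1 : F) := by
      rw [FiniteField.isSquare_neg_one_iff]
      omega
    have h6 : (univ.filter fun t : F => t * (t ^ 2 - D ^ 2) ≠ 0 ∧
        χ (t * (t ^ 2 - D ^ 2)) = χ a).card ≤
        (univ.filter fun t : F => ∃ y, t * (t ^ 2 - D ^ 2) * y ^ 4 = a).card := by
      refine Finset.card_le_card fun t ht => ?_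
      rw [Finset.mem_filter] at ht ⊢
      refine ⟨Finset.mem_univ _, ?_⟩
      obtain ⟨-, h7, h8⟩ := ht
      have h9 : χ (a / (t * (t ^ 2 - D ^ 2))) = 1 := by
        rw [div_eq_mul_inv, map_mul, ← MulChar.inv_apply', ← MulChar.star_apply', h8]
        exact star_mul_self' ha
      obtain ⟨u, hu⟩ := pow_of_char χ 2 hχ (Units.mk0 _ (div_ne_zero ha h7)) h9
      have h10 := congrArg (fun u : Fˣ => (u : F)) hu
      simp only [Units.val_mk0, Units.val_pow_eq_pow_val] at h10
      -- `u` or `-u` is a square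
      have h11 : ∃ y : F, y ^ 4 = (u : F) ^ 2 := by
        by_cases hsq : IsSquare (u : F)
        · obtain ⟨y, hy⟩ := hsq
          exact ⟨y, by rw [hy]; ring⟩
        · have hsq2 : IsSquare (-(u : F)) := by
            have e1 : quadraticChar F (u : F) = -1 :=
              quadraticChar_neg_one_iff_not_isSquare.2 hsq
            have e2 : quadraticChar F (-1 : F) = -1 :=
              quadraticChar_neg_one_iff_not_isSquare.2 hneg
            have e3 : quadraticChar F (-(u : F)) = 1 := by
              rw [neg_eq_neg_one_mul, map_mul, e1, e2]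
              norm_num
            exact (quadraticChar_one_iff_isSquare (neg_ne_zero.2 u.ne_zero)).1 e3
          obtain ⟨y, hy⟩ := hsq2
          refine ⟨y, ?_⟩
          have : (u : F) = -(y * y) := by rw [← hy, neg_neg]
          rw [this]
          ring
      obtain ⟨y, hy⟩ := h11
      exact ⟨y, by rw [hy, ← h10, mul_div_cancel₀ _ h7]⟩
    have h7 : ((univ.filter fun t : F => t * (t ^ 2 - D ^ 2) ≠ 0 ∧
        χ (t * (t ^ 2 - D ^ 2)) = χ a).card : ℝ) ≤
        (univ.filter fun t : F => ∃ y, t * (t ^ 2 - D ^ 2) * y ^ 4 = a).card := by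
      exact_mod_cast h6
    have h8 : (0 : ℝ) ≤ (univ.filter fun t : F => ∃ y, t * (t ^ 2 - D ^ 2) * y ^ 4 = a).card :=
      Nat.cast_nonneg _
    push_cast at h5
    have h9 : (3 : ℝ) ≤ Fintype.card F := by
      have : 3 ≤ Fintype.card F := by omega
      exact_mod_cast this
    nlinarith

theorem roots_le {P : F[X]} (hP : P ≠ 0) {n : ℕ} (hn : P.natDegree ≤ n) :
    (univ.filter fun t : F => P.eval t = 0).card ≤ n := by
  have h1 : (univ.filter fun t : F => P.eval t = 0) ⊆ P.roots.toFinset := by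
    intro t ht
    rw [Finset.mem_filter] at ht
    rw [Multiset.mem_toFinset, mem_roots hP]
    exact ht.2
  exact (Finset.card_le_card h1).trans ((Multiset.toFinset_card_le _).trans
    ((card_roots' P).trans hn))

/-- A cubic equation has at most three solutions. -/
theorem cubic_le {α β γ δ : F} (h : α ≠ 0 ∨ β ≠ 0) :
    (univ.filter fun t : F => α * t ^ 3 + β * t ^ 2 + γ * t + δ = 0).card ≤ 3 := by
  have hP : (C α * X ^ 3 + C β * X ^ 2 + C γ * X + C δ : F[X]) ≠ 0 := by
    intro h0
    rcases h with h | h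
    · apply h
      have := congrArg (fun P => P.coeff 3) h0
      simpa [coeff_X, coeff_C] using this
    · apply h
      have := congrArg (fun P => P.coeff 2) h0
      simpa [coeff_X, coeff_C, coeff_X_pow] using this
  have hn : (C α * X ^ 3 + C β * X ^ 2 + C γ * X + C δ : F[X]).natDegree ≤ 3 := natDegree_cubic_le
  refine le_trans (Finset.card_le_card fun t ht => ?_) (roots_le hP hn)
  rw [Finset.mem_filter] at ht ⊢
  refine ⟨ht.1, ?_⟩
  simpa using ht.2

end count

end Pool.Agent.V7H64.CG
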