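import Pool.Agent.V7H64.CG.Main
set_option autoImplicit false

/-!
Congruent numbers: final forms.
-/

namespace Pool.Agent.V7H64.CG

open Finset Filter

/-- The shape of the numbers which are found. -/
def Shape (s n : ℕ) : Prop :=
  ∃ x y : ℕ, 0 < y ∧ s ^ 2 * y < x ∧ n = x * y * ((x - s ^ 2 * y) * (x + s ^ 2 * y))

theorem cong_rat {s n : ℕ} (hs : 0 < s) (h : Shape s n) :
    ∃ a b c : ℚ, 0 < a ∧ 0 < b ∧ 0 < c ∧ a ^ 2 + b ^ 2 = c ^ 2 ∧ (n : ℚ) = a * b / 2 := by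
  obtain ⟨x, y, hy, hx, hn⟩ := h
  obtain ⟨d, rfl⟩ := Nat.exists_eq_add_of_lt hx
  have h1 : s ^ 2 * y + d + 1 - s ^ 2 * y = d + 1 := by omega
  rw [h1] at hn
  have hs' : (0 : ℚ) < s := by exact_mod_cast hs
  have hy' : (0 : ℚ) < y := by exact_mod_cast hy
  refine ⟨((d : ℚ) + 1) * (2 * s ^ 2 * y + d + 1) / s, 2 * ((s : ℚ) ^ 2 * y + d + 1) * (s * y),
    (((s : ℚ) ^ 2 * y + d + 1) ^ 2 + (s ^ 2 * y) ^ 2) / s, by positivity, by positivity,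
    by positivity, ?_, ?_⟩
  · field_simp
    ring
  · rw [hn]
    push_cast
    field_simp
    ring

theorem cong_nat {s n : ℕ} (hs : 0 < s) (h : Shape s n) :
    ∃ x y z t : ℕ, 0 < x ∧ 0 < y ∧ 0 < z ∧ 0 < t ∧ x ^ 2 + n * y ^ 2 = z ^ 2 ∧
      x ^ 2 = n * y ^ 2 + t ^ 2 := by
  obtain ⟨x, y, hy, hx, hn⟩ := h
  obtain ⟨d, rfl⟩ := Nat.exists_eq_add_of_lt hx
  have h1 : s ^ 2 * y + d + 1 - s ^ 2 * y = d + 1 := by omega
  rw [h1] at hn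
  obtain ⟨A, hA⟩ : ∃ A, A = (d + 1) * (2 * s ^ 2 * y + d + 1) := ⟨_, rfl⟩
  obtain ⟨B, hB⟩ : ∃ B, B = 2 * (s ^ 2 * y + d + 1) * (s ^ 2 * y) := ⟨_, rfl⟩
  obtain ⟨C, hC⟩ : ∃ C, C = (s ^ 2 * y + d + 1) ^ 2 + (s ^ 2 * y) ^ 2 := ⟨_, rfl⟩
  have hA0 : 0 < A := by rw [hA]; positivity
  have hB0 : 0 < B := by rw [hB]; positivity
  have hC0 : 0 < C := by rw [hC]; positivity
  have g1 : A ^ 2 + B ^ 2 = C ^ 2 := by
    rw [hA, hB, hC]
    ring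
  have g2 : 2 * n * s ^ 2 = A * B := by
    rw [hA, hB, hn]
    ring
  have hne : A ≠ B := by
    intro hAB
    rw [hAB] at g1
    have g3 : (2 : ℕ) * B ^ 2 = C ^ 2 := by omega
    have h4 : Irrational (Real.sqrt 2) := irrational_sqrt_two
    apply h4
    refine ⟨(C : ℚ) / B, ?_⟩
    have hB' : (B : ℝ) ≠ 0 := by positivity
    push_cast
    symm
    rw [Real.sqrt_eq_iff_mul_self_eq (by norm_num) (by positivity)]
    have : (2 : ℝ) * (B : ℝ) ^ 2 = (C : ℝ) ^ 2 := by exact_mod_cast g3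
    field_simp
    linarith
  rcases lt_or_gt_of_ne hne with hlt | hlt
  · obtain ⟨r, rfl⟩ := Nat.exists_eq_add_of_lt hlt
    refine ⟨C, 2 * s, 2 * A + r + 1, r + 1, hC0, by positivity, by positivity, by positivity, ?_, ?_⟩
    · nlinarith
    · nlinarith
  · obtain ⟨r, rfl⟩ := Nat.exists_eq_add_of_lt hlt
    refine ⟨C, 2 * s, 2 * B + r + 1, r + 1, hC0, by positivity, by positivity, by positivity, ?_, ?_⟩
    · nlinarith
    · nlinarith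

/-- Many squarefree numbers in all classes modulo `8 q`. -/
theorem many (ε : ℝ) (hε : 0 < ε) : ∃ s : ℕ, 0 < s ∧ ∃ X₀ : ℝ, 1 ≤ X₀ ∧ ∀ X : ℝ, X₀ ≤ X →
    ∀ q a : ℕ, 1 ≤ q → (q : ℝ) ≤ X ^ (1 / 4 - ε) → Squarefree (Nat.gcd a (8 * q)) →
      ∃ S : Finset ℕ, X ^ (1 / 2 - ε) / q ≤ S.card ∧ ∀ n ∈ S, (n : ℝ) ≤ X ∧ Squarefree n ∧
        n ≡ a [MOD 8 * q] ∧ Shape s n := by
  obtain ⟨s, hs, h⟩ := core (ε / 2) (by positivity)
  refine ⟨s, hs, ?_⟩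
  have E1 : ∀ᶠ X : ℝ in atTop, 8 ≤ X ^ (ε / 2) :=
    (tendsto_rpow_atTop (by positivity)).eventually_ge_atTop _
  obtain ⟨X1, hX1⟩ := Filter.eventually_atTop.1 (h.and (E1.and (eventually_ge_atTop (1 : ℝ))))
  refine ⟨max X1 1, le_max_right _ _, fun X hX q a hq hqX ha => ?_⟩
  obtain ⟨h1, h2, h3⟩ := hX1 X ((le_max_left _ _).trans hX)
  have hX0 : 0 < X := by linarith
  obtain ⟨b, hb, hba⟩ := exists_sqf (q := 8 * q) (by omega) ha
  obtain ⟨S, hS1, hS2⟩ := h1 (8 * q) (by omega) (by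
    push_cast
    calc 8 * (q : ℝ) ≤ X ^ (ε / 2) * X ^ (1 / 4 - ε) :=
          mul_le_mul h2 hqX (Nat.cast_nonneg _) (by positivity)
      _ = X ^ (1 / 4 - ε / 2) := by
          rw [← Real.rpow_add hX0]
          congr 1
          ring) b hb
  refine ⟨S, ?_, fun n hn => ?_⟩
  · refine le_trans ?_ hS1
    have hq0 : (0 : ℝ) < q := by exact_mod_cast hq
    push_cast
    rw [div_le_div_iff₀ hq0 (by positivity)]
    have e : X ^ (1 / 2 - ε / 2) = X ^ (1 / 2 - ε) * X ^ (ε / 2) := by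
      rw [← Real.rpow_add hX0]
      congr 1
      ring
    rw [e]
    have h5 := mul_le_mul_of_nonneg_left h2 (by positivity : 0 ≤ X ^ (1 / 2 - ε) * q)
    linarith
  · obtain ⟨m1, m2, m3, m4⟩ := hS2 n hn
    exact ⟨m1, m2, m3.trans hba, m4⟩

/-- The least squarefree number in a class. -/
theorem least (ε : ℝ) (hε : 0 < ε) : ∃ s : ℕ, 0 < s ∧ ∃ C : ℝ, 0 < C ∧
    ∀ q a : ℕ, 1 ≤ q → Squarefree (Nat.gcd a (8 * q)) →
      ∃ n : ℕ, (n : ℝ) ≤ C * (q : ℝ) ^ (4 + ε) ∧ Squarefree n ∧ n ≡ a [MOD 8 * q] ∧ Shape s n := by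
  set η := ε / (4 * (4 + ε)) with hη
  have hη0 : 0 < η := by positivity
  have hη1 : (4 + ε) * (1 / 4 - η) = 1 := by
    rw [hη]
    field_simp
    ring
  have hη2 : 0 < 1 / 4 - η := by
    by_contra hc
    have : (4 + ε) * (1 / 4 - η) ≤ 0 :=
      mul_nonpos_of_nonneg_of_nonpos (by linarith) (not_lt.1 hc)
    linarith
  obtain ⟨s, hs, X₀, hX₀, h⟩ := many η hη0
  refine ⟨s, hs, X₀, by linarith, fun q a hq ha => ?_⟩
  have hq1 : (1 : ℝ) ≤ q := by exact_mod_cast hq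
  have hq0 : (0 : ℝ) < q := by linarith
  have h1 : 1 ≤ (q : ℝ) ^ (4 + ε) := Real.one_le_rpow hq1 (by linarith)
  have h2 : X₀ ≤ X₀ * (q : ℝ) ^ (4 + ε) := le_mul_of_one_le_right (by linarith) h1
  have h3 : (q : ℝ) ≤ (X₀ * (q : ℝ) ^ (4 + ε)) ^ (1 / 4 - η) := by
    rw [Real.mul_rpow (by linarith) (by positivity), ← Real.rpow_mul hq0.le, hη1, Real.rpow_one]
    exact le_mul_of_one_le_left hq0.le (Real.one_le_rpow hX₀ hη2.le)
  obtain ⟨S, hS1, hS2⟩ := h _ h2 q a hq h3 ha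
  have h4 : 0 < (X₀ * (q : ℝ) ^ (4 + ε)) ^ (1 / 2 - η) / q := by
    have : 0 < X₀ := by linarith
    positivity
  have h5 : 0 < S.card := by
    have := lt_of_lt_of_le h4 hS1
    exact_mod_cast this
  obtain ⟨n, hn⟩ := Finset.card_pos.1 h5
  exact ⟨n, hS2 n hn⟩

end Pool.Agent.V7H64.CG
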