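import Pool.Agent.V7H64.CG.Cur
set_option autoImplicit false

/-!
Systems of solutions of `x y (x ^ 2 - D ^ 2 y ^ 2) = b` in finite local rings.
-/

namespace Pool.Agent.V7H64.CG

open Finset

set_option linter.unusedSectionVars false

/-- `x y (x ^ 2 - D ^ 2 y ^ 2)` -/
def G {R : Type*} [CommRing R] (D x y : R) : R := x * y * (x ^ 2 - D ^ 2 * y ^ 2)

/-- A set of solutions of `G D x y = b` with small fibres. -/
structure LS {R : Type*} [CommRing R] [Fintype R] [DecidableEq R] (D b : R) (g K c : ℕ)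
    (A : Finset (R × R)) : Prop where
  eqn : ∀ z ∈ A, G D z.1 z.2 = b
  unit : ∀ z ∈ A, IsUnit z.1
  big : Fintype.card R ≤ K * A.card
  fx : ∀ x, (A.filter fun z => z.1 = x).card ≤ c
  fy : ∀ y, (A.filter fun z => z.2 = y).card ≤ c * g
  gy : ∀ z ∈ A, ∃ t, z.2 = (g : R) * t
  fm : ∀ l, (A.filter fun z => z.1 - D * z.2 = l).card ≤ c
  fp : ∀ l, (A.filter fun z => z.1 + D * z.2 = l).card ≤ c

theorem G_neg {R : Type*} [CommRing R] (D x y : R) : G (-D) x y = G D x y := by
  unfold G
  ring

theorem G_y {R : Type*} [CommRing R] (D x y y' : R) :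
    G D x y - G D x y' = (y - y') * (x * (x ^ 2 - D ^ 2 * (y ^ 2 + y * y' + y' ^ 2))) := by
  unfold G
  ring

theorem G_x {R : Type*} [CommRing R] (D x x' y : R) :
    G D x y - G D x' y = y * (x - x') * (x ^ 2 + x * x' + x' ^ 2 - D ^ 2 * y ^ 2) := by
  unfold G
  ring

theorem G_l {R : Type*} [CommRing R] (D l y y' : R) :
    G D (l + D * y) y - G D (l + D * y') y' =
      (y - y') * (l * (l ^ 2 + 3 * D * l * (y + y') + 2 * D ^ 2 * (y ^ 2 + y * y' + y' ^ 2))) := by
  unfold G
  ring

theorem card_le_of_inj {α β : Type*} [DecidableEq β] (S : Finset α) (T : Finset β) (φ : α → β)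
    {n : ℕ} (h1 : ∀ z ∈ S, φ z ∈ T) (h2 : ∀ z ∈ S, ∀ z' ∈ S, φ z = φ z' → z = z')
    (hT : T.card ≤ n) : S.card ≤ n :=
  (Finset.card_le_card_of_injOn φ h1 fun z hz z' hz' h => h2 z hz z' hz' h).trans hT

theorem filt_neg {R : Type*} [CommRing R] [DecidableEq R] (A : Finset (R × R)) (D l : R) :
    (A.filter fun z => z.1 + D * z.2 = l) = A.filter fun z => z.1 - -D * z.2 = l := by
  refine Finset.filter_congr fun z _ => ?_
  rw [neg_mul, sub_neg_eq_add]

section abs

variable {R F : Type*} [CommRing R] [Fintype R] [DecidableEq R] [Field F] [Fintype F]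
  [DecidableEq F] (π : R →+* F)

/-- the size of the fibres -/
noncomputable def kap : ℕ := (univ.filter fun r : R => π r = 0).card

variable {π} (hπ : Function.Surjective π) (hu : ∀ u : R, π u ≠ 0 → IsUnit u)

include hπ

theorem fib_card (c : F) : (univ.filter fun r : R => π r = c).card = kap π := by
  obtain ⟨r0, hr0⟩ := hπ c
  unfold kap
  refine Finset.card_nbij' (fun r => r - r0) (fun r => r + r0) ?_ ?_ ?_ ?_
  · intro r hr
    rw [Finset.mem_coe, Finset.mem_filter] at hr ⊢
    refine ⟨Finset.mem_univ _, ?_⟩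
    rw [map_sub, hr.2, hr0, sub_self]
  · intro r hr
    rw [Finset.mem_coe, Finset.mem_filter] at hr ⊢
    refine ⟨Finset.mem_univ _, ?_⟩
    rw [map_add, hr.2, hr0, zero_add]
  · intro r _
    simp
  · intro r _
    simp

theorem card_R : Fintype.card R = Fintype.card F * kap π := by
  have h1 := Finset.card_eq_sum_card_fiberwise (s := (univ : Finset R)) (t := (univ : Finset F))
    (f := π) (fun _ _ => Finset.mem_coe.2 (Finset.mem_univ _))
  rw [Finset.card_univ] at h1
  rw [h1, Finset.sum_congr rfl fun c _ => fib_card hπ c, Finset.sum_const, Finset.card_univ,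
    smul_eq_mul]

/-- A version of the lemma of Hensel. -/
theorem hens {f : R → R} {y0 : F} {b : R} (h1 : ∀ y, π y = y0 → π (f y) = π b)
    (h2 : ∀ y y', π y = y0 → π y' = y0 → f y = f y' → y = y') : ∃ y, π y = y0 ∧ f y = b := by
  classical
  set S := univ.filter fun r : R => π r = y0 with hS
  set T := univ.filter fun r : R => π r = π b with hT
  have h3 : S.image f ⊆ T := by
    intro r hr
    rw [Finset.mem_image] at hr
    obtain ⟨y, hy, rfl⟩ := hr
    rw [hS, Finset.mem_filter] at hy
    rw [hT, Finset.mem_filter]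
    exact ⟨Finset.mem_univ _, h1 y hy.2⟩
  have h4 : (S.image f).card = S.card := by
    refine Finset.card_image_of_injOn fun y hy y' hy' h => ?_
    rw [Finset.mem_coe, hS, Finset.mem_filter] at hy hy'
    exact h2 y y' hy.2 hy'.2 h
  have h5 : S.image f = T := by
    refine Finset.eq_of_subset_of_card_le h3 ?_
    rw [h4, hS, hT, fib_card hπ, fib_card hπ]
  have h6 : b ∈ S.image f := by
    rw [h5, hT, Finset.mem_filter]
    exact ⟨Finset.mem_univ _, rfl⟩
  rw [Finset.mem_image] at h6
  obtain ⟨y, hy, h7⟩ := h6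
  rw [hS, Finset.mem_filter] at hy
  exact ⟨y, hy.2, h7⟩

include hu

theorem unit_cancel {u v w : R} (hv : π u ≠ 0) (h0 : (v - w) * u = 0) :
    v = w := by
  have h1 := (hu u hv).mul_left_eq_zero.1 h0
  exact sub_eq_zero.1 h1

/-- First type: `D` in the maximal ideal. -/
theorem ls_small {D b : R} (hD : π D = 0) {C : ℕ}
    (h3 : ∀ r : R, π r = 0 → ∃ s, π (3 : R) ≠ 0 ∨ r = 3 * s)
    (hC : (univ.filter fun t : R => 3 * b * t = 0).card ≤ C) (hC1 : 1 ≤ C) :
    ∃ A : Finset (R × R), LS D b 1 (Fintype.card F) C A := by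
  classical
  set A : Finset (R × R) := univ.filter fun z => π z.1 = 1 ∧ G D z.1 z.2 = b with hA
  have memA : ∀ z, z ∈ A ↔ π z.1 = 1 ∧ G D z.1 z.2 = b := fun z => by
    rw [hA, Finset.mem_filter]
    exact ⟨fun h => h.2, fun h => ⟨Finset.mem_univ _, h⟩⟩
  have injy : ∀ x y y' : R, π x = 1 → G D x y = G D x y' → y = y' := by
    intro x y y' hx h
    refine unit_cancel hπ hu (u := x * (x ^ 2 - D ^ 2 * (y ^ 2 + y * y' + y' ^ 2))) ?_ ?_
    · simp [hx, hD]
    · rw [← G_y, h, sub_self]
  have injl : ∀ D' : R, π D' = 0 → ∀ l y y' : R, π l = 1 →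
      G D' (l + D' * y) y = G D' (l + D' * y') y' → y = y' := by
    intro D' hD' l y y' hl h
    refine unit_cancel hπ hu (u := l * (l ^ 2 + 3 * D' * l * (y + y') +
      2 * D' ^ 2 * (y ^ 2 + y * y' + y' ^ 2))) ?_ ?_
    · simp [hl, hD']
    · rw [← G_l, h, sub_self]
  have fl : ∀ D' : R, π D' = 0 → (∀ x y, G D' x y = G D x y) → ∀ l,
      (A.filter fun z => z.1 - D' * z.2 = l).card ≤ 1 := by
    intro D' hD' hG l
    rw [Finset.card_le_one]
    intro z hz z' hz'
    rw [Finset.mem_filter, memA] at hz hz'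
    obtain ⟨⟨h1, h2⟩, h4⟩ := hz
    obtain ⟨⟨h1', h2'⟩, h4'⟩ := hz'
    have e1 : z.1 = l + D' * z.2 := by rw [← h4]; ring
    have e2 : z'.1 = l + D' * z'.2 := by rw [← h4']; ring
    have e3 : π l = 1 := by
      rw [← h4, map_sub, map_mul, hD', h1]
      ring
    have e4 : z.2 = z'.2 := by
      apply injl D' hD' l _ _ e3
      rw [← e1, ← e2, hG, hG, h2, h2']
    exact Prod.ext (by rw [e1, e2, e4]) e4
  refine ⟨A, ?_, ?_, ?_, ?_, ?_, ?_, ?_, ?_⟩
  · exact fun z hz => ((memA z).1 hz).2
  · intro z hz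
    refine hu _ ?_
    rw [((memA z).1 hz).1]
    exact one_ne_zero
  · rw [card_R hπ]
    refine Nat.mul_le_mul_left _ ?_
    rw [← fib_card hπ 1]
    have hex : ∀ x : R, π x = 1 → ∃ y, G D x y = b := by
      intro x hx
      have hinj : Function.Injective fun y => G D x y := fun y y' h => injy x y y' hx h
      exact (Finite.injective_iff_surjective.1 hinj) b
    choose! Y hY using hex
    refine Finset.card_le_card_of_injOn (fun x => (x, Y x)) (fun x hx => ?_) fun x _ x' _ h => ?_
    · rw [Finset.mem_coe, Finset.mem_filter] at hx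
      rw [Finset.mem_coe, memA]
      exact ⟨hx.2, hY x hx.2⟩
    · exact (Prod.ext_iff.1 h).1
  · intro x
    refine le_trans ?_ hC1
    rw [Finset.card_le_one]
    intro z hz z' hz'
    rw [Finset.mem_filter, memA] at hz hz'
    obtain ⟨⟨h1, h2⟩, h4⟩ := hz
    obtain ⟨⟨h1', h2'⟩, h4'⟩ := hz'
    refine Prod.ext (h4.trans h4'.symm) (injy z.1 _ _ h1 ?_)
    rw [h2, h4, ← h4', h2']
  · intro y
    rw [mul_one]
    rcases Finset.eq_empty_or_nonempty (A.filter fun z => z.2 = y) with h | ⟨z0, h0⟩
    · rw [h]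
      simp
    · rw [Finset.mem_filter, memA] at h0
      obtain ⟨⟨h1, h2⟩, h4⟩ := h0
      refine card_le_of_inj _ (univ.filter fun t : R => 3 * b * t = 0) (fun z => z.1 - z0.1)
        (fun z hz => ?_) (fun z hz z' hz' h => ?_) hC
      · rw [Finset.mem_filter, memA] at hz
        obtain ⟨⟨h1', h2'⟩, h4'⟩ := hz
        rw [Finset.mem_filter]
        refine ⟨Finset.mem_univ _, ?_⟩
        -- the other factor is `3` times a unit
        have h5 : y * (z.1 - z0.1) * (z.1 ^ 2 + z.1 * z0.1 + z0.1 ^ 2 - D ^ 2 * y ^ 2) = 0 := by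
          rw [← G_x, ← h4', h2', h4', ← h4, h2, sub_self]
        have h6 : ∃ v : R, IsUnit v ∧
            z.1 ^ 2 + z.1 * z0.1 + z0.1 ^ 2 - D ^ 2 * y ^ 2 = 3 * v := by
          by_cases h33 : π (3 : R) = 0
          · obtain ⟨s, hs⟩ := h3 (z.1 - z0.1) (by rw [map_sub, h1', h1, sub_self])
            obtain ⟨s', hs'⟩ := h3 D hD
            have hs1 : z.1 - z0.1 = 3 * s := hs.resolve_left (not_not.2 h33)
            have hs2 : D = 3 * s' := hs'.resolve_left (not_not.2 h33)
            refine ⟨z0.1 ^ 2 + 3 * z0.1 * s + 3 * s ^ 2 - 3 * s' ^ 2 * y ^ 2, hu _ ?_, ?_⟩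
            · simp [map_sub, map_add, map_mul, map_pow, h33, h1]
            · have e1 : z.1 = z0.1 + 3 * s := by rw [← hs1]; ring
              rw [e1, hs2]
              ring
          · obtain ⟨i, hi⟩ := hu 3 h33
            refine ⟨(i⁻¹ : Rˣ) * (z.1 ^ 2 + z.1 * z0.1 + z0.1 ^ 2 - D ^ 2 * y ^ 2),
              (Units.isUnit _).mul (hu _ ?_), ?_⟩
            · have : π (3 : R) = 3 := map_ofNat π 3
              rw [this] at h33
              simp only [map_sub, map_add, map_mul, map_pow, h1, h1', hD]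
              intro h34
              apply h33
              linear_combination h34
            · rw [← hi, ← mul_assoc, Units.mul_inv, one_mul]
        obtain ⟨v, hv, h7⟩ := h6
        rw [h7] at h5
        -- `b` is `y` times a unit
        have h8 : b = y * (z0.1 * (z0.1 ^ 2 - D ^ 2 * y ^ 2)) := by
          rw [← h2, ← h4]
          unfold G
          ring
        have h9 : (3 * y * (z.1 - z0.1)) * v = 0 := by
          linear_combination h5
        have h10 := hv.mul_left_eq_zero.1 h9
        rw [h8]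
        linear_combination (z0.1 * (z0.1 ^ 2 - D ^ 2 * y ^ 2)) * h10
      · rw [Finset.mem_filter] at hz hz'
        have h5 : z.1 = z'.1 := by
          have : z.1 - z0.1 = z'.1 - z0.1 := h
          linear_combination this
        exact Prod.ext h5 (hz.2.trans hz'.2.symm)
  · intro z _
    exact ⟨z.2, by simp⟩
  · exact fun l => (fl D hD (fun _ _ => rfl) l).trans hC1
  · intro l
    have h1 := fl (-D) (by rw [map_neg, hD, neg_zero]) (fun x y => G_neg D x y) l
    rw [filt_neg]
    exact h1.trans hC1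

/-- Second type: `b` in the maximal ideal. -/
theorem ls_div {D b : R} (h3 : (3 : F) ≠ 0) (hb : π b = 0) (g : ℕ)
    (hg : ∀ r : R, π r = 0 → ∃ t, r = (g : R) * t)
    (hann : (univ.filter fun t : R => b * t = 0).card ≤ g)
    (hker : (∀ t : R, b * t = 0 → π t = 0) ∨ Fintype.card R ≤ g) (hg1 : 1 ≤ g) :
    ∃ A : Finset (R × R), LS D b g 2 3 A := by
  classical
  set A : Finset (R × R) := univ.filter fun z => π z.1 ≠ 0 ∧ π z.2 = 0 ∧ G D z.1 z.2 = b with hA
  have memA : ∀ z, z ∈ A ↔ π z.1 ≠ 0 ∧ π z.2 = 0 ∧ G D z.1 z.2 = b := fun z => by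
    rw [hA, Finset.mem_filter]
    exact ⟨fun h => h.2, fun h => ⟨Finset.mem_univ _, h⟩⟩
  have injy : ∀ x y y' : R, π x ≠ 0 → π y = 0 → π y' = 0 → G D x y = G D x y' → y = y' := by
    intro x y y' hx hy hy' h
    refine unit_cancel hπ hu (u := x * (x ^ 2 - D ^ 2 * (y ^ 2 + y * y' + y' ^ 2))) ?_ ?_
    · simp [hx, hy, hy']
    · rw [← G_y, h, sub_self]
  have fl : ∀ D' : R, (∀ x y, G D' x y = G D x y) → ∀ l,
      (A.filter fun z => z.1 - D' * z.2 = l).card ≤ 3 := by
    intro D' hG l
    refine le_trans ?_ (by norm_num : 1 ≤ 3)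
    rw [Finset.card_le_one]
    intro z hz z' hz'
    rw [Finset.mem_filter, memA] at hz hz'
    obtain ⟨⟨h1, h2, h5⟩, h4⟩ := hz
    obtain ⟨⟨h1', h2', h5'⟩, h4'⟩ := hz'
    have e1 : z.1 = l + D' * z.2 := by rw [← h4]; ring
    have e2 : z'.1 = l + D' * z'.2 := by rw [← h4']; ring
    have e3 : π l ≠ 0 := by
      rw [← h4, map_sub, map_mul, h2, mul_zero, sub_zero]
      exact h1
    have e4 : z.2 = z'.2 := by
      refine unit_cancel hπ hu (u := l * (l ^ 2 + 3 * D' * l * (z.2 + z'.2) +
        2 * D' ^ 2 * (z.2 ^ 2 + z.2 * z'.2 + z'.2 ^ 2))) ?_ ?_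
      · simp [h2, h2', e3]
      · rw [← G_l, ← e1, ← e2, hG, hG, h5, h5', sub_self]
    exact Prod.ext (by rw [e1, e2, e4]) e4
  refine ⟨A, ?_, ?_, ?_, ?_, ?_, ?_, ?_, ?_⟩
  · exact fun z hz => ((memA z).1 hz).2.2
  · exact fun z hz => hu _ ((memA z).1 hz).1
  · have hex : ∀ x : R, π x ≠ 0 → ∃ y, π y = 0 ∧ G D x y = b := by
      intro x hx
      refine hens hπ (f := fun y => G D x y) (fun y hy => ?_) fun y y' hy hy' h =>
        injy x y y' hx hy hy' h
      rw [hb]
      unfold G
      rw [map_mul, map_mul, hy, mul_zero, zero_mul]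
    choose! Y hY using hex
    have h4 : (univ.filter fun x : R => π x ≠ 0).card ≤ A.card := by
      refine Finset.card_le_card_of_injOn (fun x => (x, Y x)) (fun x hx => ?_) fun x _ x' _ h => ?_
      · rw [Finset.mem_coe, Finset.mem_filter] at hx
        rw [Finset.mem_coe, memA]
        exact ⟨hx.2, hY x hx.2⟩
      · exact (Prod.ext_iff.1 h).1
    have h5 := Finset.card_filter_add_card_filter_not (s := (univ : Finset R)) (fun x => π x = 0)
    rw [Finset.card_univ] at h5
    have h6 : (univ.filter fun x : R => π x = 0).card = kap π := rfl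
    have h7 : 2 ≤ Fintype.card F := Fintype.one_lt_card
    have h8 := card_R hπ
    have h9 : (univ.filter fun x : R => ¬ π x = 0).card = (univ.filter fun x : R => π x ≠ 0).card :=
      rfl
    have h10 : 2 * kap π ≤ Fintype.card R := by
      rw [h8]
      exact Nat.mul_le_mul_right _ h7
    omega
  · intro x
    refine le_trans ?_ (by norm_num : 1 ≤ 3)
    rw [Finset.card_le_one]
    intro z hz z' hz'
    rw [Finset.mem_filter, memA] at hz hz'
    obtain ⟨⟨h1, h2, h5⟩, h4⟩ := hz
    obtain ⟨⟨h1', h2', h5'⟩, h4'⟩ := hz'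
    refine Prod.ext (h4.trans h4'.symm) (injy z.1 _ _ h1 h2 h2' ?_)
    rw [h5, h4, ← h4', h5']
  · intro y
    -- the solutions with given `y`
    rcases hker with hker | hker
    swap
    · refine (card_le_of_inj _ (univ : Finset R) (fun z => z.1) (fun _ _ => Finset.mem_univ _)
        (fun z hz z' hz' h => ?_) (n := g) (by rw [Finset.card_univ]; exact hker)).trans (by omega)
      rw [Finset.mem_filter] at hz hz'
      exact Prod.ext h (hz.2.trans hz'.2.symm)
    · rcases Finset.eq_empty_or_nonempty (A.filter fun z => z.2 = y) with h | ⟨z0, h0⟩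
      · rw [h]
        simp
      · rw [Finset.mem_filter, memA] at h0
        obtain ⟨⟨h1, h2, h5⟩, h4⟩ := h0
        have hby : b = y * (z0.1 * (z0.1 ^ 2 - D ^ 2 * y ^ 2)) := by
          rw [← h5, ← h4]
          unfold G
          ring
        have hbt : ∀ t : R, y * t = 0 → b * t = 0 := by
          intro t ht
          rw [hby]
          linear_combination (z0.1 * (z0.1 ^ 2 - D ^ 2 * y ^ 2)) * ht
        have hy0 : π y = 0 := by rw [← h4]; exact h2
        -- the residues
        have h6 : ((A.filter fun z => z.2 = y).image fun z => π z.1).card ≤ 3 := by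
          refine le_trans (Finset.card_le_card (t := univ.filter fun c : F =>
            1 * c ^ 3 + 0 * c ^ 2 + 0 * c + (-(π z0.1) ^ 3) = 0) fun c hc => ?_)
            (cubic_le (Or.inl one_ne_zero))
          rw [Finset.mem_image] at hc
          obtain ⟨z, hz, rfl⟩ := hc
          rw [Finset.mem_filter, memA] at hz
          obtain ⟨⟨h1', h2', h5'⟩, h4'⟩ := hz
          rw [Finset.mem_filter]
          refine ⟨Finset.mem_univ _, ?_⟩
          have h7 : y * ((z.1 - z0.1) * (z.1 ^ 2 + z.1 * z0.1 + z0.1 ^ 2 - D ^ 2 * y ^ 2)) = 0 := by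
            rw [← mul_assoc, ← G_x, ← h4', h5', h4', ← h4, h5, sub_self]
          have h8 := hker _ (hbt _ h7)
          simp only [map_sub, map_add, map_mul, map_pow, hy0] at h8
          linear_combination h8
        have h7 : ∀ c ∈ (A.filter fun z => z.2 = y).image fun z => π z.1,
            ((A.filter fun z => z.2 = y).filter fun z => π z.1 = c).card ≤ g := by
          intro c hc
          rw [Finset.mem_image] at hc
          obtain ⟨z1, hz1, hc1⟩ := hc
          rw [Finset.mem_filter, memA] at hz1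
          obtain ⟨⟨k1, k2, k5⟩, k4⟩ := hz1
          refine card_le_of_inj _ (univ.filter fun t : R => b * t = 0) (fun z => z.1 - z1.1)
            (fun z hz => ?_) (fun z hz z' hz' h => ?_) hann
          · rw [Finset.mem_filter, Finset.mem_filter, memA] at hz
            obtain ⟨⟨⟨h1', h2', h5'⟩, h4'⟩, h6'⟩ := hz
            rw [Finset.mem_filter]
            refine ⟨Finset.mem_univ _, hbt _ ?_⟩
            have h9 : y * (z.1 - z1.1) *
                (z.1 ^ 2 + z.1 * z1.1 + z1.1 ^ 2 - D ^ 2 * y ^ 2) = 0 := by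
              rw [← G_x, ← h4', h5', h4', ← k4, k5, sub_self]
            refine (hu _ ?_).mul_left_eq_zero.1 h9
            have e1 : π z.1 = π z1.1 := h6'.trans hc1.symm
            simp only [map_sub, map_add, map_mul, map_pow, hy0, e1]
            have e2 : π z1.1 ^ 2 + π z1.1 * π z1.1 + π z1.1 ^ 2 - π D ^ 2 * 0 ^ 2 =
              3 * π z1.1 ^ 2 := by ring
            rw [e2]
            exact mul_ne_zero h3 (pow_ne_zero 2 k1)
          · rw [Finset.mem_filter, Finset.mem_filter] at hz hz'
            have h5 : z.1 = z'.1 := by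
              have : z.1 - z1.1 = z'.1 - z1.1 := h
              linear_combination this
            exact Prod.ext h5 (hz.1.2.trans hz'.1.2.symm)
        rw [Finset.card_eq_sum_card_fiberwise (f := fun z => π z.1)
          (t := (A.filter fun z => z.2 = y).image fun z => π z.1)
          (fun z hz => Finset.mem_coe.2 (Finset.mem_image_of_mem _ hz))]
        refine (Finset.sum_le_card_nsmul _ _ g h7).trans ?_
        rw [smul_eq_mul]
        exact Nat.mul_le_mul_right _ h6
  · exact fun z hz => hg _ ((memA z).1 hz).2.1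
  · exact fun l => fl D (fun _ _ => rfl) l
  · intro l
    have h1 := fl (-D) (fun x y => G_neg D x y) l
    rw [filt_neg]
    exact h1

/-- Third type: `b` and `D` units. -/
theorem ls_unit {D b : R} (h2 : ringChar F ≠ 2) (hcard : 300 ≤ Fintype.card F) (hD : π D ≠ 0)
    (hb : π b ≠ 0) : ∃ A : Finset (R × R), LS D b 1 8 3 A := by
  classical
  have h2' : (2 : F) ≠ 0 := Ring.two_ne_zero h2
  set d := π D with hd
  set β := π b with hβ
  set B : Finset (F × F) := univ.filter fun w => G d w.1 w.2 = β ∧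
    w.1 ^ 2 - 3 * d ^ 2 * w.2 ^ 2 ≠ 0 ∧ 3 * w.1 ^ 2 - d ^ 2 * w.2 ^ 2 ≠ 0 ∧
    w.1 ^ 2 + 4 * d * w.1 * w.2 + d ^ 2 * w.2 ^ 2 ≠ 0 ∧
    w.1 ^ 2 - 4 * d * w.1 * w.2 + d ^ 2 * w.2 ^ 2 ≠ 0 with hB
  have memB : ∀ w, w ∈ B ↔ G d w.1 w.2 = β ∧
    w.1 ^ 2 - 3 * d ^ 2 * w.2 ^ 2 ≠ 0 ∧ 3 * w.1 ^ 2 - d ^ 2 * w.2 ^ 2 ≠ 0 ∧
    w.1 ^ 2 + 4 * d * w.1 * w.2 + d ^ 2 * w.2 ^ 2 ≠ 0 ∧
    w.1 ^ 2 - 4 * d * w.1 * w.2 + d ^ 2 * w.2 ^ 2 ≠ 0 := fun w => by
    rw [hB, Finset.mem_filter]
    exact ⟨fun h => h.2, fun h => ⟨Finset.mem_univ _, h⟩⟩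
  have nz : ∀ x y : F, G d x y = β → x ≠ 0 ∧ y ≠ 0 ∧ x - d * y ≠ 0 ∧ x + d * y ≠ 0 := by
    intro x y h
    have h1 : x * y * ((x - d * y) * (x + d * y)) = β := by
      rw [← h]
      unfold G
      ring
    rw [← h1] at hb
    have h3 := left_ne_zero_of_mul hb
    have h4 := right_ne_zero_of_mul hb
    exact ⟨left_ne_zero_of_mul h3, right_ne_zero_of_mul h3, left_ne_zero_of_mul h4,
      right_ne_zero_of_mul h4⟩
  -- many elements
  have hBcard : Fintype.card F ≤ 8 * B.card := by
    have h3 := count_t h2 hb hD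
    set T := univ.filter fun t : F => ∃ y, t * (t ^ 2 - d ^ 2) * y ^ 4 = β with hT
    have quad : ∀ α' β' γ' : F, α' ≠ 0 →
        (univ.filter fun t : F => α' * t ^ 2 + β' * t + γ' = 0).card ≤ 2 := by
      intro α' β' γ' h
      have hP : (Polynomial.C α' * Polynomial.X ^ 2 + Polynomial.C β' * Polynomial.X +
          Polynomial.C γ' : Polynomial F) ≠ 0 := by
        intro h0
        apply h
        have := congrArg (fun P => P.coeff 2) h0
        simpa [Polynomial.coeff_X, Polynomial.coeff_C] using this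
      refine le_trans (Finset.card_le_card fun t ht => ?_) (roots_le hP
        Polynomial.natDegree_quadratic_le)
      rw [Finset.mem_filter] at ht ⊢
      refine ⟨ht.1, ?_⟩
      simpa using ht.2
    set Q3 : Finset F := univ.filter fun t : F => 3 * t ^ 2 = d ^ 2 with hQ3
    have hQ3c : Q3.card ≤ 2 := by
      rcases Finset.eq_empty_or_nonempty Q3 with h | ⟨t0, h⟩
      · rw [h]
        simp
      · rw [hQ3, Finset.mem_filter] at h
        have h33 : (3 : F) ≠ 0 := by
          intro h0
          rw [h0, zero_mul] at h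
          exact pow_ne_zero 2 hD h.2.symm
        refine le_trans (Finset.card_le_card fun t ht => ?_) (quad 3 0 (-d ^ 2) h33)
        rw [hQ3, Finset.mem_filter] at ht
        rw [Finset.mem_filter]
        refine ⟨ht.1, ?_⟩
        linear_combination ht.2
    set Q' : Finset F := ((univ.filter fun t : F => 1 * t ^ 2 + 0 * t + (-(3 * d ^ 2)) = 0) ∪ Q3) ∪
      ((univ.filter fun t : F => 1 * t ^ 2 + (4 * d) * t + d ^ 2 = 0) ∪
      (univ.filter fun t : F => 1 * t ^ 2 + (-(4 * d)) * t + d ^ 2 = 0)) with hQ'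
    have hQ'c : Q'.card ≤ 8 := by
      refine (Finset.card_union_le _ _).trans ?_
      have e1 := (Finset.card_union_le (univ.filter fun t : F => 1 * t ^ 2 + 0 * t + (-(3 * d ^ 2)) = 0) Q3)
      have e2 := (Finset.card_union_le (univ.filter fun t : F => 1 * t ^ 2 + (4 * d) * t + d ^ 2 = 0)
        (univ.filter fun t : F => 1 * t ^ 2 + (-(4 * d)) * t + d ^ 2 = 0))
      have e3 := quad 1 0 (-(3 * d ^ 2)) one_ne_zero
      have e4 := quad 1 (4 * d) (d ^ 2) one_ne_zero
      have e5 := quad 1 (-(4 * d)) (d ^ 2) one_ne_zero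
      omega
    have h4 : (T \ Q').card ≤ B.card := by
      have hex : ∀ t ∈ T \ Q', ∃ y, t * (t ^ 2 - d ^ 2) * y ^ 4 = β := by
        intro t ht
        rw [Finset.mem_sdiff, hT, Finset.mem_filter] at ht
        exact ht.1.2
      choose! Y hY using hex
      have hY0 : ∀ t ∈ T \ Q', Y t ≠ 0 := by
        intro t ht h0
        have := hY t ht
        rw [h0] at this
        apply hb
        rw [← this]
        ring
      refine Finset.card_le_card_of_injOn (fun t => (t * Y t, Y t)) (fun t ht => ?_)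
        fun t ht t' ht' h => ?_
      · rw [Finset.mem_coe] at ht
        rw [Finset.mem_coe, memB]
        have hy0 := hY0 t ht
        have hy := hY t ht
        rw [Finset.mem_sdiff, hQ', Finset.mem_union, Finset.mem_union, Finset.mem_union] at ht
        have hnot := ht.2
        push Not at hnot
        obtain ⟨⟨n1, n2⟩, n3, n4⟩ := hnot
        rw [Finset.mem_filter] at n1 n3 n4
        rw [hQ3, Finset.mem_filter] at n2
        refine ⟨?_, fun h => n1 ⟨Finset.mem_univ _, ?_⟩, fun h => n2 ⟨Finset.mem_univ _, ?_⟩,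
          fun h => n3 ⟨Finset.mem_univ _, ?_⟩, fun h => n4 ⟨Finset.mem_univ _, ?_⟩⟩
        · rw [← hy]
          unfold G
          ring
        · simp only at h
          refine (mul_eq_zero.1 (?_ : Y t ^ 2 * _ = 0)).resolve_left (pow_ne_zero 2 hy0)
          linear_combination h
        · simp only at h
          refine mul_left_cancel₀ (pow_ne_zero 2 hy0) ?_
          linear_combination h
        · simp only at h
          refine (mul_eq_zero.1 (?_ : Y t ^ 2 * _ = 0)).resolve_left (pow_ne_zero 2 hy0)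
          linear_combination h
        · simp only at h
          refine (mul_eq_zero.1 (?_ : Y t ^ 2 * _ = 0)).resolve_left (pow_ne_zero 2 hy0)
          linear_combination h
      · have h5 := Prod.ext_iff.1 h
        simp only at h5
        have h6 := hY0 t ht
        rw [← h5.2] at h5
        exact mul_right_cancel₀ h6 h5.1
    have h5 : T.card ≤ B.card + 8 := by
      have e1 := Finset.le_card_sdiff Q' T
      omega
    have h6 : (T.card : ℝ) ≤ B.card + 8 := by exact_mod_cast h5
    set s := Real.sqrt (Fintype.card F) with hs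
    have h7 : s ^ 2 = Fintype.card F := Real.sq_sqrt (Nat.cast_nonneg _)
    have h8 : (17 : ℝ) ≤ s := by
      rw [hs]
      refine Real.le_sqrt_of_sq_le ?_
      have : (300 : ℝ) ≤ Fintype.card F := by exact_mod_cast hcard
      linarith
    have h9 : (Fintype.card F : ℝ) ≤ 8 * B.card := by
      nlinarith
    exact_mod_cast h9
  set A : Finset (R × R) := univ.filter fun z => (π z.1, π z.2) ∈ B ∧ G D z.1 z.2 = b with hA
  have memA : ∀ z, z ∈ A ↔ (π z.1, π z.2) ∈ B ∧ G D z.1 z.2 = b := fun z => by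
    rw [hA, Finset.mem_filter]
    exact ⟨fun h => h.2, fun h => ⟨Finset.mem_univ _, h⟩⟩
  have injy : ∀ x y y' : R, π x ≠ 0 → π x ^ 2 - 3 * d ^ 2 * π y ^ 2 ≠ 0 → π y = π y' →
      G D x y = G D x y' → y = y' := by
    intro x y y' hx hy hyy h
    refine unit_cancel hπ hu (u := x * (x ^ 2 - D ^ 2 * (y ^ 2 + y * y' + y' ^ 2))) ?_ ?_
    · simp only [map_mul, map_sub, map_add, map_pow, ← hyy]
      refine mul_ne_zero hx ?_
      have e1 : π x ^ 2 - π D ^ 2 * (π y ^ 2 + π y * π y + π y ^ 2) =
        π x ^ 2 - 3 * d ^ 2 * π y ^ 2 := by ring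
      rw [e1]
      exact hy
    · rw [← G_y, h, sub_self]
  have fl : ∀ D' : R, (∀ x y, G D' x y = G D x y) → π D' ^ 2 = d ^ 2 →
      (∀ w ∈ B, w.1 ^ 2 + 4 * π D' * w.1 * w.2 + π D' ^ 2 * w.2 ^ 2 ≠ 0) →
      (∀ w ∈ B, w.1 - π D' * w.2 ≠ 0) → ∀ l,
      (A.filter fun z => z.1 - D' * z.2 = l).card ≤ 3 := by
    intro D' hG hD2 hq hlin l
    rcases Finset.eq_empty_or_nonempty (A.filter fun z => z.1 - D' * z.2 = l) with h | ⟨z0, h0⟩
    · rw [h]
      simp
    · rw [Finset.mem_filter, memA] at h0
      have hl : π l ≠ 0 := by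
        rw [← h0.2, map_sub, map_mul]
        exact hlin _ h0.1.1
      have hα : 2 * π D' ^ 2 * π l ≠ 0 := by
        rw [hD2]
        exact mul_ne_zero (mul_ne_zero h2' (pow_ne_zero 2 hD)) hl
      refine card_le_of_inj _ _ (fun z => π z.2) (fun z hz => ?_) (fun z hz z' hz' h => ?_)
        (cubic_le (α := 2 * π D' ^ 2 * π l) (β := 3 * π D' * π l ^ 2) (γ := π l ^ 3) (δ := -β)
          (Or.inl hα))
      · rw [Finset.mem_filter, memA] at hz
        rw [Finset.mem_filter]
        refine ⟨Finset.mem_univ _, ?_⟩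
        have h1 : G D' z.1 z.2 = b := by rw [hG]; exact hz.1.2
        have h3 := congrArg π h1
        have h4 : π z.1 = π l + π D' * π z.2 := by
          rw [← hz.2, map_sub, map_mul]
          ring
        unfold G at h3
        simp only [map_mul, map_sub, map_pow] at h3
        rw [h4] at h3
        linear_combination h3
      · rw [Finset.mem_filter, memA] at hz hz'
        obtain ⟨⟨h1, h5⟩, h4⟩ := hz
        obtain ⟨⟨h1', h5'⟩, h4'⟩ := hz'
        have e1 : z.1 = l + D' * z.2 := by rw [← h4]; ring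
        have e2 : z'.1 = l + D' * z'.2 := by rw [← h4']; ring
        have e4 : z.2 = z'.2 := by
          refine unit_cancel hπ hu (u := l * (l ^ 2 + 3 * D' * l * (z.2 + z'.2) +
            2 * D' ^ 2 * (z.2 ^ 2 + z.2 * z'.2 + z'.2 ^ 2))) ?_ ?_
          · have hh : π z.2 = π z'.2 := h
            simp only [map_mul, map_add, map_pow, ← hh]
            refine mul_ne_zero hl ?_
            have k1 := hq _ h1
            simp only at k1
            have k2 : π z.1 = π l + π D' * π z.2 := by rw [e1, map_add, map_mul]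
            rw [k2] at k1
            intro k3
            apply k1
            have t2 : π (2 : R) = 2 := map_ofNat π 2
            have t3 : π (3 : R) = 3 := map_ofNat π 3
            rw [t2, t3] at k3
            linear_combination k3
          · rw [← G_l, ← e1, ← e2, hG, hG, h5, h5', sub_self]
        exact Prod.ext (by rw [e1, e2, e4]) e4
  refine ⟨A, ?_, ?_, ?_, ?_, ?_, ?_, ?_, ?_⟩
  · exact fun z hz => ((memA z).1 hz).2
  · intro z hz
    have h1 := ((memA z).1 hz).1
    rw [memB] at h1
    exact hu _ (nz _ _ h1.1).1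
  · have hex : ∀ (w : F × F) (x : R), w ∈ B → π x = w.1 → ∃ y, π y = w.2 ∧ G D x y = b := by
      intro w x hw hx
      rw [memB] at hw
      refine hens hπ (f := fun y => G D x y) (fun y hy => ?_) fun y y' hy hy' h => ?_
      · show π (G D x y) = β
        rw [← hw.1]
        unfold G
        simp only [map_mul, map_sub, map_pow, hx, hy]
        rfl
      · refine injy x y y' (by rw [hx]; exact (nz _ _ hw.1).1) (by rw [hx, hy]; exact hw.2.1)
          (hy.trans hy'.symm) h
    choose! Y hY1 hY2 using hex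
    have h4 : (B.sigma fun w => univ.filter fun x : R => π x = w.1).card ≤ A.card := by
      refine Finset.card_le_card_of_injOn (fun s => (s.2, Y s.1 s.2)) (fun s hs => ?_)
        fun s hs s' hs' h => ?_
      · have hs1 := Finset.mem_sigma.1 (Finset.mem_coe.1 hs)
        have hsB : s.1 ∈ B := hs1.1
        have hsx : π s.2 = s.1.1 := (Finset.mem_filter.1 hs1.2).2
        rw [Finset.mem_coe, memA]
        simp only
        rw [hY1 s.1 s.2 hsB hsx, hY2 s.1 s.2 hsB hsx, hsx]
        exact ⟨hsB, rfl⟩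
      · have hs1 := Finset.mem_sigma.1 (Finset.mem_coe.1 hs)
        have hsB : s.1 ∈ B := hs1.1
        have hsx : π s.2 = s.1.1 := (Finset.mem_filter.1 hs1.2).2
        have hs1' := Finset.mem_sigma.1 (Finset.mem_coe.1 hs')
        have hsB' : s'.1 ∈ B := hs1'.1
        have hsx' : π s'.2 = s'.1.1 := (Finset.mem_filter.1 hs1'.2).2
        have h5 := Prod.ext_iff.1 h
        simp only at h5
        obtain ⟨h6, h7⟩ := h5
        have h8 : s.1 = s'.1 := by
          refine Prod.ext ?_ ?_
          · rw [← hsx, ← hsx', h6]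
          · rw [← hY1 s.1 s.2 hsB hsx, ← hY1 s'.1 s'.2 hsB' hsx', h7]
        exact Sigma.ext h8 (heq_of_eq h6)
    rw [Finset.card_sigma, Finset.sum_congr rfl fun w _ => fib_card hπ w.1, Finset.sum_const,
      smul_eq_mul] at h4
    rw [card_R hπ]
    calc Fintype.card F * kap π ≤ 8 * B.card * kap π := Nat.mul_le_mul_right _ hBcard
      _ = 8 * (B.card * kap π) := by ring
      _ ≤ 8 * A.card := Nat.mul_le_mul_left _ h4
  · intro x
    rcases Finset.eq_empty_or_nonempty (A.filter fun z => z.1 = x) with h | ⟨z0, h0⟩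
    · rw [h]
      simp
    · rw [Finset.mem_filter, memA, memB] at h0
      have hx : π x ≠ 0 := by
        rw [← h0.2]
        exact (nz _ _ h0.1.1.1).1
      have hα : -(d ^ 2 * π x) ≠ 0 := neg_ne_zero.2 (mul_ne_zero (pow_ne_zero 2 hD) hx)
      refine card_le_of_inj _ _ (fun z => π z.2) (fun z hz => ?_) (fun z hz z' hz' h => ?_)
        (cubic_le (α := -(d ^ 2 * π x)) (β := 0) (γ := π x ^ 3) (δ := -β) (Or.inl hα))
      · rw [Finset.mem_filter, memA] at hz
        rw [Finset.mem_filter]
        refine ⟨Finset.mem_univ _, ?_⟩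
        have h3 := congrArg π hz.1.2
        unfold G at h3
        simp only [map_mul, map_sub, map_pow] at h3
        rw [hz.2] at h3
        linear_combination h3
      · rw [Finset.mem_filter, memA, memB] at hz hz'
        refine Prod.ext (hz.2.trans hz'.2.symm) (injy z.1 _ _ (nz _ _ hz.1.1.1).1 hz.1.1.2.1 h ?_)
        rw [hz.1.2, hz.2, ← hz'.2, hz'.1.2]
  · intro y
    rw [mul_one]
    rcases Finset.eq_empty_or_nonempty (A.filter fun z => z.2 = y) with h | ⟨z0, h0⟩
    · rw [h]
      simp
    · rw [Finset.mem_filter, memA, memB] at h0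
      have hy : π y ≠ 0 := by
        rw [← h0.2]
        exact (nz _ _ h0.1.1.1).2.1
      refine card_le_of_inj _ _ (fun z => π z.1) (fun z hz => ?_) (fun z hz z' hz' h => ?_)
        (cubic_le (α := π y) (β := 0) (γ := -(d ^ 2 * π y ^ 3)) (δ := -β) (Or.inl hy))
      · rw [Finset.mem_filter, memA] at hz
        rw [Finset.mem_filter]
        refine ⟨Finset.mem_univ _, ?_⟩
        have h3 := congrArg π hz.1.2
        unfold G at h3
        simp only [map_mul, map_sub, map_pow] at h3
        rw [hz.2] at h3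
        linear_combination h3
      · rw [Finset.mem_filter, memA, memB] at hz hz'
        have h5 : (z.1 - z'.1) * (y * (z.1 ^ 2 + z.1 * z'.1 + z'.1 ^ 2 - D ^ 2 * y ^ 2)) = 0 := by
          have e1 := G_x D z.1 z'.1 y
          have e2 : G D z.1 y = b := by rw [← hz.2]; exact hz.1.2
          have e3 : G D z'.1 y = b := by rw [← hz'.2]; exact hz'.1.2
          rw [e2, e3, sub_self] at e1
          linear_combination -e1
        have h6 : z.1 = z'.1 := by
          refine unit_cancel hπ hu (u := y * (z.1 ^ 2 + z.1 * z'.1 + z'.1 ^ 2 - D ^ 2 * y ^ 2)) ?_ h5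
          have hh : π z.1 = π z'.1 := h
          simp only [map_mul, map_sub, map_add, map_pow, ← hh]
          refine mul_ne_zero hy ?_
          have k1 := hz.1.1.2.2.1
          simp only at k1
          rw [hz.2] at k1
          intro k3
          apply k1
          linear_combination k3
        exact Prod.ext h6 (hz.2.trans hz'.2.symm)
  · exact fun z _ => ⟨z.2, by simp⟩
  · refine fun l => fl D (fun _ _ => rfl) rfl (fun w hw => ?_) (fun w hw => ?_) l
    · rw [memB] at hw
      exact hw.2.2.2.1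
    · rw [memB] at hw
      exact (nz _ _ hw.1).2.2.1
  · intro l
    rw [filt_neg]
    refine fl (-D) (fun x y => G_neg D x y) (by rw [map_neg, neg_sq]) (fun w hw => ?_)
      (fun w hw => ?_) l
    · rw [memB] at hw
      have := hw.2.2.2.2
      intro h0
      apply this
      rw [map_neg] at h0
      linear_combination h0
    · rw [memB] at hw
      rw [map_neg]
      have := (nz _ _ hw.1).2.2.2
      intro h0
      apply this
      linear_combination h0

end abs

end Pool.Agent.V7H64.CG
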