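import Pool.Agent.V7H64.CG.Step
set_option autoImplicit false

/-!
Squarefree congruent numbers in residue classes to large moduli.
-/

namespace Pool.Agent.V7H64.CG

open Finset Filter

set_option linter.unusedSectionVars false

/-- The numerical inequality. -/
theorem num_ineq {D L z h K : ℕ} {v lX w δ : ℝ} {B : ℕ} (hv : 400 * ((D : ℝ) + 1) * (1 + lX) ≤ v)
    (hl : 1 ≤ lX) (hL : 300 ≤ L) (hδ : 0 < δ) (hL2 : δ * lX / 2 ≤ L)
    (hw : w * Real.log L ≤ lX) (hlL : 80 / δ ≤ Real.log L) (hlL1 : 1 ≤ Real.log L) (hw0 : 0 ≤ w)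
    (hz : v ^ 6 / 2 ≤ z) (hz2 : (z : ℝ) ≤ v ^ 6) (hh : v ^ 7 ≤ h) (hK : (K : ℝ) ≤ v ^ 2)
    (hB : Real.log B ≤ lX) :
    10 * (L : ℝ)⁻¹ + 10 * z * (h : ℝ)⁻¹ +
      K * K * ((9 * D + 9) * (z : ℝ)⁻¹ +
        (D + 1) * (1 + Real.log B) * (h : ℝ)⁻¹) +
      w * (2 * (L : ℝ)⁻¹ + 2 * (h : ℝ)⁻¹ + K * K * (2 * (z : ℝ)⁻¹)) ≤ 1 / 2 := by
  have hD0 : (0 : ℝ) ≤ D := Nat.cast_nonneg _
  have hv1 : 800 * ((D : ℝ) + 1) ≤ v := by
    have : 400 * ((D : ℝ) + 1) * 2 ≤ 400 * ((D : ℝ) + 1) * (1 + lX) :=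
      mul_le_mul_of_nonneg_left (by linarith) (by positivity)
    linarith
  have hv2 : 800 ≤ v := by nlinarith
  have hv0 : 0 < v := by linarith
  have hlv : 400 * lX ≤ v := by nlinarith
  have hlv2 : ((D : ℝ) + 1) * (1 + lX) ≤ v := by nlinarith
  have hL0 : (0 : ℝ) < L := by
    have : (300 : ℝ) ≤ L := by exact_mod_cast hL
    linarith
  have hh0 : (0 : ℝ) < h := lt_of_lt_of_le (by positivity) hh
  have hz0 : (0 : ℝ) < z := lt_of_lt_of_le (by positivity) hz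
  have ih : (h : ℝ)⁻¹ ≤ (v ^ 7)⁻¹ := inv_anti₀ (by positivity) hh
  have iz : (z : ℝ)⁻¹ ≤ 2 * (v ^ 6)⁻¹ := by
    refine (inv_anti₀ (by positivity) hz).trans (le_of_eq ?_)
    rw [inv_div]
    ring
  have ih0 : (0 : ℝ) ≤ (h : ℝ)⁻¹ := by positivity
  have iz0 : (0 : ℝ) ≤ (z : ℝ)⁻¹ := by positivity
  have hK2 : (K : ℝ) * K ≤ v ^ 4 := by
    calc (K : ℝ) * K ≤ v ^ 2 * v ^ 2 := mul_le_mul hK hK (Nat.cast_nonneg _) (by positivity)
      _ = v ^ 4 := by ring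
  have hKK0 : (0 : ℝ) ≤ (K : ℝ) * K := by positivity
  have hwl : w ≤ lX := by nlinarith
  have hiv : v⁻¹ ≤ 1 / 800 := by
    rw [inv_le_comm₀ hv0 (by norm_num)]
    norm_num
    exact hv2
  have hiv0 : 0 < v⁻¹ := by positivity
  have T1 : 10 * (L : ℝ)⁻¹ ≤ 1 / 30 := by
    have : (300 : ℝ) ≤ L := by exact_mod_cast hL
    have h2 : (L : ℝ)⁻¹ ≤ 1 / 300 := by
      rw [inv_le_comm₀ hL0 (by norm_num)]
      norm_num
      exact_mod_cast hL
    linarith
  have T2 : 10 * z * (h : ℝ)⁻¹ ≤ 1 / 20 := by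
    calc 10 * (z : ℝ) * (h : ℝ)⁻¹ ≤ 10 * v ^ 6 * (v ^ 7)⁻¹ :=
          mul_le_mul (by linarith) ih ih0 (by positivity)
      _ = 10 * v⁻¹ := by field_simp
      _ ≤ 1 / 20 := by linarith
  have T3 : (K : ℝ) * K * ((9 * D + 9) * (z : ℝ)⁻¹) ≤ 1 / 20 := by
    calc (K : ℝ) * K * ((9 * D + 9) * (z : ℝ)⁻¹) ≤ v ^ 4 * ((9 * D + 9) * (2 * (v ^ 6)⁻¹)) :=
          mul_le_mul hK2 (mul_le_mul_of_nonneg_left iz (by positivity)) (by positivity)
            (by positivity)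
      _ = (18 * (D + 1) * v⁻¹) * v⁻¹ := by field_simp; ring
      _ ≤ 1 * v⁻¹ := by
          refine mul_le_mul_of_nonneg_right ?_ hiv0.le
          rw [← div_eq_mul_inv, div_le_one hv0]
          linarith
      _ ≤ 1 / 20 := by linarith
  have T4 : (K : ℝ) * K * ((D + 1) * (1 + Real.log B) * (h : ℝ)⁻¹) ≤ 1 / 20 := by
    calc (K : ℝ) * K * ((D + 1) * (1 + Real.log B) * (h : ℝ)⁻¹) ≤ v ^ 4 * (v * (v ^ 7)⁻¹) := by
          refine mul_le_mul hK2 (mul_le_mul ?_ ih ih0 hv0.le) (by positivity) (by positivity)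
          refine le_trans ?_ hlv2
          exact mul_le_mul_of_nonneg_left (by linarith) (by positivity)
      _ = v⁻¹ * v⁻¹ := by field_simp
      _ ≤ 1 * v⁻¹ := mul_le_mul_of_nonneg_right (by linarith) hiv0.le
      _ ≤ 1 / 20 := by linarith
  have T5 : w * (2 * (L : ℝ)⁻¹) ≤ 1 / 20 := by
    have h1 : w * (80 / δ) ≤ lX := (mul_le_mul_of_nonneg_left hlL hw0).trans hw
    have h2 : w * 80 ≤ lX * δ := by
      have h3 := mul_le_mul_of_nonneg_right h1 hδ.le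
      have h4 : w * (80 / δ) * δ = w * 80 := by field_simp
      linarith
    have h3 : w * 40 ≤ L := by nlinarith
    have h4 : w * (2 * (L : ℝ)⁻¹) = (w * 40) * (L : ℝ)⁻¹ / 20 := by ring
    rw [h4]
    have h5 : (w * 40) * (L : ℝ)⁻¹ ≤ 1 := by
      rw [← div_eq_mul_inv, div_le_one hL0]
      exact h3
    linarith
  have T6 : w * (2 * (h : ℝ)⁻¹) ≤ 1 / 20 := by
    calc w * (2 * (h : ℝ)⁻¹) ≤ v * (2 * (v ^ 7)⁻¹) :=
          mul_le_mul (by linarith) (by linarith) (by positivity) hv0.le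
      _ = (2 * v⁻¹) * (v⁻¹) ^ 5 := by field_simp
      _ ≤ (2 * v⁻¹) * 1 := by
          refine mul_le_mul_of_nonneg_left (pow_le_one₀ hiv0.le (by linarith)) (by positivity)
      _ ≤ 1 / 20 := by linarith
  have T7 : w * ((K : ℝ) * K * (2 * (z : ℝ)⁻¹)) ≤ 1 / 20 := by
    calc w * ((K : ℝ) * K * (2 * (z : ℝ)⁻¹)) ≤ v * (v ^ 4 * (2 * (2 * (v ^ 6)⁻¹))) := by
          refine mul_le_mul (by linarith) (mul_le_mul hK2 (by linarith) (by positivity)
            (by positivity)) (by positivity) hv0.le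
      _ = 4 * v⁻¹ := by field_simp; ring
      _ ≤ 1 / 20 := by linarith
  have e : 10 * (L : ℝ)⁻¹ + 10 * z * (h : ℝ)⁻¹ +
      K * K * ((9 * D + 9) * (z : ℝ)⁻¹ +
        (D + 1) * (1 + Real.log B) * (h : ℝ)⁻¹) +
      w * (2 * (L : ℝ)⁻¹ + 2 * (h : ℝ)⁻¹ + K * K * (2 * (z : ℝ)⁻¹)) =
      10 * (L : ℝ)⁻¹ + 10 * z * (h : ℝ)⁻¹ + (K : ℝ) * K * ((9 * D + 9) * (z : ℝ)⁻¹) +
      (K : ℝ) * K * ((D + 1) * (1 + Real.log B) * (h : ℝ)⁻¹) + w * (2 * (L : ℝ)⁻¹) +
      w * (2 * (h : ℝ)⁻¹) + w * ((K : ℝ) * K * (2 * (z : ℝ)⁻¹)) := by ring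
  rw [e]
  linarith

/-- The main result. -/
theorem core (ε : ℝ) (hε : 0 < ε) : ∃ s : ℕ, 0 < s ∧ ∀ᶠ X : ℝ in atTop, ∀ q : ℕ, 1 ≤ q →
    (q : ℝ) ≤ X ^ (1 / 4 - ε) → ∀ b : ℕ, Squarefree b →
      ∃ S : Finset ℕ, X ^ (1 / 2 - ε) / q ≤ S.card ∧ ∀ n ∈ S, (n : ℝ) ≤ X ∧ Squarefree n ∧
        n ≡ b [MOD q] ∧ ∃ x y : ℕ, 0 < y ∧ s ^ 2 * y < x ∧
          n = x * y * ((x - s ^ 2 * y) * (x + s ^ 2 * y)) := by
  obtain ⟨s, hs0, hD⟩ := exists_s
  refine ⟨s, hs0, ?_⟩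
  generalize s ^ 2 = D at hD
  set δ := ε / 12 with hδdef
  have hδ : 0 < δ := by positivity
  obtain ⟨C1, hC1, hK⟩ := pow_omega k0 (by unfold k0; norm_num) δ hδ
  obtain ⟨C2, hC2, hM⟩ := pow_omega 4 (by norm_num) δ hδ
  set Q : ℝ := 400 * ((D : ℝ) + 1) + 8 * ((D : ℝ) + 1) ^ 2 * C2 + C1 with hQ
  have hQ0 : 0 < Q := by positivity
  have E1 : ∀ᶠ X : ℝ in atTop, Real.log X ≤ 1 / (2 * Q) * X ^ δ := by
    have h1 := (isLittleO_log_rpow_atTop hδ).bound (by positivity : 0 < 1 / (2 * Q))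
    filter_upwards [h1, eventually_ge_atTop (1 : ℝ)] with X hX hX1
    rw [Real.norm_of_nonneg (Real.log_nonneg hX1), Real.norm_of_nonneg (by positivity)] at hX
    exact hX
  have E2 : ∀ᶠ X : ℝ in atTop, 2 * Q ≤ X ^ δ := (tendsto_rpow_atTop hδ).eventually_ge_atTop _
  have E3 : ∀ᶠ X : ℝ in atTop, Real.exp (80 / δ) + 301 ≤ δ * Real.log X :=
    (Real.tendsto_log_atTop.const_mul_atTop hδ).eventually_ge_atTop _
  filter_upwards [E1, E2, E3, eventually_ge_atTop (Real.exp 1)] with X h1 h2 h3 h4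
  intro q hq hqX b hb
  have hX0 : 0 < X := lt_of_lt_of_le (Real.exp_pos 1) h4
  have hX1 : 1 ≤ X := le_trans (by
    have := Real.add_one_le_exp (1 : ℝ)
    linarith) h4
  set v := X ^ δ with hv
  set lX := Real.log X with hlX
  set R := X ^ (1 / 4 : ℝ) with hR
  have hl1 : 1 ≤ lX := by
    rw [hlX, ← Real.log_exp 1]
    exact Real.log_le_log (Real.exp_pos 1) h4
  have hQv : Q * (1 + lX) ≤ v := by
    have h5 : Q * lX ≤ Q * (1 / (2 * Q) * v) := mul_le_mul_of_nonneg_left h1 hQ0.le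
    have h6 : Q * (1 / (2 * Q) * v) = v / 2 := by field_simp
    linarith
  have hQl : Q ≤ Q * (1 + lX) := by nlinarith
  have hD0 : (0 : ℝ) ≤ D := Nat.cast_nonneg _
  have hv400 : 400 * ((D : ℝ) + 1) * (1 + lX) ≤ v := by
    refine le_trans (mul_le_mul_of_nonneg_right ?_ (by linarith)) hQv
    rw [hQ]
    have : 0 ≤ 8 * ((D : ℝ) + 1) ^ 2 * C2 := by positivity
    linarith
  have hvC : 8 * ((D : ℝ) + 1) ^ 2 * C2 ≤ v := by
    refine le_trans ?_ (hQl.trans hQv)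
    rw [hQ]
    linarith
  have hvC1 : C1 ≤ v := by
    refine le_trans ?_ (hQl.trans hQv)
    rw [hQ]
    have : 0 ≤ 8 * ((D : ℝ) + 1) ^ 2 * C2 := by positivity
    linarith
  have hvD : (D : ℝ) + 1 ≤ v := by nlinarith
  have hv2 : 400 ≤ v := by nlinarith
  have hv0 : 0 < v := by linarith
  have hv1 : 1 ≤ v := by linarith
  have hR0 : 0 < R := by positivity
  have hR4 : R ^ 4 = X := by
    rw [hR, ← Real.rpow_natCast, ← Real.rpow_mul hX0.le]
    norm_num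
  have hv12 : v ^ 12 = X ^ ε := by
    rw [hv, ← Real.rpow_natCast, ← Real.rpow_mul hX0.le]
    congr 1
    rw [hδdef]
    push_cast
    ring
  have e1 : X ^ (1 / 4 - ε) = R / v ^ 12 := by
    rw [Real.rpow_sub hX0, hv12]
  have e2 : X ^ (1 / 2 - ε) = R ^ 2 / v ^ 12 := by
    rw [Real.rpow_sub hX0, hv12, hR, ← Real.rpow_natCast, ← Real.rpow_mul hX0.le]
    norm_num
  rw [e1] at hqX
  have hq1 : (1 : ℝ) ≤ q := by exact_mod_cast hq
  have hRv : v ^ 12 ≤ R := by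
    have := hq1.trans hqX
    rwa [le_div_iff₀ (by positivity), one_mul] at this
  -- the parameter `L`
  set L := ⌊δ * lX⌋₊ with hLdef
  have hδl : 0 ≤ δ * lX := by positivity
  have hLle : (L : ℝ) ≤ δ * lX := Nat.floor_le hδl
  have hLgt : δ * lX - 1 < L := by
    have := Nat.lt_floor_add_one (δ * lX)
    linarith
  have hexp : 0 < Real.exp (80 / δ) := Real.exp_pos _
  have hL300 : 300 ≤ L := by
    refine Nat.le_floor ?_
    push_cast
    linarith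
  have hL300' : (300 : ℝ) ≤ L := by exact_mod_cast hL300
  have hL0 : (0 : ℝ) < L := by linarith
  have hlL : 80 / δ ≤ Real.log L := by
    rw [Real.le_log_iff_exp_le hL0]
    linarith
  have hlL1 : 1 ≤ Real.log L := by
    rw [Real.le_log_iff_exp_le hL0]
    have := Real.exp_one_lt_d9
    linarith
  have h16 : (16 : ℝ) ^ L ≤ v ^ 3 := by
    have k1 : (16 : ℝ) ≤ Real.exp 3 := by
      have k2 : Real.exp 3 = Real.exp 1 ^ 3 := by
        rw [← Real.exp_nat_mul]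
        norm_num
      have k3 := Real.exp_one_gt_d9
      have k4 : (2.7 : ℝ) ^ 3 ≤ Real.exp 1 ^ 3 := pow_le_pow_left₀ (by norm_num) (by linarith) 3
      rw [k2]
      norm_num at k4 ⊢
      linarith
    calc (16 : ℝ) ^ L ≤ Real.exp 3 ^ L := pow_le_pow_left₀ (by norm_num) k1 L
      _ = Real.exp (L * 3) := by rw [Real.exp_nat_mul]
      _ ≤ Real.exp (3 * (lX * δ)) := Real.exp_le_exp.2 (by linarith)
      _ = v ^ 3 := by
          rw [hv, Real.rpow_def_of_pos hX0, ← Real.exp_nat_mul, ← hlX]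
          norm_num
  -- the modulus
  obtain ⟨N, hN0, hqN, hNle, hLN⟩ := modulus q L hq
  have : NeZero N := ⟨hN0.ne'⟩
  have hN0' : (0 : ℝ) < N := by exact_mod_cast hN0
  have hNq : (N : ℝ) ≤ q * v ^ 3 := by
    have k1 : (N : ℝ) ≤ q * 16 ^ L := by exact_mod_cast hNle
    exact k1.trans (mul_le_mul_of_nonneg_left h16 (by positivity))
  have hNR : (N : ℝ) * v ^ 9 ≤ R := by
    calc (N : ℝ) * v ^ 9 ≤ (q * v ^ 3) * v ^ 9 := mul_le_mul_of_nonneg_right hNq (by positivity)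
      _ ≤ (R / v ^ 12 * v ^ 3) * v ^ 9 := by
          refine mul_le_mul_of_nonneg_right (mul_le_mul_of_nonneg_right hqX (by positivity))
            (by positivity)
      _ = R := by field_simp
  have hR1 : 1 ≤ R := (one_le_pow₀ hv1).trans hRv
  have hRX : R ≤ X := by
    rw [← hR4]
    exact le_self_pow₀ hR1 (by norm_num)
  have hNX : (N : ℝ) ≤ X := by
    refine le_trans ?_ hRX
    refine le_trans ?_ hNR
    exact le_mul_of_one_le_right hN0'.le (one_le_pow₀ hv1)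
  obtain ⟨A, hA⟩ := exists_LS hD hb N
  generalize hKdef : k0 ^ N.primeFactors.card = K at hA
  have hKv : (K : ℝ) ≤ v ^ 2 := by
    have k1 := hK N hN0.ne'
    have k2 : (K : ℝ) = (k0 : ℝ) ^ N.primeFactors.card := by
      rw [← hKdef]
      push_cast
      rfl
    rw [k2]
    refine k1.trans ?_
    have k3 : (N : ℝ) ^ δ ≤ v := Real.rpow_le_rpow hN0'.le hNX hδ.le
    calc C1 * (N : ℝ) ^ δ ≤ v * v := mul_le_mul hvC1 k3 (by positivity) hv0.le
      _ = v ^ 2 := by ring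
  -- the length
  set h := ⌊R / ((D + 1) * N)⌋₊ with hhdef
  have hDN0 : (0 : ℝ) < (D + 1) * N := by positivity
  have harg : v ^ 8 ≤ R / ((D + 1) * N) := by
    rw [le_div_iff₀ hDN0]
    calc v ^ 8 * ((D + 1) * N) ≤ v ^ 8 * (v * N) := by
          refine mul_le_mul_of_nonneg_left (mul_le_mul_of_nonneg_right hvD hN0'.le) (by positivity)
      _ = N * v ^ 9 := by ring
      _ ≤ R := hNR
  have hargp : 0 ≤ R / ((D + 1) * N) := by positivity
  have hhle : (h : ℝ) ≤ R / ((D + 1) * N) := Nat.floor_le hargp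
  have hhgt : R / ((D + 1) * N) - 1 < h := by
    have := Nat.lt_floor_add_one (R / ((D + 1) * N))
    linarith
  have hpw : v ^ 7 + 1 ≤ v ^ 8 := by
    have k1 : 1 ≤ v ^ 7 := one_le_pow₀ hv1
    have k2 : v ^ 8 = v ^ 7 * v := by ring
    nlinarith
  have hh7 : v ^ 7 ≤ h := by linarith
  have hhalf : R / (2 * ((D + 1) * N)) ≤ h := by
    have k1 : 1 ≤ v ^ 7 := one_le_pow₀ hv1
    have k2 : R / (2 * ((D + 1) * N)) = R / ((D + 1) * N) / 2 := by
      field_simp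
    rw [k2]
    linarith
  have hh1 : 1 ≤ h := by
    have k1 : 1 ≤ v ^ 7 := one_le_pow₀ hv1
    exact_mod_cast k1.trans hh7
  have hDNh : ((D : ℝ) + 1) * (N * h) ≤ R := by
    have k1 := mul_le_mul_of_nonneg_left hhle hDN0.le
    rw [mul_div_cancel₀ _ hDN0.ne'] at k1
    linarith
  -- `z`
  set z := ⌊v ^ 6⌋₊ with hzdef
  have hz6 : (z : ℝ) ≤ v ^ 6 := Nat.floor_le (by positivity)
  have hz7 : v ^ 6 / 2 ≤ z := by
    have k1 := Nat.lt_floor_add_one (v ^ 6)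
    have k2 : (2 : ℝ) ≤ v ^ 6 := by
      calc (2 : ℝ) ≤ v := by linarith
        _ ≤ v ^ 6 := le_self_pow₀ hv1 (by norm_num)
    linarith
  have hLz : L ≤ z := by
    refine Nat.floor_mono ?_
    have k3 : δ * lX ≤ v := by
      have k4 : v ≤ v ^ 6 := le_self_pow₀ hv1 (by norm_num)
      have k5 : δ * lX = Real.log v := by
        rw [hv, Real.log_rpow hX0]
      rw [k5]
      have := Real.log_le_sub_one_of_pos hv0
      linarith
    exact k3.trans (le_self_pow₀ hv1 (by norm_num))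
  -- `B`
  have hNh1 : 1 ≤ N * h := Nat.mul_pos hN0 hh1
  have hB1 : (1 : ℝ) ≤ ((D * (N * h) + N * h + D * (N * h) : ℕ) : ℝ) := by
    exact_mod_cast (by omega : 1 ≤ D * (N * h) + N * h + D * (N * h))
  have hBX : ((D * (N * h) + N * h + D * (N * h) : ℕ) : ℝ) ≤ X := by
    have k1 : ((D * (N * h) + N * h + D * (N * h) : ℕ) : ℝ) ≤ 2 * (((D : ℝ) + 1) * (N * h)) := by
      push_cast
      have : (0 : ℝ) ≤ (N : ℝ) * h := by positivity
      linarith
    have k2 : 2 ≤ R := by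
      calc (2 : ℝ) ≤ v := by linarith
        _ ≤ v ^ 12 := le_self_pow₀ hv1 (by norm_num)
        _ ≤ R := hRv
    have k3 : 2 * R ≤ R ^ 4 := by
      calc 2 * R ≤ R * R := mul_le_mul_of_nonneg_right k2 hR0.le
        _ = R ^ 2 := by ring
        _ ≤ R ^ 4 := pow_le_pow_right₀ hR1 (by norm_num)
    rw [← hR4]
    linarith
  have hlB : Real.log ((D * (N * h) + N * h + D * (N * h) : ℕ) : ℝ) ≤ lX :=
    Real.log_le_log (by linarith) hBX
  have hlB0 : 0 ≤ Real.log ((D * (N * h) + N * h + D * (N * h) : ℕ) : ℝ) :=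
    Real.log_nonneg hB1
  -- number of large prime factors
  have hw := omega_large (N := N) (L := L) hN0.ne' (by omega)
  have hw2 : ((N.primeFactors.filter fun p => L < p).card : ℝ) * Real.log L ≤ lX :=
    hw.trans (Real.log_le_log hN0' hNX)
  have hL2 : δ * lX / 2 ≤ L := by linarith
  have hnum := num_ineq (K := K) hv400 hl1 hL300 hδ hL2 hw2 hlL hlL1 (Nat.cast_nonneg _) hz7 hz6
    hh7 hKv hlB
  -- number of divisors
  have hdiv : ∀ n : ℕ, Squarefree n → n ≤ ((D + 1) * (N * h)) ^ 4 →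
      (n.divisors.card : ℝ) ^ 2 ≤ C2 * v := by
    intro n hn hnle
    have k1 : (n.divisors.card : ℝ) ≤ 2 ^ n.primeFactors.card := by
      exact_mod_cast divisors_card hn
    have k2 : (n.divisors.card : ℝ) ^ 2 ≤ (4 : ℝ) ^ n.primeFactors.card := by
      calc (n.divisors.card : ℝ) ^ 2 ≤ (2 ^ n.primeFactors.card) ^ 2 :=
            pow_le_pow_left₀ (Nat.cast_nonneg _) k1 2
        _ = (4 : ℝ) ^ n.primeFactors.card := by
            rw [← pow_mul, mul_comm, pow_mul]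
            norm_num
    have k3 := hM n hn.ne_zero
    have k4 : (n : ℝ) ≤ X := by
      have k5 : (n : ℝ) ≤ (((D : ℝ) + 1) * (N * h)) ^ 4 := by exact_mod_cast hnle
      rw [← hR4]
      exact k5.trans (pow_le_pow_left₀ (by positivity) hDNh 4)
    have k5 : (n : ℝ) ^ δ ≤ v := Real.rpow_le_rpow (Nat.cast_nonneg _) k4 hδ.le
    refine k2.trans ?_
    push_cast at k3
    exact k3.trans (mul_le_mul_of_nonneg_left k5 (by linarith))
  obtain ⟨S, hS1, hS2⟩ := step (z := z) hD hb hL300 hLN hA hh1 hLz hnum hqN hdiv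
  refine ⟨S, ?_, fun n hn => ?_⟩
  · rw [e2]
    have k1 : R ^ 2 / (4 * ((D : ℝ) + 1) ^ 2 * N) ≤ N * (h : ℝ) ^ 2 := by
      have k2 : (R / (2 * ((D + 1) * N))) ^ 2 ≤ (h : ℝ) ^ 2 :=
        pow_le_pow_left₀ (by positivity) hhalf 2
      have k3 := mul_le_mul_of_nonneg_left k2 hN0'.le
      refine le_trans (le_of_eq ?_) k3
      field_simp
      ring
    have k4 : R ^ 2 / (4 * ((D : ℝ) + 1) ^ 2 * N) ≤ 2 * v ^ 2 * (C2 * v) * S.card := by
      refine k1.trans (hS1.trans ?_)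
      refine mul_le_mul_of_nonneg_right (mul_le_mul_of_nonneg_right ?_ (by positivity))
        (Nat.cast_nonneg _)
      linarith
    rw [div_le_iff₀ (by positivity)] at k4
    have k5 : R ^ 2 ≤ v ^ 7 * q * S.card := by
      calc R ^ 2 ≤ 2 * v ^ 2 * (C2 * v) * S.card * (4 * ((D : ℝ) + 1) ^ 2 * N) := k4
        _ = (8 * ((D : ℝ) + 1) ^ 2 * C2) * N * (v ^ 3 * S.card) := by ring
        _ ≤ v * (q * v ^ 3) * (v ^ 3 * S.card) :=
            mul_le_mul_of_nonneg_right (mul_le_mul hvC hNq hN0'.le hv0.le) (by positivity)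
        _ = v ^ 7 * q * S.card := by ring
    rw [div_div, div_le_iff₀ (by positivity)]
    refine k5.trans ?_
    have k6 : v ^ 7 ≤ v ^ 12 := pow_le_pow_right₀ hv1 (by norm_num)
    have k7 := mul_le_mul_of_nonneg_right k6 (by positivity : (0 : ℝ) ≤ (q : ℝ) * S.card)
    linarith
  · obtain ⟨m1, m2, m3, m4⟩ := hS2 n hn
    refine ⟨?_, m2, m3, m4⟩
    have k5 : (n : ℝ) ≤ (((D : ℝ) + 1) * (N * h)) ^ 4 := by exact_mod_cast m1
    rw [← hR4]
    exact k5.trans (pow_le_pow_left₀ (by positivity) hDNh 4)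

end Pool.Agent.V7H64.CG
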