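import Pool.Agent.V7H64.CG.Typ
set_option autoImplicit false

/-!
The sieve.
-/

namespace Pool.Agent.V7H64.CG

open Finset

set_option linter.unusedSectionVars false

section re

variable {D b N h L z K c : ℕ} [NeZero N] {A : Finset (ZMod N × ZMod N)}

theorem cast_div_inv (m n : ℕ) : ((m / n : ℕ) : ℝ) ≤ (m : ℝ) * (n : ℝ)⁻¹ := by
  rw [← div_eq_mul_inv]
  exact Nat.cast_div_le

theorem EE_mid_real {p : ℕ} (hp : p.Prime) (hpN : ¬ p ∣ N) (h1 : 1 ≤ h) :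
    (((PP D N h A).filter (EE D p)).card : ℝ) ≤
      A.card * (10 * (h : ℝ) ^ 2 * ((p : ℝ) ^ 2)⁻¹ + 10 * h) := by
  have h2 := EE_mid (D := D) (h := h) (A := A) hp hpN
  have h3 : (((PP D N h A).filter (EE D p)).card : ℝ) ≤ (((h / p ^ 2 + 1) * (h + 1) * A.card +
    ((h + 1) * (h / p ^ 2 + 1) * A.card + ((h / p ^ 2 + 1) * (h + 1) * A.card +
    ((h / p ^ 2 + 1) * (h + 1) * A.card + (h / p + 1) * (h / p + 1) * A.card))) : ℕ) : ℝ) :=
    Nat.cast_le.2 h2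
  have ha : ((h / p ^ 2 : ℕ) : ℝ) ≤ h * ((p : ℝ) ^ 2)⁻¹ := by
    refine (cast_div_inv _ _).trans (le_of_eq ?_)
    push_cast
    rfl
  have he : ((h / p : ℕ) : ℝ) ≤ h * (p : ℝ)⁻¹ := cast_div_inv _ _
  have ha0 : (0 : ℝ) ≤ ((h / p ^ 2 : ℕ) : ℝ) := Nat.cast_nonneg _
  have he0 : (0 : ℝ) ≤ ((h / p : ℕ) : ℝ) := Nat.cast_nonneg _
  have hh : (1 : ℝ) ≤ h := by exact_mod_cast h1
  have hP : (0 : ℝ) ≤ ((p : ℝ) ^ 2)⁻¹ := by positivity
  rw [Nat.cast_add, Nat.cast_add, Nat.cast_add, Nat.cast_add, Nat.cast_mul, Nat.cast_mul,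
    Nat.cast_mul, Nat.cast_mul, Nat.cast_mul, Nat.cast_mul, Nat.cast_add, Nat.cast_add,
    Nat.cast_add, Nat.cast_one] at h3
  generalize ((h / p ^ 2 : ℕ) : ℝ) = a at *
  generalize ((h / p : ℕ) : ℝ) = e at *
  refine h3.trans ?_
  have h4 : (a + 1) * (h + 1) * A.card + ((h + 1) * (a + 1) * A.card + ((a + 1) * (h + 1) * A.card +
      ((a + 1) * (h + 1) * A.card + (e + 1) * (e + 1) * A.card))) =
      (A.card : ℝ) * (4 * ((a + 1) * (h + 1)) + (e + 1) ^ 2) := by ring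
  rw [h4]
  refine mul_le_mul_of_nonneg_left ?_ (Nat.cast_nonneg _)
  have k1 : (a + 1) * ((h : ℝ) + 1) ≤ (h * ((p : ℝ) ^ 2)⁻¹ + 1) * (2 * h) := by
    refine mul_le_mul (by linarith) (by linarith) (by linarith) (by positivity)
  have k2 : (e + 1) ^ 2 ≤ 2 * e ^ 2 + 2 := by nlinarith [sq_nonneg (e - 1)]
  have k3 : e ^ 2 ≤ (h * (p : ℝ)⁻¹) ^ 2 := pow_le_pow_left₀ he0 he 2
  have k4 : (h * (p : ℝ)⁻¹) ^ 2 = (h : ℝ) ^ 2 * ((p : ℝ) ^ 2)⁻¹ := by rw [mul_pow, inv_pow]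
  have k5 : (h * ((p : ℝ) ^ 2)⁻¹ + 1) * (2 * h) = 2 * ((h : ℝ) ^ 2 * ((p : ℝ) ^ 2)⁻¹) + 2 * h := by
    ring
  rw [k4] at k3
  rw [k5] at k1
  have k6 : 10 * (h : ℝ) ^ 2 * ((p : ℝ) ^ 2)⁻¹ = 10 * ((h : ℝ) ^ 2 * ((p : ℝ) ^ 2)⁻¹) := by ring
  rw [k6]
  linarith

theorem EE_large_real (hA : LS (D : ZMod N) (b : ZMod N) (gg b N) K c A) {p : ℕ} (hp : p.Prime)
    (hpN : ¬ p ∣ N) (h1 : 1 ≤ h) :
    (((PP D N h A).filter (EE D p)).card : ℝ) ≤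
      (c : ℝ) * N * (h : ℝ) ^ 2 * (9 * D + 9) * ((p : ℝ) ^ 2)⁻¹ + c * (D + 1) * N * h * (p : ℝ)⁻¹ := by
  have h2 := EE_large (h := h) hA hp hpN
  have h3 : (((PP D N h A).filter (EE D p)).card : ℝ) ≤
      (((h + 1) * c * ((D * (N * h) + N * h) / p ^ 2) +
        ((h + 1) * (c * gg b N) * (N * h / (p ^ 2 * gg b N)) +
        ((h + 1) * c * ((D * (N * h) + N * h) / p ^ 2) +
        ((h + 1) * c * ((D * (N * h) + N * h + D * (N * h)) / p ^ 2) +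
          (h / p + 1) * c * ((D * (N * h) + N * h) / p)))) : ℕ) : ℝ) := Nat.cast_le.2 h2
  have a1 : (((D * (N * h) + N * h) / p ^ 2 : ℕ) : ℝ) ≤
      (D * (N * h) + N * h) * ((p : ℝ) ^ 2)⁻¹ := by
    refine (cast_div_inv _ _).trans (le_of_eq ?_)
    push_cast
    rfl
  have a4 : (((D * (N * h) + N * h + D * (N * h)) / p ^ 2 : ℕ) : ℝ) ≤
      (D * (N * h) + N * h + D * (N * h)) * ((p : ℝ) ^ 2)⁻¹ := by
    refine (cast_div_inv _ _).trans (le_of_eq ?_)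
    push_cast
    rfl
  have a5 : (((D * (N * h) + N * h) / p : ℕ) : ℝ) ≤
      (D * (N * h) + N * h) * (p : ℝ)⁻¹ := by
    refine (cast_div_inv _ _).trans (le_of_eq ?_)
    push_cast
    rfl
  have a6 : ((h / p : ℕ) : ℝ) ≤ h * (p : ℝ)⁻¹ := cast_div_inv _ _
  have hp0 : (0 : ℝ) < (p : ℝ) := by exact_mod_cast hp.pos
  have a2 : (gg b N : ℝ) * ((N * h / (p ^ 2 * gg b N) : ℕ) : ℝ) ≤ N * h * ((p : ℝ) ^ 2)⁻¹ := by
    have k1 : N * h / (p ^ 2 * gg b N) * (p ^ 2 * gg b N) ≤ N * h := Nat.div_mul_le_self _ _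
    have k2 : ((N * h / (p ^ 2 * gg b N) : ℕ) : ℝ) * ((p : ℝ) ^ 2 * (gg b N : ℝ)) ≤ N * h := by
      exact_mod_cast k1
    rw [← div_eq_mul_inv, le_div_iff₀ (by positivity)]
    linarith
  simp only [Nat.cast_add, Nat.cast_mul, Nat.cast_one] at h3
  have z1 : (0 : ℝ) ≤ (((D * (N * h) + N * h) / p ^ 2 : ℕ) : ℝ) := Nat.cast_nonneg _
  have z2 : (0 : ℝ) ≤ ((N * h / (p ^ 2 * gg b N) : ℕ) : ℝ) := Nat.cast_nonneg _
  have z4 : (0 : ℝ) ≤ (((D * (N * h) + N * h + D * (N * h)) / p ^ 2 : ℕ) : ℝ) := Nat.cast_nonneg _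
  have z5 : (0 : ℝ) ≤ (((D * (N * h) + N * h) / p : ℕ) : ℝ) := Nat.cast_nonneg _
  have z6 : (0 : ℝ) ≤ ((h / p : ℕ) : ℝ) := Nat.cast_nonneg _
  have zg : (0 : ℝ) ≤ (gg b N : ℝ) := Nat.cast_nonneg _
  have zc : (0 : ℝ) ≤ (c : ℝ) := Nat.cast_nonneg _
  have zN : (0 : ℝ) ≤ (N : ℝ) := Nat.cast_nonneg _
  have zD : (0 : ℝ) ≤ (D : ℝ) := Nat.cast_nonneg _
  have hh : (1 : ℝ) ≤ h := by exact_mod_cast h1
  generalize (((D * (N * h) + N * h) / p ^ 2 : ℕ) : ℝ) = u1 at *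
  generalize ((N * h / (p ^ 2 * gg b N) : ℕ) : ℝ) = u2 at *
  generalize (((D * (N * h) + N * h + D * (N * h)) / p ^ 2 : ℕ) : ℝ) = u4 at *
  generalize (((D * (N * h) + N * h) / p : ℕ) : ℝ) = u5 at *
  generalize ((h / p : ℕ) : ℝ) = u6 at *
  generalize (gg b N : ℝ) = g at *
  refine h3.trans ?_
  have hc1 : ((h : ℝ) + 1) * c ≤ 2 * h * c := mul_le_mul_of_nonneg_right (by linarith) zc
  have hc0 : 0 ≤ ((h : ℝ) + 1) * c := by positivity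
  have t1 : ((h : ℝ) + 1) * c * u1 ≤ 2 * h * c * ((D * (N * h) + N * h) * ((p : ℝ) ^ 2)⁻¹) :=
    mul_le_mul hc1 a1 z1 (by positivity)
  have t2 : ((h : ℝ) + 1) * (c * g) * u2 ≤ 2 * h * c * (N * h * ((p : ℝ) ^ 2)⁻¹) := by
    have e : ((h : ℝ) + 1) * (c * g) * u2 = (((h : ℝ) + 1) * c) * (g * u2) := by ring
    rw [e]
    exact mul_le_mul hc1 a2 (by positivity) (by positivity)
  have t4 : ((h : ℝ) + 1) * c * u4 ≤
      2 * h * c * ((D * (N * h) + N * h + D * (N * h)) * ((p : ℝ) ^ 2)⁻¹) :=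
    mul_le_mul hc1 a4 z4 (by positivity)
  have t5 : (u6 + 1) * c * u5 ≤ (h * (p : ℝ)⁻¹ + 1) * c * ((D * (N * h) + N * h) * (p : ℝ)⁻¹) :=
    mul_le_mul (mul_le_mul_of_nonneg_right (by linarith) zc) a5 z5 (by positivity)
  have e5 : (h * (p : ℝ)⁻¹ + 1) * c * ((D * (N * h) + N * h) * (p : ℝ)⁻¹) =
      c * N * (h : ℝ) ^ 2 * (D + 1) * ((p : ℝ) ^ 2)⁻¹ + c * (D + 1) * N * h * (p : ℝ)⁻¹ := by
    rw [← inv_pow]
    ring
  rw [e5] at t5
  have e1 : (c : ℝ) * N * (h : ℝ) ^ 2 * (9 * D + 9) * ((p : ℝ) ^ 2)⁻¹ =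
      2 * h * c * ((D * (N * h) + N * h) * ((p : ℝ) ^ 2)⁻¹) +
      2 * h * c * (N * h * ((p : ℝ) ^ 2)⁻¹) +
      2 * h * c * ((D * (N * h) + N * h) * ((p : ℝ) ^ 2)⁻¹) +
      2 * h * c * ((D * (N * h) + N * h + D * (N * h)) * ((p : ℝ) ^ 2)⁻¹) +
      c * N * (h : ℝ) ^ 2 * (D + 1) * ((p : ℝ) ^ 2)⁻¹ := by ring
  rw [e1]
  linarith

theorem GG_mid_real {p : ℕ} (hp : p.Prime) (hpN : p ∣ N) (hpN2 : ¬ p ^ 2 ∣ N) (h1 : 1 ≤ h)
    (hL : 1 ≤ L) (hLp : L < p) :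
    (((PP D N h A).filter fun w => p ^ 2 ∣ w.2).card : ℝ) ≤
      A.card * (2 * (h : ℝ) ^ 2 * (L : ℝ)⁻¹ + 2 * h) := by
  have h2 := mid_g (D := D) (h := h) (A := A) (fun w => p ^ 2 ∣ w.2) hp hpN hpN2 fun x y h => h
  have h3 : (((PP D N h A).filter fun w => p ^ 2 ∣ w.2).card : ℝ) ≤
    (((h + 1) * (h / p + 1) * A.card : ℕ) : ℝ) := Nat.cast_le.2 h2
  have hL0 : (0 : ℝ) < L := by exact_mod_cast hL
  have he : ((h / p : ℕ) : ℝ) ≤ h * (L : ℝ)⁻¹ := by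
    refine (cast_div_inv _ _).trans (mul_le_mul_of_nonneg_left ?_ (Nat.cast_nonneg _))
    exact inv_anti₀ hL0 (by exact_mod_cast hLp.le)
  rw [Nat.cast_mul, Nat.cast_mul, Nat.cast_add, Nat.cast_add, Nat.cast_one] at h3
  have hh : (1 : ℝ) ≤ h := by exact_mod_cast h1
  refine h3.trans ?_
  rw [mul_comm (_ * _) (A.card : ℝ)]
  refine mul_le_mul_of_nonneg_left ?_ (Nat.cast_nonneg _)
  have e : 2 * (h : ℝ) ^ 2 * (L : ℝ)⁻¹ + 2 * h = (2 * h) * (h * (L : ℝ)⁻¹ + 1) := by ring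
  rw [e]
  exact mul_le_mul (by linarith) (by linarith) (by positivity) (by positivity)

theorem GG_large_real (hA : LS (D : ZMod N) (b : ZMod N) (gg b N) K c A) {p : ℕ} (hp : p.Prime)
    (h3 : 300 ≤ p) (hpN : p ∣ N) (hpb : p ∣ b) (h1 : 1 ≤ h) (hz : 1 ≤ z) (hzp : z < p) :
    (((PP D N h A).filter fun w => p ^ 2 ∣ w.2).card : ℝ) ≤
      2 * (c : ℝ) * N * (h : ℝ) ^ 2 * (z : ℝ)⁻¹ := by
  have h2 := GG_large (h := h) hA hp h3 hpN hpb
  have h3 : (((PP D N h A).filter fun w => p ^ 2 ∣ w.2).card : ℝ) ≤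
    (((h + 1) * (c * gg b N) * (N * h / (gg b N * p)) : ℕ) : ℝ) := Nat.cast_le.2 h2
  have hp0 : (0 : ℝ) < (p : ℝ) := by exact_mod_cast hp.pos
  have hz0 : (0 : ℝ) < (z : ℝ) := by exact_mod_cast hz
  have a2 : (gg b N : ℝ) * ((N * h / (gg b N * p) : ℕ) : ℝ) ≤ N * h * (z : ℝ)⁻¹ := by
    have k1 : N * h / (gg b N * p) * (gg b N * p) ≤ N * h := Nat.div_mul_le_self _ _
    have k2 : ((N * h / (gg b N * p) : ℕ) : ℝ) * ((gg b N : ℝ) * (p : ℝ)) ≤ N * h := by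
      exact_mod_cast k1
    have k3 : (z : ℝ) ≤ p := by exact_mod_cast hzp.le
    rw [← div_eq_mul_inv, le_div_iff₀ hz0]
    have k4 : (gg b N : ℝ) * ((N * h / (gg b N * p) : ℕ) : ℝ) * z ≤
        (gg b N : ℝ) * ((N * h / (gg b N * p) : ℕ) : ℝ) * p :=
      mul_le_mul_of_nonneg_left k3 (by positivity)
    linarith
  rw [Nat.cast_mul, Nat.cast_mul, Nat.cast_add, Nat.cast_one, Nat.cast_mul] at h3
  have hh : (1 : ℝ) ≤ h := by exact_mod_cast h1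
  refine h3.trans ?_
  have e1 : ((h : ℝ) + 1) * (c * (gg b N : ℝ)) * ((N * h / (gg b N * p) : ℕ) : ℝ) =
    (((h : ℝ) + 1) * c) * ((gg b N : ℝ) * ((N * h / (gg b N * p) : ℕ) : ℝ)) := by ring
  have e2 : 2 * (c : ℝ) * N * (h : ℝ) ^ 2 * (z : ℝ)⁻¹ = (2 * h * c) * (N * h * (z : ℝ)⁻¹) := by ring
  rw [e1, e2]
  exact mul_le_mul (mul_le_mul_of_nonneg_right (by linarith) (Nat.cast_nonneg _)) a2
    (by positivity) (by positivity)

theorem EE_le {p : ℕ} (hp : p.Prime) {w : ℕ × ℕ} (hw : w ∈ PP D N h A) (hE : EE D p w) :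
    p ≤ D * (N * h) + N * h + D * (N * h) := by
  have h1 := PP_lt hw
  rw [mem_PP] at hw
  have e3 : D * w.2 ≤ D * (N * h) := Nat.mul_le_mul_left _ hw.2.1.2
  have h2 : ∀ m, 0 < m → p ^ 2 ∣ m → p ≤ m := fun m h h' => by
    have := Nat.le_of_dvd h h'
    have h4 : p ≤ p ^ 2 := Nat.le_self_pow two_ne_zero p
    omega
  unfold EE at hE
  rcases hE with h | h | h | h | ⟨h, -⟩
  · have := h2 _ (by omega) h
    omega
  · have := h2 _ (by omega) h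
    omega
  · have := h2 _ (by omega) h
    omega
  · have := h2 _ (by omega) h
    omega
  · have := Nat.le_of_dvd (by omega) h
    omega

theorem sum_inv_sq_le {u v : ℕ} (hu : 1 ≤ u) (S : Finset ℕ) (hS : S ⊆ Ioc u v) :
    ∑ p ∈ S, ((p : ℝ) ^ 2)⁻¹ ≤ (u : ℝ)⁻¹ := by
  rcases le_or_gt u v with h | h
  · refine (Finset.sum_le_sum_of_subset_of_nonneg hS fun i _ _ => by positivity).trans ?_
    refine (sum_Ioc_inv_sq_le_sub (by omega) h).trans ?_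
    have : (0 : ℝ) ≤ (v : ℝ)⁻¹ := by positivity
    linarith
  · have : S = ∅ := by
      rw [Finset.Ioc_eq_empty (by omega)] at hS
      exact Finset.subset_empty.1 hS
    rw [this, Finset.sum_empty]
    positivity

theorem sum_inv_le {u v : ℕ} (S : Finset ℕ) (hS : S ⊆ Ioc u v) :
    ∑ p ∈ S, (p : ℝ)⁻¹ ≤ 1 + Real.log v := by
  have h1 : S ⊆ Icc 1 v := fun x hx => by
    have := Finset.mem_Ioc.1 (hS hx)
    rw [Finset.mem_Icc]
    omega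
  refine (Finset.sum_le_sum_of_subset_of_nonneg h1 fun i _ _ => by positivity).trans ?_
  have h2 := harmonic_le_one_add_log v
  rw [harmonic_eq_sum_Icc] at h2
  push_cast at h2
  exact h2

/-- The number of bad pairs. -/
theorem bad_le (hD : ∀ p, p.Prime → (p < 300 ↔ p ∣ D)) (hb : Squarefree b) (hL : 300 ≤ L)
    (hLN : ∀ p, p.Prime → p ≤ L → p ^ 2 ∣ N)
    (hA : LS (D : ZMod N) (b : ZMod N) (gg b N) K c A) (h1 : 1 ≤ h) (hLz : L ≤ z) :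
    (((PP D N h A).filter fun w => ¬ Squarefree (nn D w)).card : ℝ) ≤
      A.card * (10 * (h : ℝ) ^ 2 * (L : ℝ)⁻¹ + 10 * h * z) +
      ((c : ℝ) * N * (h : ℝ) ^ 2 * (9 * D + 9) * (z : ℝ)⁻¹ + c * (D + 1) * N * h *
        (1 + Real.log (D * (N * h) + N * h + D * (N * h) : ℕ))) +
      ((N.primeFactors.filter fun p => L < p).card : ℝ) *
        (A.card * (2 * (h : ℝ) ^ 2 * (L : ℝ)⁻¹ + 2 * h) +
          2 * (c : ℝ) * N * (h : ℝ) ^ 2 * (z : ℝ)⁻¹) := by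
  classical
  set B := D * (N * h) + N * h + D * (N * h) with hB
  set S1 := (Ioc L z).filter fun p => p.Prime ∧ ¬ p ∣ N with hS1
  set S2 := (Ioc z B).filter fun p => p.Prime ∧ ¬ p ∣ N with hS2
  set T := N.primeFactors.filter fun p => L < p with hT
  set T' := T.filter fun p => ¬ p ^ 2 ∣ N ∧ p ∣ b with hT'
  have hsub : (PP D N h A).filter (fun w => ¬ Squarefree (nn D w)) ⊆
      (S1.biUnion fun p => (PP D N h A).filter (EE D p)) ∪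
      ((S2.biUnion fun p => (PP D N h A).filter (EE D p)) ∪
      (T'.biUnion fun p => (PP D N h A).filter fun w => p ^ 2 ∣ w.2)) := by
    intro w hw
    rw [mem_filter] at hw
    obtain ⟨p, hp, hLp, hc⟩ := bad_type hD hb hL hLN hA hw.1 hw.2
    rw [mem_union, mem_union, mem_biUnion, mem_biUnion, mem_biUnion]
    rcases hc with ⟨hpN, hE⟩ | ⟨hpN, hpN2, hpb, hpy⟩
    · rcases le_or_gt p z with hz | hz
      · left
        refine ⟨p, ?_, mem_filter.2 ⟨hw.1, hE⟩⟩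
        rw [hS1, mem_filter, mem_Ioc]
        exact ⟨⟨hLp, hz⟩, hp, hpN⟩
      · right
        left
        refine ⟨p, ?_, mem_filter.2 ⟨hw.1, hE⟩⟩
        rw [hS2, mem_filter, mem_Ioc]
        exact ⟨⟨hz, EE_le hp hw.1 hE⟩, hp, hpN⟩
    · right
      right
      refine ⟨p, ?_, mem_filter.2 ⟨hw.1, hpy⟩⟩
      rw [hT', mem_filter, hT, mem_filter, Nat.mem_primeFactors]
      exact ⟨⟨⟨hp, hpN, NeZero.ne N⟩, hLp⟩, hpN2, hpb⟩
  have hcard := (card_le_card hsub).trans ((card_union_le _ _).trans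
    (Nat.add_le_add_left (card_union_le _ _) _))
  have hcard2 := hcard.trans (Nat.add_le_add card_biUnion_le
    (Nat.add_le_add card_biUnion_le card_biUnion_le))
  have hcard3 : (((PP D N h A).filter fun w => ¬ Squarefree (nn D w)).card : ℝ) ≤
      (∑ p ∈ S1, (((PP D N h A).filter (EE D p)).card : ℝ)) +
      ((∑ p ∈ S2, (((PP D N h A).filter (EE D p)).card : ℝ)) +
      ∑ p ∈ T', (((PP D N h A).filter fun w => p ^ 2 ∣ w.2).card : ℝ)) := by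
    exact_mod_cast hcard2
  refine hcard3.trans ?_
  have hz1 : 1 ≤ z := by omega
  have hz0 : (0 : ℝ) < z := by exact_mod_cast hz1
  have s1 : (∑ p ∈ S1, (((PP D N h A).filter (EE D p)).card : ℝ)) ≤
      A.card * (10 * (h : ℝ) ^ 2 * (L : ℝ)⁻¹ + 10 * h * z) := by
    have k1 : (∑ p ∈ S1, (((PP D N h A).filter (EE D p)).card : ℝ)) ≤
        ∑ p ∈ S1, (A.card : ℝ) * (10 * (h : ℝ) ^ 2 * ((p : ℝ) ^ 2)⁻¹ + 10 * h) := by
      refine sum_le_sum fun p hp => ?_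
      rw [hS1, mem_filter] at hp
      exact EE_mid_real hp.2.1 hp.2.2 h1
    refine k1.trans ?_
    rw [← mul_sum, sum_add_distrib, ← mul_sum, sum_const, nsmul_eq_mul]
    refine mul_le_mul_of_nonneg_left ?_ (Nat.cast_nonneg _)
    refine add_le_add ?_ ?_
    · exact mul_le_mul_of_nonneg_left (sum_inv_sq_le (by omega) _ (filter_subset _ _))
        (by positivity)
    · have k2 : (S1.card : ℝ) ≤ z := by
        have : S1.card ≤ z := by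
          refine (card_filter_le _ _).trans ?_
          rw [Nat.card_Ioc]
          exact Nat.sub_le _ _
        exact_mod_cast this
      have := mul_le_mul_of_nonneg_right k2 (by positivity : (0 : ℝ) ≤ 10 * (h : ℝ))
      linarith
  have s2 : (∑ p ∈ S2, (((PP D N h A).filter (EE D p)).card : ℝ)) ≤
      (c : ℝ) * N * (h : ℝ) ^ 2 * (9 * D + 9) * (z : ℝ)⁻¹ + c * (D + 1) * N * h *
        (1 + Real.log B) := by
    have k1 : (∑ p ∈ S2, (((PP D N h A).filter (EE D p)).card : ℝ)) ≤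
        ∑ p ∈ S2, ((c : ℝ) * N * (h : ℝ) ^ 2 * (9 * D + 9) * ((p : ℝ) ^ 2)⁻¹ +
          c * (D + 1) * N * h * (p : ℝ)⁻¹) := by
      refine sum_le_sum fun p hp => ?_
      rw [hS2, mem_filter] at hp
      exact EE_large_real hA hp.2.1 hp.2.2 h1
    refine k1.trans ?_
    rw [sum_add_distrib, ← mul_sum, ← mul_sum]
    refine add_le_add ?_ ?_
    · exact mul_le_mul_of_nonneg_left (sum_inv_sq_le hz1 _ (filter_subset _ _)) (by positivity)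
    · exact mul_le_mul_of_nonneg_left (sum_inv_le _ (filter_subset _ _)) (by positivity)
  have s3 : ∑ p ∈ T', (((PP D N h A).filter fun w => p ^ 2 ∣ w.2).card : ℝ) ≤
      (T.card : ℝ) * (A.card * (2 * (h : ℝ) ^ 2 * (L : ℝ)⁻¹ + 2 * h) +
          2 * (c : ℝ) * N * (h : ℝ) ^ 2 * (z : ℝ)⁻¹) := by
    have k1 : ∑ p ∈ T', (((PP D N h A).filter fun w => p ^ 2 ∣ w.2).card : ℝ) ≤
        ∑ p ∈ T', (A.card * (2 * (h : ℝ) ^ 2 * (L : ℝ)⁻¹ + 2 * h) +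
          2 * (c : ℝ) * N * (h : ℝ) ^ 2 * (z : ℝ)⁻¹) := by
      refine sum_le_sum fun p hp => ?_
      rw [hT', mem_filter, hT, mem_filter, Nat.mem_primeFactors] at hp
      obtain ⟨⟨⟨hp1, hp2, -⟩, hp3⟩, hp4, hp5⟩ := hp
      rcases le_or_gt p z with hz | hz
      · have := GG_mid_real (D := D) (h := h) (A := A) hp1 hp2 hp4 h1 (by omega) hp3
        have k3 : (0 : ℝ) ≤ 2 * (c : ℝ) * N * (h : ℝ) ^ 2 * (z : ℝ)⁻¹ := by positivity
        linarith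
      · have := GG_large_real hA hp1 (by omega) hp2 hp5 h1 hz1 hz
        have k3 : (0 : ℝ) ≤ A.card * (2 * (h : ℝ) ^ 2 * (L : ℝ)⁻¹ + 2 * h) := by positivity
        linarith
    refine k1.trans ?_
    rw [sum_const, nsmul_eq_mul]
    refine mul_le_mul_of_nonneg_right ?_ (by positivity)
    exact_mod_cast card_filter_le _ _
  linarith

/-- The sieve. -/
theorem sieve (hD : ∀ p, p.Prime → (p < 300 ↔ p ∣ D)) (hb : Squarefree b) (hL : 300 ≤ L)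
    (hLN : ∀ p, p.Prime → p ≤ L → p ^ 2 ∣ N)
    (hA : LS (D : ZMod N) (b : ZMod N) (gg b N) K c A) (h1 : 1 ≤ h) (hLz : L ≤ z)
    (hnum : 10 * (L : ℝ)⁻¹ + 10 * z * (h : ℝ)⁻¹ +
      c * K * ((9 * D + 9) * (z : ℝ)⁻¹ +
        (D + 1) * (1 + Real.log (D * (N * h) + N * h + D * (N * h) : ℕ)) * (h : ℝ)⁻¹) +
      ((N.primeFactors.filter fun p => L < p).card : ℝ) *
        (2 * (L : ℝ)⁻¹ + 2 * (h : ℝ)⁻¹ + c * K * (2 * (z : ℝ)⁻¹)) ≤ 1 / 2) :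
    (N : ℝ) * (h : ℝ) ^ 2 ≤
      2 * K * (((PP D N h A).filter fun w => Squarefree (nn D w)).card : ℝ) := by
  have hbad := bad_le hD hb hL hLN hA h1 hLz
  have htot := Finset.card_filter_add_card_filter_not (s := PP D N h A)
    (fun w => Squarefree (nn D w))
  have hlow := PP_lower (D := D) (N := N) (h := h) (A := A)
  have hbig := hA.big
  rw [ZMod.card] at hbig
  set w := ((N.primeFactors.filter fun p => L < p).card : ℝ) with hw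
  have hw0 : 0 ≤ w := Nat.cast_nonneg _
  set a := (A.card : ℝ) with ha
  have ha0 : 0 ≤ a := Nat.cast_nonneg _
  have hlow' : a * (h : ℝ) ^ 2 ≤ ((PP D N h A).card : ℝ) := by
    rw [ha]
    exact_mod_cast hlow
  have hbig' : (N : ℝ) ≤ K * a := by
    rw [ha]
    exact_mod_cast hbig
  have htot' : (((PP D N h A).filter fun w => Squarefree (nn D w)).card : ℝ) +
      (((PP D N h A).filter fun w => ¬ Squarefree (nn D w)).card : ℝ) = ((PP D N h A).card : ℝ) := by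
    exact_mod_cast htot
  have hh : (1 : ℝ) ≤ h := by exact_mod_cast h1
  have hh0 : (0 : ℝ) < h := by linarith
  have hz0 : (0 : ℝ) < z := by
    have : 1 ≤ z := by omega
    exact_mod_cast this
  have hc0 : (0 : ℝ) ≤ c := Nat.cast_nonneg _
  have hD0 : (0 : ℝ) ≤ D := Nat.cast_nonneg _
  have hK0 : (0 : ℝ) ≤ K := Nat.cast_nonneg _
  set lg := 1 + Real.log (D * (N * h) + N * h + D * (N * h) : ℕ) with hlg
  have hlg0 : 0 ≤ lg := by
    rw [hlg]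
    have := Real.log_natCast_nonneg (D * (N * h) + N * h + D * (N * h))
    linarith
  -- compare
  have k1 : (c : ℝ) * N * (h : ℝ) ^ 2 * (9 * D + 9) * (z : ℝ)⁻¹ ≤
      a * (h : ℝ) ^ 2 * (c * K * ((9 * D + 9) * (z : ℝ)⁻¹)) := by
    have := mul_le_mul_of_nonneg_right hbig'
      (by positivity : (0 : ℝ) ≤ (c : ℝ) * (h : ℝ) ^ 2 * (9 * D + 9) * (z : ℝ)⁻¹)
    linarith
  have k2 : (c : ℝ) * (D + 1) * N * h * lg ≤
      a * (h : ℝ) ^ 2 * (c * K * ((D + 1) * lg * (h : ℝ)⁻¹)) := by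
    have h5 := mul_le_mul_of_nonneg_right hbig'
      (by positivity : (0 : ℝ) ≤ (c : ℝ) * (D + 1) * h * lg)
    have h6 : a * (h : ℝ) ^ 2 * (c * K * ((D + 1) * lg * (h : ℝ)⁻¹)) =
        K * a * ((c : ℝ) * (D + 1) * h * lg) := by
      field_simp
    rw [h6]
    linarith
  have k3 : 2 * (c : ℝ) * N * (h : ℝ) ^ 2 * (z : ℝ)⁻¹ ≤
      a * (h : ℝ) ^ 2 * (c * K * (2 * (z : ℝ)⁻¹)) := by
    have := mul_le_mul_of_nonneg_right hbig'
      (by positivity : (0 : ℝ) ≤ 2 * (c : ℝ) * (h : ℝ) ^ 2 * (z : ℝ)⁻¹)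
    linarith
  have k4 : a * (10 * (h : ℝ) ^ 2 * (L : ℝ)⁻¹ + 10 * h * z) =
      a * (h : ℝ) ^ 2 * (10 * (L : ℝ)⁻¹ + 10 * z * (h : ℝ)⁻¹) := by
    field_simp
  have k5 : a * (2 * (h : ℝ) ^ 2 * (L : ℝ)⁻¹ + 2 * h) =
      a * (h : ℝ) ^ 2 * (2 * (L : ℝ)⁻¹ + 2 * (h : ℝ)⁻¹) := by
    field_simp
  have k6 : (((PP D N h A).filter fun w => ¬ Squarefree (nn D w)).card : ℝ) ≤
      a * (h : ℝ) ^ 2 * (1 / 2) := by
    refine hbad.trans ?_
    have h7 := mul_le_mul_of_nonneg_left hnum (by positivity : 0 ≤ a * (h : ℝ) ^ 2)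
    refine le_trans ?_ h7
    have h8 := mul_le_mul_of_nonneg_left k3 hw0
    rw [k4, k5]
    have e1 : a * (h : ℝ) ^ 2 * (10 * (L : ℝ)⁻¹ + 10 * z * (h : ℝ)⁻¹ +
        c * K * ((9 * D + 9) * (z : ℝ)⁻¹ + (D + 1) * lg * (h : ℝ)⁻¹) +
        w * (2 * (L : ℝ)⁻¹ + 2 * (h : ℝ)⁻¹ + c * K * (2 * (z : ℝ)⁻¹))) =
        a * (h : ℝ) ^ 2 * (10 * (L : ℝ)⁻¹ + 10 * z * (h : ℝ)⁻¹) +
        (a * (h : ℝ) ^ 2 * (c * K * ((9 * D + 9) * (z : ℝ)⁻¹)) +
          a * (h : ℝ) ^ 2 * (c * K * ((D + 1) * lg * (h : ℝ)⁻¹))) +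
        (w * (a * (h : ℝ) ^ 2 * (2 * (L : ℝ)⁻¹ + 2 * (h : ℝ)⁻¹)) +
          w * (a * (h : ℝ) ^ 2 * (c * K * (2 * (z : ℝ)⁻¹)))) := by ring
    rw [e1, mul_add w]
    linarith
  have k7 : a * (h : ℝ) ^ 2 * (1 / 2) ≤
      (((PP D N h A).filter fun w => Squarefree (nn D w)).card : ℝ) := by linarith
  have k8 := mul_le_mul_of_nonneg_right hbig' (by positivity : (0 : ℝ) ≤ (h : ℝ) ^ 2)
  have k9 := mul_le_mul_of_nonneg_left k7 (by positivity : (0 : ℝ) ≤ 2 * (K : ℝ))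
  linarith

end re

end Pool.Agent.V7H64.CG
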