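import Pool.Agent.V7H64.CG.Sieve
import Pool.Agent.V7H64.CG.Ar
set_option autoImplicit false

/-!
From pairs to congruent numbers.
-/

namespace Pool.Agent.V7H64.CG

open Finset

set_option linter.unusedSectionVars false

section st

variable {D b N h L z K c q : ℕ} [NeZero N] {A : Finset (ZMod N × ZMod N)}

theorem nn_le {w : ℕ × ℕ} (hw : w ∈ PP D N h A) : nn D w ≤ ((D + 1) * (N * h)) ^ 4 := by
  rw [mem_PP] at hw
  have h1 : w.1 ≤ (D + 1) * (N * h) := by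
    rw [add_mul, one_mul]
    exact hw.1.2
  have h2 : w.2 ≤ (D + 1) * (N * h) := hw.2.1.2.trans (Nat.le_mul_of_pos_left _ (by omega))
  have h3 : (w.1 - D * w.2) * (w.1 + D * w.2) ≤ w.1 ^ 2 := by
    rw [mul_comm, ← Nat.sq_sub_sq]
    exact Nat.sub_le _ _
  unfold nn
  calc w.1 * w.2 * ((w.1 - D * w.2) * (w.1 + D * w.2)) ≤
      ((D + 1) * (N * h)) * ((D + 1) * (N * h)) * ((D + 1) * (N * h)) ^ 2 :=
        Nat.mul_le_mul (Nat.mul_le_mul h1 h2) (h3.trans (Nat.pow_le_pow_left h1 2))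
    _ = _ := by ring

theorem step (hD : ∀ p, p.Prime → (p < 300 ↔ p ∣ D)) (hb : Squarefree b) (hL : 300 ≤ L)
    (hLN : ∀ p, p.Prime → p ≤ L → p ^ 2 ∣ N)
    (hA : LS (D : ZMod N) (b : ZMod N) (gg b N) K c A) (h1 : 1 ≤ h) (hLz : L ≤ z)
    (hnum : 10 * (L : ℝ)⁻¹ + 10 * z * (h : ℝ)⁻¹ +
      c * K * ((9 * D + 9) * (z : ℝ)⁻¹ +
        (D + 1) * (1 + Real.log (D * (N * h) + N * h + D * (N * h) : ℕ)) * (h : ℝ)⁻¹) +
      ((N.primeFactors.filter fun p => L < p).card : ℝ) *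
        (2 * (L : ℝ)⁻¹ + 2 * (h : ℝ)⁻¹ + c * K * (2 * (z : ℝ)⁻¹)) ≤ 1 / 2)
    (hqN : q ∣ N) {M : ℝ}
    (hM : ∀ n : ℕ, Squarefree n → n ≤ ((D + 1) * (N * h)) ^ 4 → (n.divisors.card : ℝ) ^ 2 ≤ M) :
    ∃ S : Finset ℕ, (N : ℝ) * (h : ℝ) ^ 2 ≤ 2 * K * M * S.card ∧
      ∀ n ∈ S, n ≤ ((D + 1) * (N * h)) ^ 4 ∧ Squarefree n ∧ n ≡ b [MOD q] ∧
        ∃ x y : ℕ, 0 < y ∧ D * y < x ∧ n = x * y * ((x - D * y) * (x + D * y)) := by
  classical
  have hs := sieve hD hb hL hLN hA h1 hLz hnum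
  set G := (PP D N h A).filter fun w => Squarefree (nn D w) with hG
  refine ⟨G.image (nn D), hs.trans ?_, fun n hn => ?_⟩
  · rw [mul_assoc (2 * (K : ℝ))]
    refine mul_le_mul_of_nonneg_left ?_ (by positivity)
    rw [Finset.card_eq_sum_card_image (nn D) G, Nat.cast_sum]
    have h2 : ∀ n ∈ G.image (nn D), ((G.filter fun w => nn D w = n).card : ℝ) ≤ M := by
      intro n hn
      rw [mem_image] at hn
      obtain ⟨w0, hw0, rfl⟩ := hn
      rw [hG, mem_filter] at hw0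
      refine le_trans ?_ (hM _ hw0.2 (nn_le hw0.1))
      have h3 : (G.filter fun w => nn D w = nn D w0).card ≤ (nn D w0).divisors.card ^ 2 := by
        rw [sq, ← card_product]
        refine card_le_card fun w hw => ?_
        rw [mem_filter] at hw
        have hne : nn D w0 ≠ 0 := hw0.2.ne_zero
        rw [mem_product, Nat.mem_divisors, Nat.mem_divisors, ← hw.2]
        rw [← hw.2] at hne
        refine ⟨⟨?_, hne⟩, ⟨?_, hne⟩⟩
        · unfold nn
          rw [mul_assoc]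
          exact dvd_mul_right _ _
        · unfold nn
          rw [mul_comm w.1, mul_assoc]
          exact dvd_mul_right _ _
      exact_mod_cast h3
    refine (Finset.sum_le_sum h2).trans (le_of_eq ?_)
    rw [sum_const, nsmul_eq_mul, mul_comm]
  · rw [mem_image] at hn
    obtain ⟨w, hw, rfl⟩ := hn
    rw [hG, mem_filter] at hw
    refine ⟨nn_le hw.1, hw.2, (nn_modEq hA hw.1).of_dvd hqN, w.1, w.2, ?_, PP_lt hw.1, rfl⟩
    exact (mem_PP.1 hw.1).2.1.1

end st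

end Pool.Agent.V7H64.CG
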