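import Pool.Agent.V7H64.CG.Loc
set_option autoImplicit false

/-!
Systems of solutions of `x y (x ^ 2 - D ^ 2 y ^ 2) = b` modulo all natural numbers.
-/

namespace Pool.Agent.V7H64.CG

open Finset

set_option linter.unusedSectionVars false

theorem LS.mono {R : Type*} [CommRing R] [Fintype R] [DecidableEq R] {D b : R} {g K c K' c' : ℕ}
    {A : Finset (R × R)} (h : LS D b g K c A) (hK : K ≤ K') (hc : c ≤ c') : LS D b g K' c' A where
  eqn := h.eqn
  unit := h.unit
  big := h.big.trans (Nat.mul_le_mul_right _ hK)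
  fx := fun x => (h.fx x).trans hc
  fy := fun y => (h.fy y).trans (Nat.mul_le_mul_right _ hc)
  gy := h.gy
  fm := fun l => (h.fm l).trans hc
  fp := fun l => (h.fp l).trans hc

section prod

variable {R R1 R2 : Type*} [CommRing R] [Fintype R] [DecidableEq R] [CommRing R1] [Fintype R1]
  [DecidableEq R1] [CommRing R2] [Fintype R2] [DecidableEq R2] (e : R ≃+* R1 × R2)

/-- first component -/
def pr1 (z : R × R) : R1 × R1 := ((e z.1).1, (e z.2).1)

/-- second component -/
def pr2 (z : R × R) : R2 × R2 := ((e z.1).2, (e z.2).2)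

theorem pr_ext {z z' : R × R} (h1 : pr1 e z = pr1 e z') (h2 : pr2 e z = pr2 e z') : z = z' := by
  unfold pr1 at h1
  unfold pr2 at h2
  rw [Prod.mk.injEq] at h1 h2
  exact Prod.ext (e.injective (Prod.ext h1.1 h2.1)) (e.injective (Prod.ext h1.2 h2.2))

theorem fib_prod {A1 : Finset (R1 × R1)} {A2 : Finset (R2 × R2)} {φ : R × R → R}
    {φ1 : R1 × R1 → R1} {φ2 : R2 × R2 → R2} (h1 : ∀ z, (e (φ z)).1 = φ1 (pr1 e z))
    (h2 : ∀ z, (e (φ z)).2 = φ2 (pr2 e z)) {n1 n2 : ℕ}
    (hn1 : ∀ l, (A1.filter fun z => φ1 z = l).card ≤ n1)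
    (hn2 : ∀ l, (A2.filter fun z => φ2 z = l).card ≤ n2) (l : R) :
    ((univ.filter fun z : R × R => pr1 e z ∈ A1 ∧ pr2 e z ∈ A2).filter fun z => φ z = l).card ≤
      n1 * n2 := by
  refine le_trans (card_le_of_inj _ ((A1.filter fun z => φ1 z = (e l).1) ×ˢ
    (A2.filter fun z => φ2 z = (e l).2)) (fun z => (pr1 e z, pr2 e z)) (fun z hz => ?_)
    (fun z _ z' _ h => ?_) le_rfl) ?_
  · rw [Finset.mem_filter, Finset.mem_filter] at hz
    rw [Finset.mem_product, Finset.mem_filter, Finset.mem_filter, ← h1, ← h2, hz.2]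
    exact ⟨⟨hz.1.2.1, rfl⟩, hz.1.2.2, rfl⟩
  · rw [Prod.mk.injEq] at h
    exact pr_ext e h.1 h.2
  · rw [Finset.card_product]
    exact Nat.mul_le_mul (hn1 _) (hn2 _)

theorem LS.prod {D b : R} {D1 b1 : R1} {D2 b2 : R2} (hD : e D = (D1, D2)) (hb : e b = (b1, b2))
    {g1 g2 K1 K2 c1 c2 : ℕ} {A1 : Finset (R1 × R1)} {A2 : Finset (R2 × R2)}
    (h1 : LS D1 b1 g1 K1 c1 A1) (h2 : LS D2 b2 g2 K2 c2 A2) (hg2 : IsUnit (g2 : R1))
    (hg1 : IsUnit (g1 : R2)) :
    LS D b (g1 * g2) (K1 * K2) (c1 * c2)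
      (univ.filter fun z : R × R => pr1 e z ∈ A1 ∧ pr2 e z ∈ A2) := by
  have memA : ∀ z, z ∈ (univ.filter fun z : R × R => pr1 e z ∈ A1 ∧ pr2 e z ∈ A2) ↔
      pr1 e z ∈ A1 ∧ pr2 e z ∈ A2 := fun z => by
    rw [Finset.mem_filter]
    exact ⟨fun h => h.2, fun h => ⟨Finset.mem_univ _, h⟩⟩
  refine ⟨?_, ?_, ?_, ?_, ?_, ?_, ?_, ?_⟩
  · intro z hz
    rw [memA] at hz
    apply e.injective
    have k1 := h1.eqn _ hz.1
    have k2 := h2.eqn _ hz.2
    unfold pr1 at k1
    unfold pr2 at k2
    rw [hb]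
    refine Prod.ext ?_ ?_
    · simp only
      rw [← k1]
      unfold G
      rw [map_mul, map_mul, map_sub, map_mul, map_pow, map_pow, map_pow, hD]
      simp
    · simp only
      rw [← k2]
      unfold G
      rw [map_mul, map_mul, map_sub, map_mul, map_pow, map_pow, map_pow, hD]
      simp
  · intro z hz
    rw [memA] at hz
    have k1 := h1.unit _ hz.1
    have k2 := h2.unit _ hz.2
    have k3 : IsUnit (e z.1) := Prod.isUnit_iff.2 ⟨k1, k2⟩
    have k4 := k3.map e.symm
    rwa [RingEquiv.symm_apply_apply] at k4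
  · have k1 : Fintype.card R = Fintype.card R1 * Fintype.card R2 := by
      rw [← Fintype.card_prod]
      exact Fintype.card_congr e.toEquiv
    have k2 : (A1 ×ˢ A2).card ≤
        (univ.filter fun z : R × R => pr1 e z ∈ A1 ∧ pr2 e z ∈ A2).card := by
      have e1 : ∀ w : (R1 × R1) × (R2 × R2), pr1 e (e.symm (w.1.1, w.2.1), e.symm (w.1.2, w.2.2)) =
          w.1 := fun w => by
        unfold pr1
        simp
      have e2 : ∀ w : (R1 × R1) × (R2 × R2), pr2 e (e.symm (w.1.1, w.2.1), e.symm (w.1.2, w.2.2)) =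
          w.2 := fun w => by
        unfold pr2
        simp
      refine Finset.card_le_card_of_injOn
        (fun w => (e.symm (w.1.1, w.2.1), e.symm (w.1.2, w.2.2))) (fun w hw => ?_)
        fun w _ w' _ h => ?_
      · rw [Finset.mem_coe, Finset.mem_product] at hw
        rw [Finset.mem_coe, memA, e1, e2]
        exact hw
      · refine Prod.ext ?_ ?_
        · rw [← e1 w, ← e1 w']
          exact congrArg (pr1 e) h
        · rw [← e2 w, ← e2 w']
          exact congrArg (pr2 e) h
    rw [Finset.card_product] at k2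
    rw [k1]
    calc Fintype.card R1 * Fintype.card R2 ≤ (K1 * A1.card) * (K2 * A2.card) :=
          Nat.mul_le_mul h1.big h2.big
      _ = K1 * K2 * (A1.card * A2.card) := by ring
      _ ≤ _ := Nat.mul_le_mul_left _ k2
  · exact fun x => fib_prod e (φ := fun z => z.1) (φ1 := fun z => z.1) (φ2 := fun z => z.1)
      (fun _ => rfl) (fun _ => rfl) h1.fx h2.fx x
  · intro y
    have := fib_prod e (φ := fun z => z.2) (φ1 := fun z => z.2) (φ2 := fun z => z.2)
      (fun _ => rfl) (fun _ => rfl) h1.fy h2.fy y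
    refine this.trans (le_of_eq ?_)
    ring
  · intro z hz
    rw [memA] at hz
    obtain ⟨t1, ht1⟩ := h1.gy _ hz.1
    obtain ⟨t2, ht2⟩ := h2.gy _ hz.2
    obtain ⟨u2, hu2⟩ := hg2
    obtain ⟨u1, hu1⟩ := hg1
    refine ⟨e.symm ((u2⁻¹ : R1ˣ) * t1, (u1⁻¹ : R2ˣ) * t2), ?_⟩
    apply e.injective
    rw [map_mul, RingEquiv.apply_symm_apply, map_natCast]
    refine Prod.ext ?_ ?_
    · rw [Prod.fst_mul, Prod.fst_natCast]
      push_cast
      rw [← hu2, mul_assoc, Units.mul_inv_cancel_left]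
      exact ht1
    · rw [Prod.snd_mul, Prod.snd_natCast]
      push_cast
      rw [← hu1, mul_comm ((u1 : R2ˣ) : R2), mul_assoc, Units.mul_inv_cancel_left]
      exact ht2
  · exact fun l => fib_prod e (φ := fun z => z.1 - D * z.2) (φ1 := fun z => z.1 - D1 * z.2)
      (φ2 := fun z => z.1 - D2 * z.2)
      (fun z => by rw [map_sub, map_mul, hD]; rfl)
      (fun z => by rw [map_sub, map_mul, hD]; rfl) h1.fm h2.fm l
  · exact fun l => fib_prod e (φ := fun z => z.1 + D * z.2) (φ1 := fun z => z.1 + D1 * z.2)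
      (φ2 := fun z => z.1 + D2 * z.2)
      (fun z => by rw [map_add, map_mul, hD]; rfl)
      (fun z => by rw [map_add, map_mul, hD]; rfl) h1.fp h2.fp l

end prod

section pp

theorem pow_dvd_aux {p k e m n : ℕ} (hp : p.Prime) (hm : ¬ p ^ (e + 1) ∣ m) (h : p ^ k ∣ m * n) :
    p ^ (k - e) ∣ n := by
  have := Fact.mk hp
  rcases Nat.eq_zero_or_pos n with rfl | hn
  · exact dvd_zero _
  have hm0 : m ≠ 0 := by
    rintro rfl
    exact hm (dvd_zero _)
  rw [padicValNat_dvd_iff_le hn.ne']
  rw [padicValNat_dvd_iff_le (mul_ne_zero hm0 hn.ne'), padicValNat.mul hm0 hn.ne'] at h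
  rw [padicValNat_dvd_iff_le hm0] at hm
  omega

theorem card_ann {p k e m : ℕ} (hp : p.Prime) [NeZero (p ^ k)] (hm : ¬ p ^ (e + 1) ∣ m) :
    (univ.filter fun t : ZMod (p ^ k) => (m : ZMod (p ^ k)) * t = 0).card ≤ p ^ e := by
  have hd : ∀ t ∈ univ.filter fun t : ZMod (p ^ k) => (m : ZMod (p ^ k)) * t = 0,
      p ^ (k - e) ∣ t.val := by
    intro t ht
    rw [Finset.mem_filter] at ht
    refine pow_dvd_aux hp hm ?_
    rw [← ZMod.natCast_eq_zero_iff]
    push_cast
    rw [ZMod.natCast_zmod_val]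
    exact ht.2
  refine card_le_of_inj _ (range (p ^ e)) (fun t => t.val / p ^ (k - e)) (fun t ht => ?_)
    (fun t ht t' ht' h => ?_) (by rw [Finset.card_range])
  · rw [Finset.mem_range]
    refine Nat.div_lt_of_lt_mul (lt_of_lt_of_le (ZMod.val_lt t) ?_)
    rw [← pow_add]
    exact Nat.pow_le_pow_right hp.pos (by omega)
  · apply ZMod.val_injective
    have h1 := Nat.div_mul_cancel (hd t ht)
    have h2 := Nat.div_mul_cancel (hd t' ht')
    rw [← h1, ← h2]
    exact congrArg (· * p ^ (k - e)) h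

theorem isUnit_of {p k : ℕ} (hp : p.Prime) (hk : k ≠ 0) [NeZero (p ^ k)] (u : ZMod (p ^ k))
    (hu : ZMod.castHom (dvd_pow_self p hk) (ZMod p) u ≠ 0) : IsUnit u := by
  rw [← ZMod.natCast_zmod_val u] at hu ⊢
  rw [map_natCast, Ne, ZMod.natCast_eq_zero_iff] at hu
  rw [ZMod.isUnit_iff_coprime]
  exact Nat.Coprime.pow_right k ((Nat.Prime.coprime_iff_not_dvd hp).2 hu).symm

theorem ker_eq {p k : ℕ} (hk : k ≠ 0) [NeZero (p ^ k)] (u : ZMod (p ^ k))
    (hu : ZMod.castHom (dvd_pow_self p hk) (ZMod p) u = 0) : ∃ t, u = (p : ZMod (p ^ k)) * t := by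
  rw [← ZMod.natCast_zmod_val u] at hu ⊢
  rw [map_natCast, ZMod.natCast_eq_zero_iff] at hu
  obtain ⟨t, ht⟩ := hu
  exact ⟨t, by rw [ht]; push_cast; rfl⟩

/-- The constant. -/
def k0 : ℕ := 90000

/-- The product of the large primes dividing `b` and `N`. -/
def gg (b N : ℕ) : ℕ := ∏ p ∈ N.primeFactors.filter fun p => 300 ≤ p ∧ p ∣ b, p

theorem exists_pp {p k : ℕ} (hp : p.Prime) (hk : k ≠ 0) [NeZero (p ^ k)] {D b : ℕ}
    (hD : ∀ p, p.Prime → (p < 300 ↔ p ∣ D)) (hb : Squarefree b) :
    ∃ A, LS (D : ZMod (p ^ k)) (b : ZMod (p ^ k)) (if 300 ≤ p ∧ p ∣ b then p else 1) k0 k0 A := by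
  have := Fact.mk hp
  set π := ZMod.castHom (dvd_pow_self p hk) (ZMod p) with hπdef
  have hπ : Function.Surjective π := ZMod.castHom_surjective _
  have hu : ∀ u : ZMod (p ^ k), π u ≠ 0 → IsUnit u := fun u h => isUnit_of hp hk u h
  have hker : ∀ u : ZMod (p ^ k), π u = 0 → ∃ t, u = (p : ZMod (p ^ k)) * t :=
    fun u h => ker_eq hk u h
  have hcF : Fintype.card (ZMod p) = p := ZMod.card p
  have hcR : Fintype.card (ZMod (p ^ k)) = p ^ k := ZMod.card _
  have hpb : ¬ p ^ (1 + 1) ∣ b := by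
    intro h
    have h1 := Nat.squarefree_iff_prime_squarefree.1 hb p hp
    apply h1
    rwa [← sq]
  by_cases h3 : p < 300
  · rw [if_neg fun h => absurd h.1 (by omega)]
    have hD0 : π (D : ZMod (p ^ k)) = 0 := by
      rw [map_natCast, ZMod.natCast_eq_zero_iff]
      exact (hD p hp).1 h3
    have hq : ∀ r : ZMod (p ^ k), π r = 0 → ∃ s, π (3 : ZMod (p ^ k)) ≠ 0 ∨ r = 3 * s := by
      intro r hr
      by_cases hp3 : p = 3
      · obtain ⟨t, ht⟩ := hker r hr
        refine ⟨t, Or.inr ?_⟩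
        have hc : ((p : ℕ) : ZMod (p ^ k)) = ((3 : ℕ) : ZMod (p ^ k)) :=
          congrArg (fun n : ℕ => (n : ZMod (p ^ k))) hp3
        rw [ht, hc]
        norm_num
      · refine ⟨0, Or.inl ?_⟩
        have h4 : π (3 : ZMod (p ^ k)) = ((3 : ℕ) : ZMod p) := by
          rw [map_ofNat]
          norm_num
        rw [h4, Ne, ZMod.natCast_eq_zero_iff]
        intro h5
        exact hp3 ((Nat.prime_dvd_prime_iff_eq hp Nat.prime_three).1 h5)
    have hC : (univ.filter fun t : ZMod (p ^ k) =>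
        3 * (b : ZMod (p ^ k)) * t = 0).card ≤ k0 := by
      have h4 : ¬ p ^ (2 + 1) ∣ 3 * b := by
        intro h5
        by_cases hp3 : p = 3
        · subst hp3
          apply hpb
          have : 3 * 3 ^ (1 + 1) ∣ 3 * b := by
            refine dvd_trans (dvd_of_eq ?_) h5
            norm_num
          exact Nat.dvd_of_mul_dvd_mul_left (by norm_num) this
        · apply hpb
          have h6 : Nat.Coprime (p ^ (2 + 1)) 3 :=
            Nat.Coprime.pow_left _ ((Nat.coprime_primes hp Nat.prime_three).2 hp3)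
          have h7 := h6.dvd_of_dvd_mul_left h5
          exact dvd_trans (pow_dvd_pow p (by norm_num)) h7
      have h5 := card_ann (k := k) hp h4
      have h6 : p ^ 2 ≤ k0 := by
        unfold k0
        calc p ^ 2 ≤ 300 ^ 2 := Nat.pow_le_pow_left h3.le 2
          _ = 90000 := by norm_num
      refine le_trans (le_of_eq ?_) (h5.trans h6)
      congr 1
      refine Finset.filter_congr fun t _ => ?_
      push_cast
      rfl
    obtain ⟨A, hA⟩ := ls_small hπ hu hD0 hq hC (by unfold k0; norm_num)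
    refine ⟨A, hA.mono ?_ le_rfl⟩
    rw [hcF]
    unfold k0
    omega
  · push Not at h3
    have h3F : (3 : ZMod p) ≠ 0 := by
      have h4 : (3 : ZMod p) = ((3 : ℕ) : ZMod p) := by norm_num
      rw [h4, Ne, ZMod.natCast_eq_zero_iff]
      intro h5
      have := (Nat.prime_dvd_prime_iff_eq hp Nat.prime_three).1 h5
      omega
    by_cases hb0 : p ∣ b
    · rw [if_pos ⟨h3, hb0⟩]
      have hb1 : π (b : ZMod (p ^ k)) = 0 := by
        rw [map_natCast, ZMod.natCast_eq_zero_iff]
        exact hb0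
      have hann := card_ann (k := k) hp hpb
      rw [pow_one] at hann
      have hk2 : (∀ t : ZMod (p ^ k), (b : ZMod (p ^ k)) * t = 0 → π t = 0) ∨
          Fintype.card (ZMod (p ^ k)) ≤ p := by
        by_cases hk1 : k = 1
        · right
          rw [hcR, hk1, pow_one]
        · left
          intro t ht
          have h4 : p ^ (k - 1) ∣ t.val := by
            refine pow_dvd_aux hp hpb ?_
            rw [← ZMod.natCast_eq_zero_iff]
            push_cast
            rw [ZMod.natCast_zmod_val]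
            exact ht
          rw [← ZMod.natCast_zmod_val t, map_natCast, ZMod.natCast_eq_zero_iff]
          exact dvd_trans (dvd_pow_self p (by omega)) h4
      obtain ⟨A, hA⟩ := ls_div hπ hu (D := (D : ZMod (p ^ k))) h3F hb1 p hker hann hk2 hp.one_le
      exact ⟨A, hA.mono (by unfold k0; norm_num) (by unfold k0; norm_num)⟩
    · rw [if_neg fun h => hb0 h.2]
      have h2 : ringChar (ZMod p) ≠ 2 := by
        rw [ZMod.ringChar_zmod_n]
        omega
      obtain ⟨A, hA⟩ := ls_unit hπ hu (D := (D : ZMod (p ^ k))) (b := (b : ZMod (p ^ k))) h2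
        (by rw [hcF]; exact h3)
        (by
          rw [map_natCast, Ne, ZMod.natCast_eq_zero_iff]
          intro h
          have := (hD p hp).2 h
          omega)
        (by
          rw [map_natCast, Ne, ZMod.natCast_eq_zero_iff]
          exact hb0)
      exact ⟨A, hA.mono (by unfold k0; norm_num) (by unfold k0; norm_num)⟩

theorem gg_dvd (b N : ℕ) : gg b N ∣ N := by
  unfold gg
  refine dvd_trans ?_ (Nat.prod_primeFactors_dvd N)
  exact Finset.prod_dvd_prod_of_subset _ _ _ (Finset.filter_subset _ _)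

theorem exists_LS {D b : ℕ} (hD : ∀ p, p.Prime → (p < 300 ↔ p ∣ D)) (hb : Squarefree b) (N : ℕ) :
    ∀ [NeZero N], ∃ A, LS (D : ZMod N) (b : ZMod N) (gg b N) (k0 ^ N.primeFactors.card)
      (k0 ^ N.primeFactors.card) A := by
  induction N using Nat.recOnPosPrimePosCoprime with
  | prime_pow p k hp hk =>
    intro _
    have h1 := exists_pp hp hk.ne' hD hb
    have h2 : gg b (p ^ k) = if 300 ≤ p ∧ p ∣ b then p else 1 := by
      unfold gg
      rw [Nat.primeFactors_prime_pow hk.ne' hp, Finset.filter_singleton]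
      split_ifs
      · rw [Finset.prod_singleton]
      · rw [Finset.prod_empty]
    rw [h2, Nat.primeFactors_prime_pow hk.ne' hp, Finset.card_singleton, pow_one]
    exact h1
  | zero =>
    intro h
    exact absurd rfl h.out
  | one =>
    intro _
    have hs : Subsingleton (ZMod 1) := inferInstance
    refine ⟨univ, ?_, ?_, ?_, ?_, ?_, ?_, ?_, ?_⟩
    · exact fun z _ => Subsingleton.elim _ _
    · exact fun z _ => isUnit_of_subsingleton _
    · simp
    · intro x
      refine (Finset.card_le_univ _).trans ?_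
      simp
    · intro x
      refine (Finset.card_le_univ _).trans ?_
      simp [gg]
    · exact fun z _ => ⟨0, Subsingleton.elim _ _⟩
    · intro x
      refine (Finset.card_le_univ _).trans ?_
      simp
    · intro x
      refine (Finset.card_le_univ _).trans ?_
      simp
  | coprime m n hm hn hmn h1 h2 =>
    intro _
    have : NeZero m := ⟨by omega⟩
    have : NeZero n := ⟨by omega⟩
    obtain ⟨A1, h1⟩ := h1
    obtain ⟨A2, h2⟩ := h2
    have hg : gg b (m * n) = gg b m * gg b n := by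
      unfold gg
      rw [hmn.primeFactors_mul, Finset.filter_union, Finset.prod_union]
      exact Finset.disjoint_filter_filter hmn.disjoint_primeFactors
    have hc : (m * n).primeFactors.card = m.primeFactors.card + n.primeFactors.card := by
      rw [hmn.primeFactors_mul, Finset.card_union_of_disjoint hmn.disjoint_primeFactors]
    rw [hg, hc, pow_add]
    have u1 : IsUnit ((gg b n : ℕ) : ZMod m) := by
      rw [ZMod.isUnit_iff_coprime]
      exact Nat.Coprime.coprime_dvd_left (gg_dvd b n) hmn.symm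
    have u2 : IsUnit ((gg b m : ℕ) : ZMod n) := by
      rw [ZMod.isUnit_iff_coprime]
      exact Nat.Coprime.coprime_dvd_left (gg_dvd b m) hmn
    refine ⟨_, LS.prod (ZMod.chineseRemainder hmn) ?_ ?_ h1 h2 u1 u2⟩
    · rw [map_natCast]
      rfl
    · rw [map_natCast]
      rfl

end pp

end Pool.Agent.V7H64.CG
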