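import Pool.Agent.V7H64.CG.Cnt
set_option autoImplicit false

/-!
Primes whose square divides `x y (x - D y) (x + D y)`.
-/

namespace Pool.Agent.V7H64.CG

open Finset

set_option linter.unusedSectionVars false

/-- The area divided by a square. -/
def nn (D : ℕ) (w : ℕ × ℕ) : ℕ := w.1 * w.2 * ((w.1 - D * w.2) * (w.1 + D * w.2))

theorem nn_cast {N D : ℕ} {w : ℕ × ℕ} (h : D * w.2 < w.1) :
    ((nn D w : ℕ) : ZMod N) = G (D : ZMod N) (w.1 : ZMod N) (w.2 : ZMod N) := by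
  unfold nn G
  rw [Nat.cast_mul, Nat.cast_mul, Nat.cast_mul, Nat.cast_sub h.le, Nat.cast_add, Nat.cast_mul]
  ring

theorem sq_dvd_mul {p m n : ℕ} (hp : p.Prime) (hm : ¬ p ∣ m) (h : p ^ 2 ∣ m * n) : p ^ 2 ∣ n :=
  (Nat.Coprime.pow_left 2 ((Nat.Prime.coprime_iff_not_dvd hp).2 hm)).dvd_of_dvd_mul_left h

/-- The condition at a prime which does not divide `N`. -/
def EE (D p : ℕ) (w : ℕ × ℕ) : Prop :=
  p ^ 2 ∣ w.1 ∨ p ^ 2 ∣ w.2 ∨ p ^ 2 ∣ w.1 - D * w.2 ∨ p ^ 2 ∣ w.1 + D * w.2 ∨ (p ∣ w.1 ∧ p ∣ w.2)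

instance (D p : ℕ) : DecidablePred (EE D p) := fun w => by
  unfold EE
  infer_instance

theorem gg_split {b N p : ℕ} (hN : N ≠ 0) (hp : p.Prime) (h3 : 300 ≤ p) (hpN : p ∣ N)
    (hpb : p ∣ b) : ∃ g', gg b N = p * g' ∧ Nat.Coprime p g' := by
  have hm : p ∈ N.primeFactors.filter fun p => 300 ≤ p ∧ p ∣ b := by
    rw [Finset.mem_filter, Nat.mem_primeFactors]
    exact ⟨⟨hp, hpN, hN⟩, h3, hpb⟩
  refine ⟨∏ q ∈ (N.primeFactors.filter fun p => 300 ≤ p ∧ p ∣ b).erase p, q, ?_, ?_⟩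
  · unfold gg
    rw [Finset.mul_prod_erase _ (fun q => q) hm]
  · refine Nat.Coprime.prod_right fun q hq => ?_
    rw [Finset.mem_erase, Finset.mem_filter, Nat.mem_primeFactors] at hq
    exact (Nat.coprime_primes hp hq.2.1.1).2 (Ne.symm hq.1)

section ty

variable {D b N h L K c : ℕ} [NeZero N] {A : Finset (ZMod N × ZMod N)}

theorem PP_lt {w : ℕ × ℕ} (hw : w ∈ PP D N h A) : D * w.2 < w.1 := by
  rw [mem_PP] at hw
  have e3 : D * w.2 ≤ D * (N * h) := Nat.mul_le_mul_left _ hw.2.1.2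
  omega

theorem nn_modEq (hA : LS (D : ZMod N) (b : ZMod N) (gg b N) K c A) {w : ℕ × ℕ}
    (hw : w ∈ PP D N h A) : nn D w ≡ b [MOD N] := by
  refine modEq_of ?_
  rw [nn_cast (PP_lt hw)]
  rw [mem_PP] at hw
  exact hA.eqn _ hw.2.2

theorem gg_dvd_y (hA : LS (D : ZMod N) (b : ZMod N) (gg b N) K c A) {w : ℕ × ℕ}
    (hw : w ∈ PP D N h A) : gg b N ∣ w.2 := by
  rw [mem_PP] at hw
  obtain ⟨t, ht⟩ := hA.gy _ hw.2.2
  have h1 : w.2 ≡ gg b N * t.val [MOD N] := by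
    refine modEq_of ?_
    rw [Nat.cast_mul, ZMod.natCast_zmod_val]
    exact ht
  exact (h1.dvd_iff (gg_dvd b N)).2 (dvd_mul_right _ _)

theorem bad_type (hD : ∀ p, p.Prime → (p < 300 ↔ p ∣ D)) (hb : Squarefree b) (hL : 300 ≤ L)
    (hLN : ∀ p, p.Prime → p ≤ L → p ^ 2 ∣ N)
    (hA : LS (D : ZMod N) (b : ZMod N) (gg b N) K c A) {w : ℕ × ℕ} (hw : w ∈ PP D N h A)
    (hbad : ¬ Squarefree (nn D w)) :
    ∃ p, p.Prime ∧ L < p ∧ ((¬ p ∣ N ∧ EE D p w) ∨ (p ∣ N ∧ ¬ p ^ 2 ∣ N ∧ p ∣ b ∧ p ^ 2 ∣ w.2)) := by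
  have hN0 : N ≠ 0 := NeZero.ne N
  rw [Nat.squarefree_iff_prime_squarefree] at hbad
  push Not at hbad
  obtain ⟨p, hp, hpn⟩ := hbad
  rw [← sq] at hpn
  have hlt := PP_lt hw
  have hmod := nn_modEq hA hw
  have hbp : ¬ p ^ 2 ∣ b := by
    intro h
    apply Nat.squarefree_iff_prime_squarefree.1 hb p hp
    rwa [← sq]
  have hN2 : ¬ p ^ 2 ∣ N := fun h => hbp ((hmod.dvd_iff h).1 hpn)
  have hLp : L < p := by
    by_contra h
    exact hN2 (hLN p hp (not_lt.1 h))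
  refine ⟨p, hp, hLp, ?_⟩
  have hpn' : p ^ 2 ∣ w.1 * (w.2 * ((w.1 - D * w.2) * (w.1 + D * w.2))) := by
    rw [← mul_assoc]
    exact hpn
  by_cases hpN : p ∣ N
  · right
    have h1 : p ∣ nn D w := (dvd_pow_self p two_ne_zero).trans hpn
    have h2 : p ∣ b := (hmod.dvd_iff hpN).1 h1
    refine ⟨hpN, hN2, h2, ?_⟩
    obtain ⟨g', hg', -⟩ := gg_split hN0 hp (by omega) hpN h2
    have h3 : p ∣ w.2 := (by rw [hg']; exact dvd_mul_right _ _ : p ∣ gg b N).trans (gg_dvd_y hA hw)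
    have h4 : ¬ p ∣ w.1 := by
      intro h
      rw [mem_PP] at hw
      have h5 := hA.unit _ hw.2.2
      unfold red at h5
      rw [ZMod.isUnit_iff_coprime] at h5
      exact hp.one_lt.ne' (Nat.dvd_one.1 (h5 ▸ Nat.dvd_gcd h hpN))
    have h5 : ¬ p ∣ w.1 - D * w.2 := by
      intro h
      apply h4
      have : w.1 = (w.1 - D * w.2) + D * w.2 := by omega
      rw [this]
      exact dvd_add h (h3.mul_left _)
    have h6 : ¬ p ∣ w.1 + D * w.2 := by
      intro h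
      exact h4 ((Nat.dvd_add_left (h3.mul_left _)).1 h)
    have h7 := sq_dvd_mul hp h4 hpn'
    rw [mul_comm] at h7
    refine sq_dvd_mul hp ?_ h7
    intro h
    rcases (Nat.Prime.dvd_mul hp).1 h with h | h
    · exact h5 h
    · exact h6 h
  · left
    refine ⟨hpN, ?_⟩
    have hpD : ¬ p ∣ D := fun h => by
      have := (hD p hp).2 h
      omega
    unfold EE
    by_cases hx : p ∣ w.1
    · by_cases hy : p ∣ w.2
      · exact Or.inr (Or.inr (Or.inr (Or.inr ⟨hx, hy⟩)))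
      · left
        have hDy : ¬ p ∣ D * w.2 := fun h => by
          rcases (Nat.Prime.dvd_mul hp).1 h with h | h
          · exact hpD h
          · exact hy h
        rw [mul_comm] at hpn'
        refine sq_dvd_mul hp ?_ hpn'
        intro h
        rcases (Nat.Prime.dvd_mul hp).1 h with h | h
        · exact hy h
        · rcases (Nat.Prime.dvd_mul hp).1 h with h | h
          · apply hDy
            have h8 : D * w.2 = w.1 - (w.1 - D * w.2) := by omega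
            rw [h8]
            exact Nat.dvd_sub hx h
          · exact hDy ((Nat.dvd_add_right hx).1 h)
    · have h7 := sq_dvd_mul hp hx hpn'
      by_cases hy : p ∣ w.2
      · right
        left
        rw [mul_comm] at h7
        refine sq_dvd_mul hp ?_ h7
        intro h
        rcases (Nat.Prime.dvd_mul hp).1 h with h | h
        · apply hx
          have : w.1 = (w.1 - D * w.2) + D * w.2 := by omega
          rw [this]
          exact dvd_add h (hy.mul_left _)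
        · exact hx ((Nat.dvd_add_left (hy.mul_left _)).1 h)
      · have h8 := sq_dvd_mul hp hy h7
        by_cases hm : p ∣ w.1 - D * w.2
        · by_cases hq : p ∣ w.1 + D * w.2
          · exfalso
            have h9 : p ∣ 2 * w.1 := by
              have : 2 * w.1 = (w.1 - D * w.2) + (w.1 + D * w.2) := by omega
              rw [this]
              exact dvd_add hm hq
            rcases (Nat.Prime.dvd_mul hp).1 h9 with h | h
            · have := Nat.le_of_dvd (by norm_num) h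
              omega
            · exact hx h
          · rw [mul_comm] at h8
            exact Or.inr (Or.inr (Or.inl (sq_dvd_mul hp hq h8)))
        · exact Or.inr (Or.inr (Or.inr (Or.inl (sq_dvd_mul hp hm h8))))

theorem card_or {α : Type*} (S : Finset α) (P Q : α → Prop) [DecidablePred P] [DecidablePred Q] :
    (S.filter fun w => P w ∨ Q w).card ≤ (S.filter P).card + (S.filter Q).card := by
  classical
  have h1 : (S.filter fun w => P w ∨ Q w) = S.filter P ∪ S.filter Q := Finset.filter_or _ _ _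
  rw [h1]
  exact Finset.card_union_le _ _

theorem EE_split (p : ℕ) {m1 m2 m3 m4 m5 : ℕ}
    (h1 : ((PP D N h A).filter fun w => p ^ 2 ∣ w.1).card ≤ m1)
    (h2 : ((PP D N h A).filter fun w => p ^ 2 ∣ w.2).card ≤ m2)
    (h3 : ((PP D N h A).filter fun w => p ^ 2 ∣ w.1 - D * w.2).card ≤ m3)
    (h4 : ((PP D N h A).filter fun w => p ^ 2 ∣ w.1 + D * w.2).card ≤ m4)
    (h5 : ((PP D N h A).filter fun w => p ∣ w.1 ∧ p ∣ w.2).card ≤ m5) :
    ((PP D N h A).filter (EE D p)).card ≤ m1 + (m2 + (m3 + (m4 + m5))) := by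
  have e : (PP D N h A).filter (EE D p) = (PP D N h A).filter fun w =>
    p ^ 2 ∣ w.1 ∨ p ^ 2 ∣ w.2 ∨ p ^ 2 ∣ w.1 - D * w.2 ∨ p ^ 2 ∣ w.1 + D * w.2 ∨
      (p ∣ w.1 ∧ p ∣ w.2) := Finset.filter_congr fun w _ => Iff.rfl
  rw [e]
  refine (card_or _ _ _).trans (Nat.add_le_add h1 ?_)
  refine (card_or _ _ _).trans (Nat.add_le_add h2 ?_)
  refine (card_or _ _ _).trans (Nat.add_le_add h3 ?_)
  exact (card_or _ _ _).trans (Nat.add_le_add h4 h5)

theorem modEq_sub {x x' y r : ℕ} (h : y < x) (h' : y < x') (h1 : r ∣ x - y) (h2 : r ∣ x' - y) :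
    x ≡ x' [MOD r] := by
  have h3 : x - y ≡ x' - y [MOD r] :=
    (Nat.modEq_zero_iff_dvd.2 h1).trans (Nat.modEq_zero_iff_dvd.2 h2).symm
  have h4 := Nat.ModEq.add_right y h3
  rwa [Nat.sub_add_cancel h.le, Nat.sub_add_cancel h'.le] at h4

theorem EE_mid {p : ℕ} (hp : p.Prime) (hpN : ¬ p ∣ N) :
    ((PP D N h A).filter (EE D p)).card ≤
      (h / p ^ 2 + 1) * (h + 1) * A.card + ((h + 1) * (h / p ^ 2 + 1) * A.card +
        ((h / p ^ 2 + 1) * (h + 1) * A.card + ((h / p ^ 2 + 1) * (h + 1) * A.card +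
          (h / p + 1) * (h / p + 1) * A.card))) := by
  have c1 : Nat.Coprime N p := ((Nat.Prime.coprime_iff_not_dvd hp).2 hpN).symm
  have c2 : Nat.Coprime N (p ^ 2) := Nat.Coprime.pow_right 2 c1
  have p2 : 0 < p ^ 2 := pow_pos hp.pos 2
  refine EE_split p (mid_x _ p2 c2 fun x x' y h1 h2 _ _ => ?_) (mid_y _ p2 c2 fun x y h => h)
    (mid_x _ p2 c2 fun x x' y h1 h2 h3 h4 => ?_) (mid_x _ p2 c2 fun x x' y h1 h2 h3 h4 => ?_)
    (mid_xy _ hp.pos c1 fun x y h => h)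
  · exact (Nat.modEq_zero_iff_dvd.2 h1).trans (Nat.modEq_zero_iff_dvd.2 h2).symm
  · exact modEq_sub h3 h4 h1 h2
  · exact Nat.ModEq.add_right_cancel' (D * y)
      ((Nat.modEq_zero_iff_dvd.2 h1).trans (Nat.modEq_zero_iff_dvd.2 h2).symm)

theorem m_snd (S : Finset (ℕ × ℕ)) (z : ZMod N × ZMod N)
    (hS : ∀ w ∈ S, 0 < w.2 ∧ w.2 ≤ 0 + N * h ∧ (w.2 : ZMod N) = z.2)
    (hinj : ∀ w ∈ S, ∀ w' ∈ S, w.2 = w'.2 → w.1 = w'.1) : S.card ≤ h + 1 := by
  refine card_le_of_inj S (S.image Prod.snd) Prod.snd (fun w hw => mem_image_of_mem _ hw)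
    (fun w hw w' hw' he => Prod.ext (hinj w hw w' hw' he) he) (card_class (u := 0) _ (α := z.2) ?_)
  intro y hy
  rw [mem_image] at hy
  obtain ⟨w, hw, rfl⟩ := hy
  exact hS w hw

theorem m_fst (S : Finset (ℕ × ℕ)) (z : ZMod N × ZMod N)
    (hS : ∀ w ∈ S, D * (N * h) < w.1 ∧ w.1 ≤ D * (N * h) + N * h ∧ (w.1 : ZMod N) = z.1)
    (hinj : ∀ w ∈ S, ∀ w' ∈ S, w.2 = w'.2) : S.card ≤ h + 1 := by
  refine card_le_of_inj S (S.image Prod.fst) Prod.fst (fun w hw => mem_image_of_mem _ hw)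
    (fun w hw w' hw' he => Prod.ext he (hinj w hw w' hw')) (card_class (u := D * (N * h)) _
      (α := z.1) ?_)
  intro y hy
  rw [mem_image] at hy
  obtain ⟨w, hw, rfl⟩ := hy
  exact hS w hw

theorem m_snd2 {r : ℕ} (hr : 0 < r) (hc : Nat.Coprime N r) (S : Finset (ℕ × ℕ))
    (z : ZMod N × ZMod N)
    (hS : ∀ w ∈ S, 0 < w.2 ∧ w.2 ≤ 0 + N * h ∧ (w.2 : ZMod N) = z.2)
    (hr2 : ∀ w ∈ S, r ∣ w.2)
    (hinj : ∀ w ∈ S, ∀ w' ∈ S, w.2 = w'.2 → w.1 = w'.1) : S.card ≤ h / r + 1 := by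
  refine card_le_of_inj S (S.image Prod.snd) Prod.snd (fun w hw => mem_image_of_mem _ hw)
    (fun w hw w' hw' he => Prod.ext (hinj w hw w' hw' he) he)
    (card_class2 (u := 0) hr hc _ (α := z.2) ?_ ?_)
  · intro y hy
    rw [mem_image] at hy
    obtain ⟨w, hw, rfl⟩ := hy
    exact hS w hw
  · intro y hy y' hy'
    rw [mem_image] at hy hy'
    obtain ⟨w, hw, rfl⟩ := hy
    obtain ⟨w', hw', rfl⟩ := hy'
    exact (Nat.modEq_zero_iff_dvd.2 (hr2 w hw)).trans (Nat.modEq_zero_iff_dvd.2 (hr2 w' hw')).symm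

theorem mem_two {P : ℕ × ℕ → Prop} [DecidablePred P] {φ : ℕ × ℕ → ℕ} {t : ℕ}
    {z : ZMod N × ZMod N} {w : ℕ × ℕ}
    (hw : w ∈ (((PP D N h A).filter P).filter fun w => φ w = t).filter fun w => red N w = z) :
    (D * (N * h) < w.1 ∧ w.1 ≤ D * (N * h) + N * h ∧ (w.1 : ZMod N) = z.1) ∧
    (0 < w.2 ∧ w.2 ≤ 0 + N * h ∧ (w.2 : ZMod N) = z.2) ∧ P w ∧ φ w = t := by
  rw [mem_filter, mem_filter, mem_filter, mem_PP] at hw
  obtain ⟨⟨⟨⟨h1, h2, -⟩, h3⟩, h5⟩, h4⟩ := hw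
  rw [← h4]
  exact ⟨⟨h1.1, h1.2, rfl⟩, ⟨h2.1, by omega, rfl⟩, h3, h5⟩

theorem EE_large (hA : LS (D : ZMod N) (b : ZMod N) (gg b N) K c A) {p : ℕ} (hp : p.Prime)
    (hpN : ¬ p ∣ N) :
    ((PP D N h A).filter (EE D p)).card ≤
      (h + 1) * c * ((D * (N * h) + N * h) / p ^ 2) +
        ((h + 1) * (c * gg b N) * (N * h / (p ^ 2 * gg b N)) +
        ((h + 1) * c * ((D * (N * h) + N * h) / p ^ 2) +
        ((h + 1) * c * ((D * (N * h) + N * h + D * (N * h)) / p ^ 2) +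
          (h / p + 1) * c * ((D * (N * h) + N * h) / p)))) := by
  have c1 : Nat.Coprime N p := ((Nat.Prime.coprime_iff_not_dvd hp).2 hpN).symm
  have c2 : Nat.Coprime N (p ^ 2) := Nat.Coprime.pow_right 2 c1
  have p2 : 0 < p ^ 2 := pow_pos hp.pos 2
  have hN : 0 < N := Nat.pos_of_ne_zero (NeZero.ne N)
  have g0 : 0 < gg b N := Nat.pos_of_dvd_of_pos (gg_dvd b N) hN
  refine EE_split p ?_ ?_ ?_ ?_ ?_
  · refine large_gen _ (fun w => w.1) (fun z => z.1) (fun w _ => rfl) p2 hA.fx (fun w hw => ?_)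
      fun z t => ?_
    · rw [mem_filter, mem_PP] at hw
      exact ⟨by omega, hw.1.1.2, hw.2⟩
    · refine m_snd _ z (fun w hw => (mem_two hw).2.1) fun w hw w' hw' _ => ?_
      exact (mem_two hw).2.2.2.trans (mem_two hw').2.2.2.symm
  · refine large_gen _ (fun w => w.2) (fun z => z.2) (fun w _ => rfl) (Nat.mul_pos p2 g0) hA.fy
      (fun w hw => ?_) fun z t => ?_
    · rw [mem_filter] at hw
      have h1 := gg_dvd_y hA hw.1
      rw [mem_PP] at hw
      refine ⟨hw.1.2.1.1, hw.1.2.1.2, ?_⟩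
      exact (Nat.Coprime.coprime_dvd_left (gg_dvd b N) c2).symm.mul_dvd_of_dvd_of_dvd hw.2 h1
    · refine m_fst _ z (fun w hw => (mem_two hw).1) fun w hw w' hw' => ?_
      exact (mem_two hw).2.2.2.trans (mem_two hw').2.2.2.symm
  · refine large_gen _ (fun w => w.1 - D * w.2) (fun z => z.1 - (D : ZMod N) * z.2)
      (fun w hw => ?_) p2 hA.fm (fun w hw => ?_) fun z t => ?_
    · unfold red
      rw [Nat.cast_sub hw.le, Nat.cast_mul]
    · rw [mem_filter] at hw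
      have h1 := PP_lt hw.1
      rw [mem_PP] at hw
      exact ⟨by omega, by omega, hw.2⟩
    · refine m_snd _ z (fun w hw => (mem_two hw).2.1) fun w hw w' hw' he => ?_
      have h1 := (mem_two hw).2.2.2.trans (mem_two hw').2.2.2.symm
      rw [mem_filter, mem_filter, mem_filter] at hw hw'
      have h2 := PP_lt hw.1.1.1
      have h3 := PP_lt hw'.1.1.1
      rw [he] at h1 h2
      omega
  · refine large_gen _ (fun w => w.1 + D * w.2) (fun z => z.1 + (D : ZMod N) * z.2)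
      (fun w hw => ?_) p2 hA.fp (fun w hw => ?_) fun z t => ?_
    · unfold red
      rw [Nat.cast_add, Nat.cast_mul]
    · rw [mem_filter] at hw
      have h1 := PP_lt hw.1
      rw [mem_PP] at hw
      have e3 : D * w.2 ≤ D * (N * h) := Nat.mul_le_mul_left _ hw.1.2.1.2
      exact ⟨by omega, by omega, hw.2⟩
    · refine m_snd _ z (fun w hw => (mem_two hw).2.1) fun w hw w' hw' he => ?_
      have h1 := (mem_two hw).2.2.2.trans (mem_two hw').2.2.2.symm
      rw [he] at h1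
      omega
  · refine large_gen _ (fun w => w.1) (fun z => z.1) (fun w _ => rfl) hp.pos hA.fx (fun w hw => ?_)
      fun z t => ?_
    · rw [mem_filter, mem_PP] at hw
      exact ⟨by omega, hw.1.1.2, hw.2.1⟩
    · refine m_snd2 hp.pos c1 _ z (fun w hw => (mem_two hw).2.1)
        (fun w hw => (mem_two hw).2.2.1.2) fun w hw w' hw' _ => ?_
      exact (mem_two hw).2.2.2.trans (mem_two hw').2.2.2.symm

theorem GG_large (hA : LS (D : ZMod N) (b : ZMod N) (gg b N) K c A) {p : ℕ} (hp : p.Prime)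
    (h3 : 300 ≤ p) (hpN : p ∣ N) (hpb : p ∣ b) :
    ((PP D N h A).filter fun w => p ^ 2 ∣ w.2).card ≤
      (h + 1) * (c * gg b N) * (N * h / (gg b N * p)) := by
  have hN : 0 < N := Nat.pos_of_ne_zero (NeZero.ne N)
  have g0 : 0 < gg b N := Nat.pos_of_dvd_of_pos (gg_dvd b N) hN
  refine large_gen _ (fun w => w.2) (fun z => z.2) (fun w _ => rfl) (Nat.mul_pos g0 hp.pos) hA.fy
      (fun w hw => ?_) fun z t => ?_
  · rw [mem_filter] at hw
    have h1 := gg_dvd_y hA hw.1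
    rw [mem_PP] at hw
    refine ⟨hw.1.2.1.1, hw.1.2.1.2, ?_⟩
    obtain ⟨g', hg', hc⟩ := gg_split hN.ne' hp h3 hpN hpb
    have h4 : g' ∣ w.2 := (by rw [hg']; exact dvd_mul_left _ _ : g' ∣ gg b N).trans h1
    have h5 := (Nat.Coprime.pow_left 2 hc).mul_dvd_of_dvd_of_dvd hw.2 h4
    refine dvd_trans (dvd_of_eq ?_) h5
    rw [hg']
    ring
  · refine m_fst _ z (fun w hw => (mem_two hw).1) fun w hw w' hw' => ?_
    exact (mem_two hw).2.2.2.trans (mem_two hw').2.2.2.symm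

end ty

end Pool.Agent.V7H64.CG
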